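import Pool.Agent.Helper91K9.DL.Cube

/-!
# Leaf CLO: closure (helper65)
-/

namespace Pool.Agent.Helper91K9.DL

open Finset

theorem clo : S_CLO := by
  classical
  intro n ι I T k c V₀ hk hc hdeg hT
  let g : Finset (Fin n) → ℕ := fun V => (I.filter fun i => T i ⊆ V).card
  obtain ⟨V, hV, hmin⟩ := Finset.exists_min_image
    ((univ : Finset (Finset (Fin n))).filter fun V => V₀ ⊆ V)
    (fun V => (V.card : ℤ) - c * (g V : ℤ)) ⟨V₀, by simp⟩
  have hV0 : V₀ ⊆ V := (Finset.mem_filter.mp hV).2
  have hmin' : ∀ V', V₀ ⊆ V' → (V.card : ℤ) - c * (g V : ℤ) ≤ (V'.card : ℤ) - c * (g V' : ℤ) :=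
    fun V' h => hmin V' (Finset.mem_filter.mpr ⟨Finset.mem_univ _, h⟩)
  -- double counting
  have h1 : g V * (2 * k * c) ≤ k * V.card := by
    have h2 : g V * (2 * k * c) ≤ ∑ i ∈ I.filter (fun i => T i ⊆ V), (T i).card := by
      rw [← smul_eq_mul]
      apply Finset.card_nsmul_le_sum
      intro i hi
      exact hT i (Finset.mem_filter.mp hi).1
    have h3 : ∑ i ∈ I.filter (fun i => T i ⊆ V), (T i).card =
        ∑ v ∈ V, ((I.filter (fun i => T i ⊆ V)).filter fun i => v ∈ T i).card := by
      have e1 : ∀ i ∈ I.filter (fun i => T i ⊆ V), (T i).card =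
          ∑ v ∈ V, if v ∈ T i then 1 else 0 := by
        intro i hi
        rw [← Finset.card_filter]
        congr 1
        ext v
        simp only [Finset.mem_filter]
        constructor
        · intro hv; exact ⟨(Finset.mem_filter.mp hi).2 hv, hv⟩
        · intro hv; exact hv.2
      rw [Finset.sum_congr rfl e1, Finset.sum_comm]
      apply Finset.sum_congr rfl
      intro v _
      rw [Finset.card_filter]
    rw [h3] at h2
    refine h2.trans ?_
    have h4 : ∀ v ∈ V, ((I.filter (fun i => T i ⊆ V)).filter fun i => v ∈ T i).card ≤ k := by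
      intro v _
      refine le_trans (Finset.card_le_card ?_) (hdeg v)
      intro i hi
      simp only [Finset.mem_filter] at hi ⊢
      exact ⟨hi.1.1, hi.2⟩
    have h5 := Finset.sum_le_card_nsmul V _ k h4
    rw [smul_eq_mul, mul_comm] at h5
    exact h5
  have h2 : 2 * c * g V ≤ V.card := by
    have h3 : k * (2 * c * g V) ≤ k * V.card := by
      calc k * (2 * c * g V) = g V * (2 * k * c) := by ring
        _ ≤ k * V.card := h1
    exact Nat.le_of_mul_le_mul_left h3 (by omega)
  have h3 : (V.card : ℤ) - c * (g V : ℤ) ≤ V₀.card := by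
    have h4 := hmin' V₀ le_rfl
    have h5 : (0:ℤ) ≤ c * (g V₀ : ℤ) := by positivity
    linarith
  refine ⟨V, hV0, ?_, ?_, ?_⟩
  · have h4 : 2 * ((c:ℤ) * (g V : ℤ)) ≤ V.card := by
      have : ((2 * c * g V : ℕ) : ℤ) ≤ (V.card : ℤ) := by exact_mod_cast h2
      push_cast at this
      linarith
    have h5 : (V.card : ℤ) ≤ 2 * V₀.card := by linarith
    exact_mod_cast h5
  · exact h2
  · intro i hi
    by_cases hsub : T i ⊆ V
    · exact Or.inl hsub
    · right
      have h4 := hmin' (V ∪ T i) (hV0.trans Finset.subset_union_left)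
      have h5 : g V + 1 ≤ g (V ∪ T i) := by
        have h6 : (I.filter fun j => T j ⊆ V) ⊂ (I.filter fun j => T j ⊆ V ∪ T i) := by
          rw [Finset.ssubset_iff_of_subset]
          · refine ⟨i, ?_, ?_⟩
            · exact Finset.mem_filter.mpr ⟨hi, Finset.subset_union_right⟩
            · intro h; exact hsub (Finset.mem_filter.mp h).2
          · intro j hj
            rw [Finset.mem_filter] at hj ⊢
            exact ⟨hj.1, hj.2.trans Finset.subset_union_left⟩
        exact Finset.card_lt_card h6
      have h6 : ((V ∪ T i).card : ℤ) = V.card + (T i \ V).card := by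
        have : (V ∪ T i).card = V.card + (T i \ V).card := by
          rw [← Finset.union_sdiff_self_eq_union, Finset.card_union_of_disjoint]
          exact Finset.disjoint_sdiff
        exact_mod_cast this
      have h7 : ((g V : ℤ) + 1) ≤ (g (V ∪ T i) : ℤ) := by exact_mod_cast h5
      have h8 : (c:ℤ) * ((g V : ℤ) + 1) ≤ c * (g (V ∪ T i) : ℤ) :=
        mul_le_mul_of_nonneg_left h7 (by positivity)
      have h9 : (c:ℤ) ≤ (T i \ V).card := by linarith
      exact_mod_cast h9

end Pool.Agent.Helper91K9.DL
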