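import Pool.Agent.Helper91K9.DL.Sgn

/-!
# Correctness of the algorithm for a good sample
-/

namespace Pool.Agent.Helper91K9.DL

open Finset

variable {n m : ℕ}

/-- Leaf PARTS. -/
def S_PARTS : Prop := ∀ n r : ℕ, (∀ ρ ∈ parts n r, ∀ l ∈ ρ, l.1 < n) ∧
  (∀ ρ : List (ℕ × Bool), ρ.length ≤ r → (∀ l ∈ ρ, l.1 < n) → ρ ∈ parts n r) ∧
  (parts n r).length = (2 * n + 1) ^ r

open Classical in
/-- Leaf FAM. -/
def S_FAM : Prop := ∀ (n : ℕ) (F : List (List (ℕ × Bool))), (∀ t ∈ F, ∀ l ∈ t, l.1 < n) →
  ∃ (ι : Type) (I : Finset ι) (T : ι → Finset (Fin n)) (a : ι → Cube n),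
  (∀ x, ff n F x ↔ ∃ i ∈ I, agr (T i) (a i) x) ∧
  (∀ v : Fin n, (I.filter fun i => v ∈ T i).card ≤
    (F.filter fun t => t.any fun l => l.1 == (v : ℕ)).length) ∧
  ∀ W : ℕ, (I.filter fun i => (T i).card < W).card ≤
    (F.filter fun t => decide ((t.map Prod.fst).toFinset.card < W)).length

theorem length_flatMap_le {α β : Type} (l : List α) (f : α → List β) (B : ℕ)
    (h : ∀ a ∈ l, (f a).length ≤ B) : (l.flatMap f).length ≤ l.length * B := by
  induction l with
  | nil => simp
  | cons a l ih =>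
    rw [List.flatMap_cons, List.length_append, List.length_cons]
    have h1 := h a (by simp)
    have h2 := ih fun b hb => h b (by simp [hb])
    calc _ ≤ B + l.length * B := Nat.add_le_add h1 h2
      _ = _ := by ring

/-- The bound for the number of candidates. -/
def NC (R n D : ℕ) : ℕ :=
  (2 * n + 1) ^ R + (2 * n + 1) ^ R * (n * ((16 * D ^ 2 + 1) * (2 * n + 1) ^ R))

theorem cands_length (hpars : S_PARS) (hparts : S_PARTS) (R D : ℕ) (hD : 1 ≤ D)
    (hm : 16 * D ^ 2 + 1 ≤ m) (F : List (List (ℕ × Bool))) (X : Fin m → Cube n) (τ : ℝ)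
    (hτ : τ ≤ 1 / (4 * D)) (hG : Good X (ff n F) τ) :
    (cands R n m D (negs (smp F X))).length ≤ NC R n D := by
  unfold cands NC
  obtain ⟨hp1, hp2, hp3⟩ := hparts n R
  rw [List.length_append, hp3]
  refine Nat.add_le_add_left ?_ _
  rw [← hp3]
  refine length_flatMap_le _ _ _ fun ρ hρ => ?_
  refine (length_flatMap_le _ _ ((16 * D ^ 2 + 1) * (parts n R).length) fun i hi => ?_).trans
    (by rw [List.length_range])
  have hi' : i < n := List.mem_range.1 hi
  refine (length_flatMap_le _ _ (parts n R).length fun S _ => by rw [List.length_map]).trans ?_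
  refine Nat.mul_le_mul_right _ ?_
  have h1 := grow_ok hpars D hD hm F X τ hτ hG ρ (hp1 ρ hρ) ⟨i, hi'⟩ n le_rfl
  exact Ok.length hpars (by omega) D hD F X τ hτ hG ρ (hp1 ρ hρ) ⟨i, hi'⟩ _ n le_rfl h1

theorem cands_vars (hpars : S_PARS) (hparts : S_PARTS) (R D : ℕ) (hD : 1 ≤ D)
    (hm : 16 * D ^ 2 + 1 ≤ m) (F : List (List (ℕ × Bool))) (X : Fin m → Cube n) (τ : ℝ)
    (hτ : τ ≤ 1 / (4 * D)) (hG : Good X (ff n F) τ) (C : List (ℕ × Bool))
    (hC : C ∈ cands R n m D (negs (smp F X))) : ∀ l ∈ C, l.1 < n := by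
  obtain ⟨hp1, hp2, hp3⟩ := hparts n R
  unfold cands at hC
  rw [List.mem_append] at hC
  rcases hC with hC | hC
  · exact hp1 C hC
  · obtain ⟨ρ, hρ, hC⟩ := List.mem_flatMap.1 hC
    obtain ⟨i, hi, hC⟩ := List.mem_flatMap.1 hC
    obtain ⟨S, hS, hC⟩ := List.mem_flatMap.1 hC
    obtain ⟨ρ', hρ', rfl⟩ := List.mem_map.1 hC
    have hi' : i < n := List.mem_range.1 hi
    have h1 := grow_ok hpars D hD hm F X τ hτ hG ρ (hp1 ρ hρ) ⟨i, hi'⟩ n le_rfl
    obtain ⟨-, -, h2, -⟩ := h1.1 S hS
    intro l hl
    rcases List.mem_append.1 hl with hl | hl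
    · exact hp1 ρ' hρ' l hl
    · obtain ⟨j, hj, rfl⟩ := List.mem_map.1 hl
      rcases h2 j hj with h | h
      · exact h
      · simp only at h ⊢; rw [h]; exact hi'

/-- The literals of `x` on `A`. -/
def litsOf (x : Cube n) (A : Finset (Fin n)) : List (ℕ × Bool) :=
  (List.finRange n).filterMap fun v => if v ∈ A then some ((v : ℕ), x v) else none

theorem mem_litsOf (x : Cube n) (A : Finset (Fin n)) (l : ℕ × Bool) :
    l ∈ litsOf x A ↔ ∃ v ∈ A, ((v : ℕ), x v) = l := by
  unfold litsOf
  rw [List.mem_filterMap]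
  constructor
  · rintro ⟨v, -, hv⟩
    by_cases h : v ∈ A
    · rw [if_pos h] at hv; exact ⟨v, h, Option.some.inj hv⟩
    · rw [if_neg h] at hv; simp at hv
  · rintro ⟨v, hv, rfl⟩
    exact ⟨v, List.mem_finRange v, by rw [if_pos hv]⟩

theorem length_litsOf (x : Cube n) (A : Finset (Fin n)) : (litsOf x A).length = A.card := by
  classical
  have h1 : (litsOf x A).length = ((List.finRange n).filter fun v => decide (v ∈ A)).length := by
    unfold litsOf
    induction List.finRange n with
    | nil => rfl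
    | cons v l ih =>
      by_cases h : v ∈ A
      · simp [h, ih]
      · simp [h, ih]
  rw [h1, card_filter_fin]
  congr 1
  ext v
  simp

/-- A list with prescribed literals. -/
theorem exists_list (U : Finset (Fin n × Bool)) : ∃ ρ : List (ℕ × Bool),
    ρ.length = U.card ∧ (∀ l ∈ ρ, l.1 < n) ∧ UU n ρ = U := by
  classical
  refine ⟨U.toList.map fun l => ((l.1 : ℕ), l.2), by simp, ?_, ?_⟩
  · intro l hl
    obtain ⟨l', _, rfl⟩ := List.mem_map.1 hl
    exact l'.1.2
  · ext l
    rw [mem_UU, List.mem_map]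
    constructor
    · rintro ⟨l', hl', h⟩
      have : l' = l := by
        rw [Prod.mk.injEq] at h
        exact Prod.ext (Fin.ext h.1) h.2
      rw [← this]
      exact mem_toList.1 hl'
    · intro hl
      exact ⟨l, mem_toList.2 hl, rfl⟩

theorem coef_empty (f : Cube n → Prop) (U : Finset (Fin n × Bool)) :
    coef f U ∅ = PP (fun x => ¬ f x ∧ satL U x) := by
  classical
  unfold coef
  rw [PP_eq]
  congr 1
  have : ∀ x, wt f U ∅ x = if ¬ f x ∧ satL U x then 1 else 0 := fun x => by
    unfold wt; simp [chi]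
  rw [sum_congr rfl fun x _ => this x, sum_boole]

theorem stat_empty (f : Cube n → Prop) (U : Finset (Fin n × Bool)) (X : Fin m → Cube n) :
    stat X f U ∅ = ((open Classical in (univ.filter fun j => ¬ f (X j) ∧ satL U (X j))).card : ℝ) := by
  classical
  unfold stat
  have : ∀ j, wt f U ∅ (X j) = if ¬ f (X j) ∧ satL U (X j) then 1 else 0 := fun x => by
    unfold wt; simp [chi]
  rw [sum_congr rfl fun j _ => this j, sum_boole]

theorem correct (hpars : S_PARS) (hcov : S_COVER) (hparts : S_PARTS)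
    (k c h a L D : ℕ) (hk : 1 ≤ k) (hc : 1 ≤ c) (h8 : (8 * (k : ℝ)) ≤ (7 / 4) ^ c)
    (ha : 1 ≤ a) (hD : 1 ≤ D) (F : List (List (ℕ × Bool)))
    {ι : Type} (I : Finset ι) (T : ι → Finset (Fin n)) (b : ι → Cube n)
    (hf : ∀ x, ff n F x ↔ ∃ i ∈ I, agr (T i) (b i) x)
    (hread' : ∀ v, (open Classical in (I.filter fun i => v ∈ T i)).card ≤ k)
    (hshort : 1 / (2 * (a : ℝ)) ≤ PP (fun x => ∀ i ∈ I, ¬ agr (T i) (b i) x) →
      (open Classical in (I.filter fun i => (T i).card < 4 * k ^ 2 * c)).card ≤ h)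
    (hL : k * n * a ≤ 2 ^ L)
    (hDb : 0 < n → 1 / (D : ℝ) ≤ 1 / (2 * (a : ℝ)) /
      (4 ^ (8 * h * k ^ 2 * c) * 16 ^ L * (n : ℝ) ^ k))
    (hm : 16 * D ^ 2 + 1 ≤ m) (X : Fin m → Cube n) (τ : ℝ) (hτ : τ ≤ 1 / (4 * D))
    (hτa : τ ≤ 1 / (4 * a)) (hτ0 : 0 ≤ τ)
    (hτN : NC (8 * h * k ^ 2 * c + k) n D * τ ≤ 1 / (2 * a))
    (hG : Good X (ff n F) τ) (K : ℕ) (hK : thr K n a = D) :
    PP (fun x : Cube n => dnfVal (learn (8 * h * k ^ 2 * c + k) K (a, smp F X)) (List.ofFn x) ≠
      dnfVal F (List.ofFn x)) ≤ 1 / a := by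
  classical
  set R := 8 * h * k ^ 2 * c + k with hR
  have hm0 : (0 : ℝ) < m := by exact_mod_cast (by omega : 0 < m)
  have ha0 : (0 : ℝ) < a := by exact_mod_cast ha
  have hnv : nvars (smp F X) = n := by
    unfold nvars smp
    obtain ⟨m', rfl⟩ : ∃ m', m = m' + 1 := ⟨m - 1, by omega⟩
    simp
  have hlen : (smp F X).length = m := by unfold smp; simp
  -- the number of negative examples
  have hneg : |((negs (smp F X)).length : ℝ) - m * PP (fun x : Cube n => ¬ ff n F x)| ≤ m * τ := by
    have h1 := hG ∅ ∅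
    rw [coef_empty, stat_empty] at h1
    have h2 := negs_filter F X (fun _ => true)
    rw [List.filter_true] at h2
    rw [h2]
    convert h1 using 4
    · congr 1
      ext j
      simp [satL]
    · refine PP_congr fun x => ?_
      simp [satL]
  rw [abs_le] at hneg
  unfold learn
  simp only [hnv, hlen, hK]
  by_cases htest : 4 * a * (negs (smp F X)).length < 3 * m
  · rw [if_pos htest]
    have h1 : PP (fun x : Cube n => dnfVal [[]] (List.ofFn x) ≠ dnfVal F (List.ofFn x)) =
        PP (fun x : Cube n => ¬ ff n F x) := by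
      refine PP_congr fun x => ?_
      simp [dnfVal, termVal, ff]
    rw [h1]
    have h2 : (4 : ℝ) * a * (negs (smp F X)).length < 3 * m := by exact_mod_cast htest
    have h3 : ((negs (smp F X)).length : ℝ) ≤ m * (3 / (4 * a)) := by
      rw [← mul_div_assoc, le_div_iff₀ (by positivity)]
      nlinarith
    have h4 : (m : ℝ) * PP (fun x : Cube n => ¬ ff n F x) ≤ m * (1 / a) := by
      have h5 : (m : ℝ) * τ ≤ m * (1 / (4 * a)) := mul_le_mul_of_nonneg_left hτa hm0.le
      have h6 : (m : ℝ) * (1 / a) = m * (3 / (4 * a)) + m * (1 / (4 * a)) := by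
        field_simp; norm_num
      linarith [hneg.1]
    exact le_of_mul_le_mul_left h4 hm0
  rw [if_neg htest]
  have hp0 : 1 / (2 * (a : ℝ)) ≤ PP (fun x : Cube n => ¬ ff n F x) := by
    have h2 : (3 : ℝ) * m ≤ 4 * a * (negs (smp F X)).length := by
      exact_mod_cast not_lt.1 htest
    have h3 : (m : ℝ) * (3 / (4 * a)) ≤ (negs (smp F X)).length := by
      rw [← mul_div_assoc, div_le_iff₀ (by positivity)]
      nlinarith
    have h4 : (m : ℝ) * (1 / (2 * a)) ≤ m * PP (fun x : Cube n => ¬ ff n F x) := by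
      have h5 : (m : ℝ) * τ ≤ m * (1 / (4 * a)) := mul_le_mul_of_nonneg_left hτa hm0.le
      have h6 : (m : ℝ) * (3 / (4 * a)) = m * (1 / (2 * a)) + m * (1 / (4 * a)) := by
        field_simp; norm_num
      linarith [hneg.2]
    exact le_of_mul_le_mul_left h4 hm0
  have hp1 : 1 / (2 * (a : ℝ)) ≤ PP (fun x => ∀ i ∈ I, ¬ agr (T i) (b i) x) := by
    refine hp0.trans (le_of_eq (PP_congr fun x => ?_))
    rw [hf x]; push Not; rfl
  have hshort' := hshort hp1
  obtain ⟨hq1, hq2, hq3⟩ := hparts n R
  set H := (cands R n m D (negs (smp F X))).filter fun t =>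
      (negs (smp F X)).all fun x => !(termVal t x) with hH
  -- the long terms
  set long : Cube n → Prop := fun x => ∃ i ∈ I.filter (fun i => L < (T i).card),
    agr (T i) (b i) x with hlong
  have hlongP : PP long ≤ 1 / (2 * a) := by
    refine (PP_exists_le _ _).trans ?_
    have h1 : ∀ i ∈ I.filter (fun i => L < (T i).card), PP (agr (T i) (b i)) ≤ (1 / 2) ^ (L + 1) :=
      fun i hi => by
        rw [PP_agr]
        exact pow_le_pow_of_le_one (by norm_num) (by norm_num) (mem_filter.1 hi).2
    refine (sum_le_card_nsmul _ _ _ h1).trans ?_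
    have h2 : (I.filter (fun i => L < (T i).card)).card ≤ k * n := by
      calc (I.filter (fun i => L < (T i).card)).card
          ≤ ((univ : Finset (Fin n)).biUnion fun v => I.filter fun i => v ∈ T i).card := by
            refine card_le_card fun i hi => ?_
            have hi' := mem_filter.1 hi
            obtain ⟨v, hv⟩ : (T i).Nonempty := card_pos.1 (by omega)
            rw [mem_biUnion]
            exact ⟨v, mem_univ _, mem_filter.2 ⟨hi'.1, hv⟩⟩
        _ ≤ ∑ v : Fin n, (I.filter fun i => v ∈ T i).card := card_biUnion_le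
        _ ≤ ∑ _v : Fin n, k := sum_le_sum fun v _ => hread' v
        _ = k * n := by rw [sum_const, card_univ, Fintype.card_fin, smul_eq_mul, mul_comm]
    rw [nsmul_eq_mul]
    have h3 : ((k * n * a : ℕ) : ℝ) ≤ 2 ^ L := by exact_mod_cast hL
    push_cast at h3
    calc ((I.filter (fun i => L < (T i).card)).card : ℝ) * (1 / 2) ^ (L + 1)
        ≤ ((k * n : ℕ) : ℝ) * (1 / 2) ^ (L + 1) := by
          refine mul_le_mul_of_nonneg_right ?_ (by positivity)
          exact_mod_cast h2
      _ ≤ 1 / (2 * a) := by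
          push_cast
          rw [one_div, inv_pow, pow_succ, ← div_eq_mul_inv, div_le_div_iff₀ (by positivity)
            (by positivity)]
          nlinarith
  -- the points which are covered
  have hcovx : ∀ x, ff n F x → ¬ long x → dnfVal H (List.ofFn x) = true := by
    intro x hx hnl
    have hkeep : ∀ C ∈ cands R n m D (negs (smp F X)), (∀ l ∈ C, l.1 < n) →
        satL (UU n C) x → (∀ y, satL (UU n C) y → ff n F y) →
        dnfVal H (List.ofFn x) = true := by
      intro C hC hCv hCx hCf
      unfold dnfVal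
      rw [List.any_eq_true]
      refine ⟨C, ?_, (termVal_iff C hCv x).2 hCx⟩
      rw [hH, List.mem_filter]
      refine ⟨hC, ?_⟩
      rw [negs_all]
      intro j hj
      rw [Bool.not_eq_true', ← Bool.not_eq_true, termVal_iff C hCv]
      exact fun h => hj (hCf _ h)
    have hUA : ∀ (A : Finset (Fin n)) (y : Cube n), satL (UU n (litsOf x A)) y ↔ agr A x y := by
      intro A y
      unfold satL agr
      constructor
      · intro h v hv
        exact h (v, x v) ((mem_UU _ _).2 ((mem_litsOf x A _).2 ⟨v, hv, rfl⟩))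
      · intro h l hl
        obtain ⟨v, hv, hvl⟩ := (mem_litsOf x A _).1 ((mem_UU _ _).1 hl)
        rw [Prod.mk.injEq] at hvl
        have : v = l.1 := Fin.ext hvl.1
        subst this
        rw [← hvl.2]
        exact h _ hv
    have hvA : ∀ A : Finset (Fin n), ∀ l ∈ litsOf x A, l.1 < n := by
      intro A l hl
      obtain ⟨v, _, rfl⟩ := (mem_litsOf x A _).1 hl
      exact v.2
    rcases hcov n ι I T b k c h L (1 / (2 * (a : ℝ))) hk hc h8 hread' hshort' (by positivity) hp1 x
      ((hf x).1 hx) (fun i hi hix => by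
        by_contra hcon
        exact hnl ⟨i, mem_filter.2 ⟨hi, not_le.1 hcon⟩, hix⟩) with
      ⟨A, hA, hAf⟩ | ⟨A, Ts, u, U, μ, hA, hU, hu, hAf, hμ, hco⟩
    · refine hkeep (litsOf x A) ?_ (hvA A) ((hUA A x).2 fun _ _ => rfl)
        (fun y hy => (hf y).2 (hAf y ((hUA A y).1 hy)))
      unfold cands
      rw [List.mem_append]
      left
      exact hq2 _ (by rw [length_litsOf]; omega) (hvA A)
    · obtain ⟨ρ, hρl, hρv, hρU⟩ := exists_list U
      have hμ' : 1 / (D : ℝ) ≤ μ := (hDb (Fin.pos u)).trans hμ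
      have hfeq : (fun y => ∃ i ∈ I, agr (T i) (b i) y) = ff n F := by
        funext y; rw [eq_iff_iff, hf y]
      rw [hfeq] at hco
      have hco' : ∀ S : Finset (Fin n), u ∈ S → S ⊆ Ts →
          coef (ff n F) (UU n ρ) S = - chi S x * μ := fun S h1 h2 => by
        rw [hρU]; exact hco S h1 h2
      have hheavy : ∀ S : List ℕ, S.Nodup → (∀ v ∈ S, v < n) → (u : ℕ) ∈ S → SS n S ⊆ Ts →
          heavy m D (negs (smp F X)) ρ S = true := by
        intro S hn hv hus hST
        refine heavy_of_coef (by omega) D hD F X τ hτ hG ρ hρv S hv hn ?_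
        rw [hco' _ ((mem_SS _ _).2 hus) hST, abs_mul, abs_neg]
        have : |chi (SS n S) x| = 1 := by
          unfold chi
          rw [abs_prod]
          refine prod_eq_one fun v _ => ?_
          split_ifs <;> simp
        rw [this, one_mul]
        exact hμ'.trans (le_abs_self _)
      obtain ⟨S, hS, hSn, huS, hSv, hSS⟩ := grow_mem hpars D hD hm F X τ hτ hG ρ hρv u Ts hheavy
        hu n le_rfl
      have hSTs : ∀ v : Fin n, (v : ℕ) ∈ S ↔ v ∈ Ts := fun v => by
        rw [← mem_SS, hSS v]
        constructor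
        · rintro (h | h)
          · rw [h]; exact hu
          · exact h.1
        · intro h; exact Or.inr ⟨h, v.2⟩
      set C := litsOf x A ++ S.map fun j => (j, sgn (negs (smp F X)) ρ u j) with hC
      have hCv : ∀ l ∈ C, l.1 < n := by
        intro l hl
        rw [hC, List.mem_append] at hl
        rcases hl with hl | hl
        · exact hvA A l hl
        · obtain ⟨j, hj, rfl⟩ := List.mem_map.1 hl
          exact hSv j hj
      have hCs : ∀ y, satL (UU n C) y ↔ agr (A ∪ Ts) x y := by
        intro y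
        unfold satL agr
        constructor
        · intro h v hv
          rcases mem_union.1 hv with hv | hv
          · exact h (v, x v) ((mem_UU _ _).2 (List.mem_append.2 (Or.inl
              ((mem_litsOf x A _).2 ⟨v, hv, rfl⟩))))
          · refine h (v, x v) ((mem_UU _ _).2 (List.mem_append.2 (Or.inr ?_)))
            rw [List.mem_map]
            refine ⟨v, (hSTs v).2 hv, ?_⟩
            rw [sgn_eq (by omega) D hD F X τ hτ hG ρ hρv u Ts hu x μ hμ' hco' v hv]
        · intro h l hl
          rcases List.mem_append.1 ((mem_UU _ _).1 hl) with hl | hl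
          · obtain ⟨v, hv, hvl⟩ := (mem_litsOf x A _).1 hl
            rw [Prod.mk.injEq] at hvl
            have : v = l.1 := Fin.ext hvl.1
            subst this
            rw [← hvl.2]
            exact h _ (mem_union_left _ hv)
          · obtain ⟨j, hj, hjl⟩ := List.mem_map.1 hl
            rw [Prod.mk.injEq] at hjl
            have hlT : l.1 ∈ Ts := (hSTs l.1).1 (by rw [← hjl.1]; exact hj)
            rw [← hjl.2, hjl.1, sgn_eq (by omega) D hD F X τ hτ hG ρ hρv u Ts hu x μ hμ' hco'
              l.1 hlT]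
            exact h _ (mem_union_right _ hlT)
      refine hkeep C ?_ hCv ((hCs x).2 fun _ _ => rfl)
        (fun y hy => (hf y).2 (hAf y ((hCs y).1 hy)))
      unfold cands
      rw [List.mem_append]
      right
      rw [List.mem_flatMap]
      refine ⟨ρ, hq2 ρ (by omega) hρv, ?_⟩
      rw [List.mem_flatMap]
      refine ⟨u, List.mem_range.2 u.2, ?_⟩
      rw [List.mem_flatMap]
      refine ⟨S, hS, ?_⟩
      rw [List.mem_map]
      exact ⟨litsOf x A, hq2 _ (by rw [length_litsOf]; omega) (hvA A), rfl⟩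
  -- the false positives
  have hfp : PP (fun x : Cube n => ¬ ff n F x ∧ dnfVal H (List.ofFn x) = true) ≤ 1 / (2 * a) := by
    have h1 : ∀ C ∈ H, PP (fun x : Cube n => ¬ ff n F x ∧ satL (UU n C) x) ≤ τ := by
      intro C hC
      rw [hH, List.mem_filter] at hC
      have hCv := cands_vars hpars hparts R D hD hm F X τ hτ hG C hC.1
      have h2 := hC.2
      rw [negs_all] at h2
      have h3 := hG (UU n C) ∅
      rw [coef_empty] at h3
      have h4 : stat X (ff n F) (UU n C) ∅ = 0 := by
        refine sum_eq_zero fun j _ => ?_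
        unfold wt
        rw [if_neg]
        rintro ⟨hj1, hj2⟩
        have h5 := h2 j hj1
        rw [Bool.not_eq_true', ← Bool.not_eq_true, termVal_iff C hCv] at h5
        exact h5 hj2
      rw [h4, zero_sub, abs_neg] at h3
      have h5 := (le_abs_self _).trans h3
      exact le_of_mul_le_mul_left h5 hm0
    have h2 : PP (fun x : Cube n => ¬ ff n F x ∧ dnfVal H (List.ofFn x) = true) ≤
        PP (fun x : Cube n => ∃ C ∈ H.toFinset, ¬ ff n F x ∧ satL (UU n C) x) := by
      refine PP_mono fun x hx => ?_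
      obtain ⟨hx1, hx2⟩ := hx
      unfold dnfVal at hx2
      rw [List.any_eq_true] at hx2
      obtain ⟨C, hC, hCx⟩ := hx2
      refine ⟨C, List.mem_toFinset.2 hC, hx1, ?_⟩
      have hCv := cands_vars hpars hparts R D hD hm F X τ hτ hG C (by
        rw [hH, List.mem_filter] at hC; exact hC.1)
      exact (termVal_iff C hCv x).1 hCx
    refine h2.trans ((PP_exists_le _ _).trans ?_)
    refine (sum_le_card_nsmul _ _ τ fun C hC => h1 C (List.mem_toFinset.1 hC)).trans ?_
    rw [nsmul_eq_mul]
    refine le_trans (mul_le_mul_of_nonneg_right ?_ hτ0) hτN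
    have h3 := cands_length hpars hparts R D hD hm F X τ hτ hG
    have h4 : H.toFinset.card ≤ H.length := List.toFinset_card_le _
    have h5 : H.length ≤ (cands R n m D (negs (smp F X))).length := by
      rw [hH]; exact List.length_filter_le _ _
    exact_mod_cast h4.trans (h5.trans h3)
  calc PP (fun x : Cube n => dnfVal H (List.ofFn x) ≠ dnfVal F (List.ofFn x))
      ≤ PP (fun x : Cube n => long x ∨ (¬ ff n F x ∧ dnfVal H (List.ofFn x) = true)) := by
        refine PP_mono fun x hx => ?_
        by_cases hfx : ff n F x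
        · left
          by_contra hnl
          refine hx ?_
          rw [hcovx x hfx hnl]
          exact hfx.symm
        · right
          refine ⟨hfx, ?_⟩
          unfold ff at hfx
          rw [Bool.not_eq_true] at hfx
          rw [hfx] at hx
          simpa using hx
    _ ≤ PP long + PP (fun x : Cube n => ¬ ff n F x ∧ dnfVal H (List.ofFn x) = true) :=
        PP_or_le _ _
    _ ≤ 1 / (2 * a) + 1 / (2 * a) := add_le_add hlongP hfp
    _ = 1 / a := by field_simp; norm_num

end Pool.Agent.Helper91K9.DL
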