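import Pool.Agent.H424R2.PPAD.Defs

/-!
# Learning read-`k` DNF formulas from uniform random examples: definitions

Points of the cube are lists of Booleans.  A literal is a pair (variable, sign), a term is a list of
literals, a DNF formula is a list of terms.
-/

namespace Pool.Agent.Helper91K9.DL

open Pool.Agent.NPC

/-- The value of a term (a conjunction of literals) at the point `x`. -/
def termVal (t : List (ℕ × Bool)) (x : List Bool) : Bool :=
  t.all fun l => x.getD l.1 false == l.2

/-- The value of a DNF formula (a disjunction of terms) at the point `x`. -/
def dnfVal (H : List (List (ℕ × Bool))) (x : List Bool) : Bool := H.any fun t => termVal t x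

/-! ### The learning algorithm -/

/-- The product of the signs of the variables in `S` (`true` stands for `+1`). -/
def par (S : List ℕ) (x : List Bool) : Bool := S.foldl (fun c j => c == x.getD j false) true

/-- The number of points of `neg` with term `ρ` satisfied and parity `b` on `S`. -/
def cnt (neg : List (List Bool)) (ρ : List (ℕ × Bool)) (S : List ℕ) (b : Bool) : ℕ :=
  (neg.filter fun x => termVal ρ x && (par S x == b)).length

/-- The test for large empirical coefficients. -/
def heavy (m D : ℕ) (neg : List (List Bool)) (ρ : List (ℕ × Bool)) (S : List ℕ) : Bool :=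
  decide (m ≤ 2 * D * (cnt neg ρ S true - cnt neg ρ S false)) ||
    decide (m ≤ 2 * D * (cnt neg ρ S false - cnt neg ρ S true))

/-- The sign of the empirical coefficient. -/
def pos (neg : List (List Bool)) (ρ : List (ℕ × Bool)) (S : List ℕ) : Bool :=
  decide (cnt neg ρ S false < cnt neg ρ S true)

/-- One step of the growing of the list of large coefficients. -/
def growStep (m D : ℕ) (neg : List (List Bool)) (ρ : List (ℕ × Bool)) (i : ℕ)
    (cur : List (List ℕ)) (j : ℕ) : List (List ℕ) :=
  if j = i then cur else
    if (cur ++ (cur.filter fun S => heavy m D neg ρ (j :: S)).map (j :: ·)).length ≤ m then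
      cur ++ (cur.filter fun S => heavy m D neg ρ (j :: S)).map (j :: ·)
    else cur

/-- The list of the sets containing `i` with large coefficients. -/
def grow (n m D : ℕ) (neg : List (List Bool)) (ρ : List (ℕ × Bool)) (i : ℕ) : List (List ℕ) :=
  (List.range n).foldl (growStep m D neg ρ i) [[i]]

/-- The sign of the variable `j` in the term belonging to `i`. -/
def sgn (neg : List (List Bool)) (ρ : List (ℕ × Bool)) (i j : ℕ) : Bool :=
  if j = i then !(pos neg ρ [i]) else (pos neg ρ [j, i] == pos neg ρ [i])

/-- All literals. -/
def lits (n : ℕ) : List (ℕ × Bool) := (List.range n).flatMap fun j => [(j, true), (j, false)]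

/-- All lists of at most `r` literals. -/
def parts (n : ℕ) : ℕ → List (List (ℕ × Bool))
  | 0 => [[]]
  | r + 1 => parts n r ++ (parts n r).flatMap fun ρ => (lits n).map (· :: ρ)

/-- The candidate terms. -/
def cands (R n m D : ℕ) (neg : List (List Bool)) : List (List (ℕ × Bool)) :=
  parts n R ++ (parts n R).flatMap fun ρ => (List.range n).flatMap fun i =>
    (grow n m D neg ρ i).flatMap fun S =>
      (parts n R).map fun ρ' => ρ' ++ S.map fun j => (j, sgn neg ρ i j)

/-- The threshold. -/
def thr (K n a : ℕ) : ℕ := (n + a + 2) ^ K

/-- The number of variables. -/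
def nvars (s : List (List Bool × Bool)) : ℕ := (s.head?.getD ([], false)).1.length

/-- The negative examples. -/
def negs (s : List (List Bool × Bool)) : List (List Bool) := (s.filter fun e => !e.2).map (·.1)

/-- The learning algorithm: the input is the accuracy parameter `a` and a list of examples. -/
def learn (R K : ℕ) (p : ℕ × List (List Bool × Bool)) : List (List (ℕ × Bool)) :=
  if 4 * p.1 * (negs p.2).length < 3 * p.2.length then [[]] else
    (cands R (nvars p.2) p.2.length (thr K (nvars p.2) p.1) (negs p.2)).filter fun t =>
      (negs p.2).all fun x => !(termVal t x)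

end Pool.Agent.Helper91K9.DL
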