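import Pool.Agent.Helper91K9.DL.Indep
import Pool.Agent.Helper91K9.DL.Defs

/-!
# The algorithm in terms of points of the cube
-/

namespace Pool.Agent.Helper91K9.DL

open Finset

variable {n : ℕ}

/-- The literals of a list. -/
def UU (n : ℕ) (ρ : List (ℕ × Bool)) : Finset (Fin n × Bool) :=
  univ.filter fun l => ((l.1 : ℕ), l.2) ∈ ρ

/-- The variables of a list. -/
def SS (n : ℕ) (S : List ℕ) : Finset (Fin n) := univ.filter fun v => (v : ℕ) ∈ S

theorem mem_UU (ρ : List (ℕ × Bool)) (l : Fin n × Bool) : l ∈ UU n ρ ↔ ((l.1 : ℕ), l.2) ∈ ρ := by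
  simp [UU]

theorem mem_SS (S : List ℕ) (v : Fin n) : v ∈ SS n S ↔ (v : ℕ) ∈ S := by simp [SS]

theorem getD_ofFn (x : Cube n) (v : Fin n) : (List.ofFn x).getD (v : ℕ) false = x v := by
  simp [List.getD]

theorem termVal_iff (t : List (ℕ × Bool)) (ht : ∀ l ∈ t, l.1 < n) (x : Cube n) :
    termVal t (List.ofFn x) = true ↔ satL (UU n t) x := by
  unfold termVal satL
  rw [List.all_eq_true]
  constructor
  · intro h l hl
    have := h _ ((mem_UU t l).1 hl)
    simp only [beq_iff_eq] at this
    rw [← this, getD_ofFn]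
  · intro h l hl
    have := h (⟨l.1, ht l hl⟩, l.2) ((mem_UU t _).2 hl)
    simp only [beq_iff_eq]
    rw [← this]
    exact getD_ofFn x ⟨l.1, ht l hl⟩

/-- The sign of a Boolean. -/
def sg (b : Bool) : ℝ := if b = true then 1 else -1

theorem sg_beq (a b : Bool) : sg (a == b) = sg a * sg b := by
  cases a <;> cases b <;> simp [sg]

theorem sg_inj {a b : Bool} (h : sg a = sg b) : a = b := by
  cases a <;> cases b <;> simp [sg] at h ⊢ <;> norm_num at h

theorem sg_foldl (x : List Bool) (S : List ℕ) (c : Bool) :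
    sg (S.foldl (fun c j => c == x.getD j false) c) =
      sg c * (S.map fun j => sg (x.getD j false)).prod := by
  induction S generalizing c with
  | nil => simp
  | cons j S ih => rw [List.foldl_cons, ih, sg_beq, List.map_cons, List.prod_cons]; ring

theorem par_eq (S : List ℕ) (hS : ∀ v ∈ S, v < n) (hn : S.Nodup) (x : Cube n) :
    sg (par S (List.ofFn x)) = chi (SS n S) x := by
  unfold par
  rw [sg_foldl]
  have h1 : sg true = 1 := by simp [sg]
  rw [h1, one_mul]
  induction S with
  | nil => simp [SS, chi]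
  | cons j S ih =>
    have hj : j < n := hS j (by simp)
    rw [List.nodup_cons] at hn
    have e : SS n (j :: S) = insert ⟨j, hj⟩ (SS n S) := by
      ext v
      simp [mem_SS, Fin.ext_iff]
    have hnot : (⟨j, hj⟩ : Fin n) ∉ SS n S := by rw [mem_SS]; exact hn.1
    rw [List.map_cons, List.prod_cons, ih (fun v hv => hS v (by simp [hv])) hn.2, e]
    unfold chi
    rw [prod_insert hnot]
    congr 1
    have := getD_ofFn x ⟨j, hj⟩
    simp only at this
    rw [this]
    rfl

/-- The sample. -/
def smp {m : ℕ} (F : List (List (ℕ × Bool))) (X : Fin m → Cube n) :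
    List (List Bool × Bool) := List.ofFn fun j => (List.ofFn (X j), dnfVal F (List.ofFn (X j)))

/-- The function computed by a formula. -/
def ff (n : ℕ) (F : List (List (ℕ × Bool))) (x : Cube n) : Prop :=
  dnfVal F (List.ofFn x) = true

instance (F : List (List (ℕ × Bool))) : DecidablePred (ff n F) := fun x =>
  inferInstanceAs (Decidable (dnfVal F (List.ofFn x) = true))

theorem card_filter_fin {m : ℕ} (p : Fin m → Bool) :
    ((List.finRange m).filter p).length = (univ.filter fun j => p j = true).card := by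
  rw [Finset.card, Finset.filter_val]
  have : (univ : Finset (Fin m)).val = (List.finRange m : Multiset (Fin m)) := rfl
  rw [this, Multiset.filter_coe, Multiset.coe_card]
  simp

theorem negs_filter {m : ℕ} (F : List (List (ℕ × Bool))) (X : Fin m → Cube n)
    (p : List Bool → Bool) : ((negs (smp F X)).filter p).length =
      (univ.filter fun j => p (List.ofFn (X j)) = true ∧ ¬ ff n F (X j)).card := by
  have h1 : smp F X = (List.finRange m).map fun j =>
      (List.ofFn (X j), dnfVal F (List.ofFn (X j))) := by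
    unfold smp; rw [List.ofFn_eq_map]
  unfold negs
  rw [h1]
  simp only [List.filter_map, List.length_map, List.filter_filter]
  rw [card_filter_fin]
  congr 1
  ext j
  simp [ff]

theorem negs_all {m : ℕ} (F : List (List (ℕ × Bool))) (X : Fin m → Cube n)
    (p : List Bool → Bool) : ((negs (smp F X)).all p) = true ↔
      ∀ j, ¬ ff n F (X j) → p (List.ofFn (X j)) = true := by
  unfold negs smp
  rw [List.all_eq_true]
  constructor
  · intro h j hj
    refine h _ (List.mem_map.2 ⟨(List.ofFn (X j), dnfVal F (List.ofFn (X j))), ?_, rfl⟩)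
    rw [List.mem_filter]
    refine ⟨?_, by simpa [ff] using hj⟩
    rw [List.mem_ofFn]
    exact ⟨j, rfl⟩
  · intro h x hx
    obtain ⟨e, he, rfl⟩ := List.mem_map.1 hx
    rw [List.mem_filter, List.mem_ofFn] at he
    obtain ⟨⟨j, rfl⟩, h2⟩ := he
    exact h j (by simpa [ff] using h2)

theorem cnt_eq {m : ℕ} (F : List (List (ℕ × Bool))) (X : Fin m → Cube n)
    (ρ : List (ℕ × Bool)) (hρ : ∀ l ∈ ρ, l.1 < n) (S : List ℕ) (hS : ∀ v ∈ S, v < n)
    (hn : S.Nodup) :
    (cnt (negs (smp F X)) ρ S true : ℝ) - cnt (negs (smp F X)) ρ S false =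
      stat X (ff n F) (UU n ρ) (SS n S) := by
  classical
  unfold cnt
  rw [negs_filter, negs_filter, card_filter, card_filter]
  push_cast
  rw [← sum_sub_distrib]
  unfold stat
  refine sum_congr rfl fun j _ => ?_
  have h1 := termVal_iff ρ hρ (X j)
  have h2 := par_eq S hS hn (X j)
  unfold wt
  by_cases hf : ff n F (X j)
  · simp [hf]
  · by_cases hs : satL (UU n ρ) (X j)
    · rw [← h2]
      have h3 := h1.2 hs
      simp only [hf, h3, not_false_eq_true, and_true, Bool.true_and, hs, if_true]
      cases par S (List.ofFn (X j)) <;> simp [sg]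
    · have h3 : termVal ρ (List.ofFn (X j)) = false := by
        rw [← Bool.not_eq_true]; exact fun h => hs (h1.1 h)
      simp [hf, hs, h3]

/-- The empirical coefficient belonging to lists. -/
noncomputable def st {m : ℕ} (F : List (List (ℕ × Bool))) (X : Fin m → Cube n)
    (ρ : List (ℕ × Bool)) (S : List ℕ) : ℝ := stat X (ff n F) (UU n ρ) (SS n S)

theorem heavy_iff {m : ℕ} (hm : 1 ≤ m) (D : ℕ) (F : List (List (ℕ × Bool))) (X : Fin m → Cube n)
    (ρ : List (ℕ × Bool)) (hρ : ∀ l ∈ ρ, l.1 < n) (S : List ℕ) (hS : ∀ v ∈ S, v < n)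
    (hn : S.Nodup) :
    heavy m D (negs (smp F X)) ρ S = true ↔ (m : ℝ) ≤ 2 * D * |st F X ρ S| := by
  unfold st
  rw [← cnt_eq F X ρ hρ S hS hn]
  unfold heavy
  generalize cnt (negs (smp F X)) ρ S true = p
  generalize cnt (negs (smp F X)) ρ S false = q
  rw [Bool.or_eq_true, decide_eq_true_iff, decide_eq_true_iff]
  rcases le_total q p with h | h
  · have e : |(p : ℝ) - q| = ((p - q : ℕ) : ℝ) := by
      rw [Nat.cast_sub h, abs_of_nonneg]; rw [sub_nonneg]; exact_mod_cast h
    rw [e, Nat.sub_eq_zero_of_le h]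
    have : ¬ m ≤ 2 * D * 0 := by omega
    constructor
    · rintro (h1 | h1)
      · exact_mod_cast h1
      · exact absurd h1 this
    · intro h1
      left
      exact_mod_cast h1
  · have e : |(p : ℝ) - q| = ((q - p : ℕ) : ℝ) := by
      rw [Nat.cast_sub h, abs_sub_comm, abs_of_nonneg]; rw [sub_nonneg]; exact_mod_cast h
    rw [e, Nat.sub_eq_zero_of_le h]
    have : ¬ m ≤ 2 * D * 0 := by omega
    constructor
    · rintro (h1 | h1)
      · exact absurd h1 this
      · exact_mod_cast h1
    · intro h1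
      right
      exact_mod_cast h1

theorem pos_iff {m : ℕ} (F : List (List (ℕ × Bool))) (X : Fin m → Cube n)
    (ρ : List (ℕ × Bool)) (hρ : ∀ l ∈ ρ, l.1 < n) (S : List ℕ) (hS : ∀ v ∈ S, v < n)
    (hn : S.Nodup) : pos (negs (smp F X)) ρ S = true ↔ 0 < st F X ρ S := by
  unfold st
  rw [← cnt_eq F X ρ hρ S hS hn]
  unfold pos
  rw [decide_eq_true_iff, sub_pos]
  exact_mod_cast Iff.rfl

end Pool.Agent.Helper91K9.DL
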