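import Pool.Agent.Helper91K9.DL.Defs2
import Pool.Agent.Helper91K9.DL.Link

/-!
# Statements of the leaves, second algorithm
-/

namespace Pool.Agent.Helper91K9.DL

open Finset Pool.Agent.NPC

/-- Leaf POLY2. -/
def S_POLY2 : Prop := ∀ k r K : ℕ, Poly (learn2 k r K)

/-- Leaf NARROW2. -/
def S_NARROW2 : Prop := ∀ (k W a n : ℕ) (ι : Type) (I : Finset ι)
  (T : ι → Finset (Fin n)) (b : ι → Cube n), 1 ≤ a →
  (∀ v, (open Classical in (I.filter fun i => v ∈ T i)).card ≤ k) →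
  1 / (2 * (a : ℝ)) ≤ PP (fun x => ∀ i ∈ I, ¬ agr (T i) (b i) x) →
  2 ^ (open Classical in (I.filter fun i => (T i).card < W)).card ≤ (2 * a) ^ (k * W * 2 ^ W)

/-- The literals of `x` on the list `V` of variables. -/
def asg {n : ℕ} (V : List (Fin n)) (x : Cube n) : List (ℕ × Bool) :=
  V.map fun v : Fin n => ((v : ℕ), x v)

/-- The list `As` is the list of all assignments of the variables in the list `V`. -/
def Rep {n : ℕ} (As : List (List (ℕ × Bool))) (V : List (Fin n)) : Prop :=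
  V.Nodup ∧ (∀ a ∈ As, ∃ x : Cube n, a = asg V x) ∧
    (∀ x : Cube n, asg V x ∈ As) ∧ As.length = 2 ^ V.length

/-- Leaf LOOP. -/
def S_LOOP : Prop := ∀ (n m r : ℕ) (neg : List (List Bool)) (Vs : Finset (Fin n)),
  2 ^ Vs.card ≤ m →
  (∀ (V : List (Fin n)) (As : List (List (ℕ × Bool))), Rep As V → (∀ v ∈ V, v ∈ Vs) →
    ∀ v : Fin n, crit n r neg As v = true → v ∈ Vs) →
  ∃ V : List (Fin n), Rep (find n m r neg) V ∧ (∀ v ∈ V, v ∈ Vs) ∧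
    ∀ v : Fin n, crit n r neg (find n m r neg) v = false

/-- Leaf CRIT. -/
def S_CRIT : Prop := ∀ (n m k c r : ℕ) (F : List (List (ℕ × Bool))) (ι : Type) (I : Finset ι)
  (T : ι → Finset (Fin n)) (b : ι → Cube n) (ε τ : ℝ) (Vs : Finset (Fin n)) (X : Fin m → Cube n)
  (V : List (Fin n)) (As : List (List (ℕ × Bool))) (v : Fin n),
  1 ≤ k → (8 * (k : ℝ)) ≤ (7 / 4) ^ c → (∀ x, ff n F x ↔ ∃ i ∈ I, agr (T i) (b i) x) →
  (∀ v, (open Classical in (I.filter fun i => v ∈ T i)).card ≤ k) →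
  0 < ε → ε ≤ PP (fun x => ∀ i ∈ I, ¬ agr (T i) (b i) x) →
  (∀ i ∈ I, T i ⊆ Vs ∨ c + r + 1 ≤ (T i \ Vs).card) →
  0 < m → τ < ε / 4 ^ (Vs.card + r + 1) → Good X (ff n F) τ →
  Rep As V → (∀ w ∈ V, w ∈ Vs) → crit n r (negs (smp F X)) As v = true → v ∈ Vs

/-- Leaf STAB. -/
def S_STAB : Prop := ∀ (n m r : ℕ) (F : List (List (ℕ × Bool))) (ι : Type) (I : Finset ι)
  (T : ι → Finset (Fin n)) (b : ι → Cube n) (X : Fin m → Cube n)
  (V : List (Fin n)) (As : List (List (ℕ × Bool))) (x : Cube n),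
  (∀ x, ff n F x ↔ ∃ i ∈ I, agr (T i) (b i) x) →
  Rep As V → (∀ v : Fin n, crit n r (negs (smp F X)) As v = false) →
  imp (negs (smp F X)) (asg V x) = false →
  ∀ i ∈ I, (∀ v ∈ T i, v ∈ V → x v = b i v) → r < (T i \ V.toFinset).card

open Classical in
/-- Leaf COVER2. -/
def S_COVER2 : Prop := ∀ (n : ℕ) (ι : Type) (I : Finset ι) (T : ι → Finset (Fin n))
  (a : ι → Cube n) (k c L : ℕ) (ε : ℝ) (V : Finset (Fin n)),
  1 ≤ k → 1 ≤ c → (8 * (k : ℝ)) ≤ (7 / 4) ^ c →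
  (∀ v, (I.filter fun i => v ∈ T i).card ≤ k) → 0 < ε →
  ε ≤ PP (fun x => ∀ i ∈ I, ¬ agr (T i) (a i) x) →
  ∀ x : Cube n, (∀ i ∈ I, (∀ v ∈ T i, v ∈ V → x v = a i v) → 2 * k * c ≤ (T i \ V).card) →
  (∃ i ∈ I, agr (T i) (a i) x) → (∀ i ∈ I, agr (T i) (a i) x → (T i).card ≤ L) →
  ∃ (Ts : Finset (Fin n)) (u : Fin n) (C : Finset (Fin n × Bool)) (μ : ℝ),
    C.card ≤ k ∧ u ∈ Ts ∧ (∀ y, agr (V ∪ Ts) x y → ∃ i ∈ I, agr (T i) (a i) y) ∧
    ε / (4 ^ V.card * 16 ^ L * (n : ℝ) ^ k) ≤ μ ∧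
    ∀ S : Finset (Fin n), u ∈ S → S ⊆ Ts →
      coef (fun y => ∃ i ∈ I, agr (T i) (a i) y) (C ∪ V.image fun v => (v, x v)) S =
        - chi S x * μ

end Pool.Agent.Helper91K9.DL
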