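import Pool.Agent.Helper91K9.DL.Correct
import Pool.Agent.Helper91K9.DL.Leaves2

/-!
# Correctness of the second algorithm for a good sample
-/

namespace Pool.Agent.Helper91K9.DL

open Finset

variable {n m : ℕ}

theorem asg_vars (V : List (Fin n)) (x : Cube n) : ∀ l ∈ asg V x, l.1 < n := by
  intro l hl
  obtain ⟨v, _, rfl⟩ := List.mem_map.1 hl
  exact v.2

theorem mem_UU_asg (V : List (Fin n)) (x : Cube n) (l : Fin n × Bool) :
    l ∈ UU n (asg V x) ↔ l.1 ∈ V ∧ l.2 = x l.1 := by
  rw [mem_UU]
  unfold asg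
  rw [List.mem_map]
  constructor
  · rintro ⟨v, hv, h⟩
    rw [Prod.mk.injEq] at h
    have : v = l.1 := Fin.ext h.1
    subst this
    exact ⟨hv, h.2.symm⟩
  · rintro ⟨h1, h2⟩
    exact ⟨l.1, h1, by rw [h2]⟩

theorem satL_asg (V : List (Fin n)) (x y : Cube n) :
    satL (UU n (asg V x)) y ↔ agr V.toFinset x y := by
  unfold satL agr
  constructor
  · intro h v hv
    exact h (v, x v) ((mem_UU_asg V x _).2 ⟨List.mem_toFinset.1 hv, rfl⟩)
  · intro h l hl
    obtain ⟨h1, h2⟩ := (mem_UU_asg V x l).1 hl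
    rw [h2]
    exact h l.1 (List.mem_toFinset.2 h1)

theorem UU_append (ρ σ : List (ℕ × Bool)) : UU n (ρ ++ σ) = UU n ρ ∪ UU n σ := by
  ext l
  rw [mem_union, mem_UU, mem_UU, mem_UU, List.mem_append]

/-- The bound for the number of candidates. -/
def NC2 (N k n D : ℕ) : ℕ := N * (1 + (2 * n + 1) ^ k * (n * (16 * D ^ 2 + 1)))

theorem cands2_length (hpars : S_PARS) (hparts : S_PARTS) (N k D : ℕ) (hD : 1 ≤ D)
    (hm : 16 * D ^ 2 + 1 ≤ m) (F : List (List (ℕ × Bool))) (X : Fin m → Cube n) (τ : ℝ)
    (hτ : τ ≤ 1 / (4 * D)) (hG : Good X (ff n F) τ) (As : List (List (ℕ × Bool)))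
    (hAs : ∀ a ∈ As, ∀ l ∈ a, l.1 < n) (hN : As.length ≤ N) :
    (cands2 k n m D (negs (smp F X)) As).length ≤ NC2 N k n D := by
  unfold cands2 NC2
  obtain ⟨hp1, hp2, hp3⟩ := hparts n k
  rw [List.length_append, mul_add, mul_one]
  refine Nat.add_le_add hN ?_
  rw [← hp3]
  refine (length_flatMap_le _ _ ((parts n k).length * (n * (16 * D ^ 2 + 1)))
    fun a ha => ?_).trans (Nat.mul_le_mul_right _ hN)
  refine length_flatMap_le _ _ _ fun β hβ => ?_
  refine (length_flatMap_le _ _ (16 * D ^ 2 + 1) fun i hi => ?_).trans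
    (by rw [List.length_range])
  have hi' : i < n := List.mem_range.1 hi
  have hv : ∀ l ∈ a ++ β, l.1 < n := fun l hl => by
    rcases List.mem_append.1 hl with h | h
    · exact hAs a ha l h
    · exact hp1 β hβ l h
  rw [List.length_map]
  have h1 := grow_ok hpars D hD hm F X τ hτ hG (a ++ β) hv ⟨i, hi'⟩ n le_rfl
  exact Ok.length hpars (by omega) D hD F X τ hτ hG (a ++ β) hv ⟨i, hi'⟩ _ n le_rfl h1

theorem cands2_vars (hpars : S_PARS) (hparts : S_PARTS) (k D : ℕ) (hD : 1 ≤ D)
    (hm : 16 * D ^ 2 + 1 ≤ m) (F : List (List (ℕ × Bool))) (X : Fin m → Cube n) (τ : ℝ)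
    (hτ : τ ≤ 1 / (4 * D)) (hG : Good X (ff n F) τ) (As : List (List (ℕ × Bool)))
    (hAs : ∀ a ∈ As, ∀ l ∈ a, l.1 < n) (C : List (ℕ × Bool))
    (hC : C ∈ cands2 k n m D (negs (smp F X)) As) : ∀ l ∈ C, l.1 < n := by
  obtain ⟨hp1, hp2, hp3⟩ := hparts n k
  unfold cands2 at hC
  rw [List.mem_append] at hC
  rcases hC with hC | hC
  · exact hAs C hC
  · obtain ⟨a, ha, hC⟩ := List.mem_flatMap.1 hC
    obtain ⟨β, hβ, hC⟩ := List.mem_flatMap.1 hC
    obtain ⟨i, hi, hC⟩ := List.mem_flatMap.1 hC
    obtain ⟨S, hS, rfl⟩ := List.mem_map.1 hC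
    have hi' : i < n := List.mem_range.1 hi
    have hv : ∀ l ∈ a ++ β, l.1 < n := fun l hl => by
      rcases List.mem_append.1 hl with h | h
      · exact hAs a ha l h
      · exact hp1 β hβ l h
    have h1 := grow_ok hpars D hD hm F X τ hτ hG (a ++ β) hv ⟨i, hi'⟩ n le_rfl
    obtain ⟨-, -, h2, -⟩ := h1.1 S hS
    intro l hl
    rcases List.mem_append.1 hl with hl | hl
    · exact hAs a ha l hl
    · obtain ⟨j, hj, rfl⟩ := List.mem_map.1 hl
      rcases h2 j hj with h | h
      · exact h
      · simp only at h ⊢; rw [h]; exact hi'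

theorem correct2 (hpars : S_PARS) (hcov : S_COVER2) (hstab : S_STAB) (hparts : S_PARTS)
    (k c r a L D N : ℕ) (hk : 1 ≤ k) (hc : 1 ≤ c) (h8 : (8 * (k : ℝ)) ≤ (7 / 4) ^ c)
    (hr : 2 * k * c ≤ r + 1)
    (ha : 1 ≤ a) (hD : 1 ≤ D) (F : List (List (ℕ × Bool)))
    {ι : Type} (I : Finset ι) (T : ι → Finset (Fin n)) (b : ι → Cube n)
    (hf : ∀ x, ff n F x ↔ ∃ i ∈ I, agr (T i) (b i) x)
    (hread' : ∀ v, (open Classical in (I.filter fun i => v ∈ T i)).card ≤ k)
    (hL : k * n * a ≤ 2 ^ L)
    (hDb : 0 < n → 1 / (D : ℝ) ≤ 1 / (2 * (a : ℝ)) / ((N : ℝ) ^ 2 * 16 ^ L * (n : ℝ) ^ k))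
    (hm : 16 * D ^ 2 + 1 ≤ m) (X : Fin m → Cube n) (τ : ℝ) (hτ : τ ≤ 1 / (4 * D))
    (hτa : τ ≤ 1 / (4 * a)) (hτ0 : 0 ≤ τ)
    (hτN : NC2 N k n D * τ ≤ 1 / (2 * a))
    (hG : Good X (ff n F) τ) (K : ℕ) (hK : thr K n a = D)
    (hfind : 1 / (2 * (a : ℝ)) ≤ PP (fun x => ∀ i ∈ I, ¬ agr (T i) (b i) x) →
      ∃ V : List (Fin n), Rep (find n m r (negs (smp F X))) V ∧ 2 ^ V.length ≤ N ∧
        ∀ v : Fin n, crit n r (negs (smp F X)) (find n m r (negs (smp F X))) v = false) :
    PP (fun x : Cube n => dnfVal (learn2 k r K (a, smp F X)) (List.ofFn x) ≠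
      dnfVal F (List.ofFn x)) ≤ 1 / a := by
  classical
  have hm0 : (0 : ℝ) < m := by exact_mod_cast (by omega : 0 < m)
  have ha0 : (0 : ℝ) < a := by exact_mod_cast ha
  have hnv : nvars (smp F X) = n := by
    unfold nvars smp
    obtain ⟨m', rfl⟩ : ∃ m', m = m' + 1 := ⟨m - 1, by omega⟩
    simp
  have hlen : (smp F X).length = m := by unfold smp; simp
  -- the number of negative examples
  have hneg : |((negs (smp F X)).length : ℝ) - m * PP (fun x : Cube n => ¬ ff n F x)| ≤ m * τ := by
    have h1 := hG ∅ ∅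
    rw [coef_empty, stat_empty] at h1
    have h2 := negs_filter F X (fun _ => true)
    rw [List.filter_true] at h2
    rw [h2]
    convert h1 using 4
    · congr 1
      ext j
      simp [satL]
    · refine PP_congr fun x => ?_
      simp [satL]
  rw [abs_le] at hneg
  unfold learn2
  simp only [hnv, hlen, hK]
  by_cases htest : 4 * a * (negs (smp F X)).length < 3 * m
  · rw [if_pos htest]
    have h1 : PP (fun x : Cube n => dnfVal [[]] (List.ofFn x) ≠ dnfVal F (List.ofFn x)) =
        PP (fun x : Cube n => ¬ ff n F x) := by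
      refine PP_congr fun x => ?_
      simp [dnfVal, termVal, ff]
    rw [h1]
    have h2 : (4 : ℝ) * a * (negs (smp F X)).length < 3 * m := by exact_mod_cast htest
    have h3 : ((negs (smp F X)).length : ℝ) ≤ m * (3 / (4 * a)) := by
      rw [← mul_div_assoc, le_div_iff₀ (by positivity)]
      nlinarith
    have h4 : (m : ℝ) * PP (fun x : Cube n => ¬ ff n F x) ≤ m * (1 / a) := by
      have h5 : (m : ℝ) * τ ≤ m * (1 / (4 * a)) := mul_le_mul_of_nonneg_left hτa hm0.le
      have h6 : (m : ℝ) * (1 / a) = m * (3 / (4 * a)) + m * (1 / (4 * a)) := by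
        field_simp; norm_num
      linarith [hneg.1]
    exact le_of_mul_le_mul_left h4 hm0
  rw [if_neg htest]
  have hp0 : 1 / (2 * (a : ℝ)) ≤ PP (fun x : Cube n => ¬ ff n F x) := by
    have h2 : (3 : ℝ) * m ≤ 4 * a * (negs (smp F X)).length := by
      exact_mod_cast not_lt.1 htest
    have h3 : (m : ℝ) * (3 / (4 * a)) ≤ (negs (smp F X)).length := by
      rw [← mul_div_assoc, div_le_iff₀ (by positivity)]
      nlinarith
    have h4 : (m : ℝ) * (1 / (2 * a)) ≤ m * PP (fun x : Cube n => ¬ ff n F x) := by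
      have h5 : (m : ℝ) * τ ≤ m * (1 / (4 * a)) := mul_le_mul_of_nonneg_left hτa hm0.le
      have h6 : (m : ℝ) * (3 / (4 * a)) = m * (1 / (2 * a)) + m * (1 / (4 * a)) := by
        field_simp; norm_num
      linarith [hneg.2]
    exact le_of_mul_le_mul_left h4 hm0
  have hp1 : 1 / (2 * (a : ℝ)) ≤ PP (fun x => ∀ i ∈ I, ¬ agr (T i) (b i) x) := by
    refine hp0.trans (le_of_eq (PP_congr fun x => ?_))
    rw [hf x]; push Not; rfl
  obtain ⟨V, hRep, hVN, hstable⟩ := hfind hp1
  obtain ⟨hq1, hq2, hq3⟩ := hparts n k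
  set As := find n m r (negs (smp F X)) with hAs
  have hAsv : ∀ a ∈ As, ∀ l ∈ a, l.1 < n := fun a ha => by
    obtain ⟨y, rfl⟩ := hRep.2.1 a ha
    exact asg_vars V y
  set H := (cands2 k n m D (negs (smp F X)) As).filter fun t =>
      imp (negs (smp F X)) t with hH
  -- the long terms
  set long : Cube n → Prop := fun x => ∃ i ∈ I.filter (fun i => L < (T i).card),
    agr (T i) (b i) x with hlong
  have hlongP : PP long ≤ 1 / (2 * a) := by
    refine (PP_exists_le _ _).trans ?_
    have h1 : ∀ i ∈ I.filter (fun i => L < (T i).card), PP (agr (T i) (b i)) ≤ (1 / 2) ^ (L + 1) :=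
      fun i hi => by
        rw [PP_agr]
        exact pow_le_pow_of_le_one (by norm_num) (by norm_num) (mem_filter.1 hi).2
    refine (sum_le_card_nsmul _ _ _ h1).trans ?_
    have h2 : (I.filter (fun i => L < (T i).card)).card ≤ k * n := by
      calc (I.filter (fun i => L < (T i).card)).card
          ≤ ((univ : Finset (Fin n)).biUnion fun v => I.filter fun i => v ∈ T i).card := by
            refine card_le_card fun i hi => ?_
            have hi' := mem_filter.1 hi
            obtain ⟨v, hv⟩ : (T i).Nonempty := card_pos.1 (by omega)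
            rw [mem_biUnion]
            exact ⟨v, mem_univ _, mem_filter.2 ⟨hi'.1, hv⟩⟩
        _ ≤ ∑ v : Fin n, (I.filter fun i => v ∈ T i).card := card_biUnion_le
        _ ≤ ∑ _v : Fin n, k := sum_le_sum fun v _ => hread' v
        _ = k * n := by rw [sum_const, card_univ, Fintype.card_fin, smul_eq_mul, mul_comm]
    rw [nsmul_eq_mul]
    have h3 : ((k * n * a : ℕ) : ℝ) ≤ 2 ^ L := by exact_mod_cast hL
    push_cast at h3
    calc ((I.filter (fun i => L < (T i).card)).card : ℝ) * (1 / 2) ^ (L + 1)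
        ≤ ((k * n : ℕ) : ℝ) * (1 / 2) ^ (L + 1) := by
          refine mul_le_mul_of_nonneg_right ?_ (by positivity)
          exact_mod_cast h2
      _ ≤ 1 / (2 * a) := by
          push_cast
          rw [one_div, inv_pow, pow_succ, ← div_eq_mul_inv, div_le_div_iff₀ (by positivity)
            (by positivity)]
          nlinarith
  -- the points which are covered
  have hcovx : ∀ x, ff n F x → ¬ long x → dnfVal H (List.ofFn x) = true := by
    intro x hx hnl
    have hkeep : ∀ C ∈ cands2 k n m D (negs (smp F X)) As, (∀ l ∈ C, l.1 < n) →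
        satL (UU n C) x → imp (negs (smp F X)) C = true →
        dnfVal H (List.ofFn x) = true := by
      intro C hC hCv hCx hCf
      unfold dnfVal
      rw [List.any_eq_true]
      refine ⟨C, ?_, (termVal_iff C hCv x).2 hCx⟩
      rw [hH, List.mem_filter]
      exact ⟨hC, hCf⟩
    by_cases himp : imp (negs (smp F X)) (asg V x) = true
    · refine hkeep (asg V x) ?_ (asg_vars V x) ((satL_asg V x x).2 fun _ _ => rfl) himp
      unfold cands2
      rw [List.mem_append]
      exact Or.inl (hRep.2.2.1 x)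
    · rw [Bool.not_eq_true] at himp
      obtain ⟨Ts, u, Cu, μ, hCu, hu, hAf, hμ, hco⟩ := hcov n ι I T b k c L (1 / (2 * (a : ℝ)))
        V.toFinset hk hc h8 hread' (by positivity) hp1 x (fun i hi hal => by
          have := hstab n m r F ι I T b X V As x hf hRep hstable himp i hi
            (fun v hv hvV => hal v hv (List.mem_toFinset.2 hvV))
          omega) ((hf x).1 hx) (fun i hi hix => by
        by_contra hcon
        exact hnl ⟨i, mem_filter.2 ⟨hi, not_le.1 hcon⟩, hix⟩)
      obtain ⟨β, hβl, hβv, hβU⟩ := exists_list Cu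
      set ρ := asg V x ++ β with hρ
      have hρv : ∀ l ∈ ρ, l.1 < n := fun l hl => by
        rcases List.mem_append.1 hl with h | h
        · exact asg_vars V x l h
        · exact hβv l h
      have hρU : UU n ρ = Cu ∪ V.toFinset.image fun v => (v, x v) := by
        rw [hρ, UU_append, hβU, union_comm]
        congr 1
        ext l
        rw [mem_UU_asg, mem_image]
        constructor
        · rintro ⟨h1, h2⟩
          exact ⟨l.1, List.mem_toFinset.2 h1, by rw [← h2]⟩
        · rintro ⟨v, hv, rfl⟩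
          exact ⟨List.mem_toFinset.1 hv, rfl⟩
      have hμ' : 1 / (D : ℝ) ≤ μ := by
        refine (hDb (Fin.pos u)).trans (le_trans ?_ hμ)
        have hn0 : (0 : ℝ) < n := by exact_mod_cast Fin.pos u
        have h1 : (4 : ℝ) ^ V.toFinset.card ≤ (N : ℝ) ^ 2 := by
          have h2 : ((2 ^ V.length : ℕ) : ℝ) ≤ N := by exact_mod_cast hVN
          push_cast at h2
          rw [List.toFinset_card_of_nodup hRep.1]
          calc (4 : ℝ) ^ V.length = (2 ^ V.length) ^ 2 := by
                rw [← pow_mul, mul_comm, pow_mul]; norm_num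
            _ ≤ (N : ℝ) ^ 2 := pow_le_pow_left₀ (by positivity) h2 2
        refine div_le_div_of_nonneg_left (by positivity) (by positivity) ?_
        gcongr
      have hfeq : (fun y => ∃ i ∈ I, agr (T i) (b i) y) = ff n F := by
        funext y; rw [eq_iff_iff, hf y]
      rw [hfeq] at hco
      have hco' : ∀ S : Finset (Fin n), u ∈ S → S ⊆ Ts →
          coef (ff n F) (UU n ρ) S = - chi S x * μ := fun S h1 h2 => by
        rw [hρU]; exact hco S h1 h2
      have hheavy : ∀ S : List ℕ, S.Nodup → (∀ v ∈ S, v < n) → (u : ℕ) ∈ S → SS n S ⊆ Ts →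
          heavy m D (negs (smp F X)) ρ S = true := by
        intro S hn hv hus hST
        refine heavy_of_coef (by omega) D hD F X τ hτ hG ρ hρv S hv hn ?_
        rw [hco' _ ((mem_SS _ _).2 hus) hST, abs_mul, abs_neg]
        have : |chi (SS n S) x| = 1 := by
          unfold chi
          rw [abs_prod]
          refine prod_eq_one fun v _ => ?_
          split_ifs <;> simp
        rw [this, one_mul]
        exact hμ'.trans (le_abs_self _)
      obtain ⟨S, hS, hSn, huS, hSv, hSS⟩ := grow_mem hpars D hD hm F X τ hτ hG ρ hρv u Ts hheavy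
        hu n le_rfl
      have hSTs : ∀ v : Fin n, (v : ℕ) ∈ S ↔ v ∈ Ts := fun v => by
        rw [← mem_SS, hSS v]
        constructor
        · rintro (h | h)
          · rw [h]; exact hu
          · exact h.1
        · intro h; exact Or.inr ⟨h, v.2⟩
      set C := asg V x ++ S.map fun j => (j, sgn (negs (smp F X)) ρ u j) with hC
      have hCv : ∀ l ∈ C, l.1 < n := by
        intro l hl
        rw [hC, List.mem_append] at hl
        rcases hl with hl | hl
        · exact asg_vars V x l hl
        · obtain ⟨j, hj, rfl⟩ := List.mem_map.1 hl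
          exact hSv j hj
      have hCs : ∀ y, satL (UU n C) y ↔ agr (V.toFinset ∪ Ts) x y := by
        intro y
        unfold satL agr
        constructor
        · intro h v hv
          rcases mem_union.1 hv with hv | hv
          · exact h (v, x v) ((mem_UU _ _).2 (List.mem_append.2 (Or.inl
              ((mem_UU _ _).1 ((mem_UU_asg V x _).2 ⟨List.mem_toFinset.1 hv, rfl⟩)))))
          · refine h (v, x v) ((mem_UU _ _).2 (List.mem_append.2 (Or.inr ?_)))
            rw [List.mem_map]
            refine ⟨v, (hSTs v).2 hv, ?_⟩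
            rw [sgn_eq (by omega) D hD F X τ hτ hG ρ hρv u Ts hu x μ hμ' hco' v hv]
        · intro h l hl
          rcases List.mem_append.1 ((mem_UU _ _).1 hl) with hl | hl
          · obtain ⟨h1, h2⟩ := (mem_UU_asg V x l).1 ((mem_UU _ _).2 hl)
            rw [h2]
            exact h _ (mem_union_left _ (List.mem_toFinset.2 h1))
          · obtain ⟨j, hj, hjl⟩ := List.mem_map.1 hl
            rw [Prod.mk.injEq] at hjl
            have hlT : l.1 ∈ Ts := (hSTs l.1).1 (by rw [← hjl.1]; exact hj)
            rw [← hjl.2, hjl.1, sgn_eq (by omega) D hD F X τ hτ hG ρ hρv u Ts hu x μ hμ' hco'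
              l.1 hlT]
            exact h _ (mem_union_right _ hlT)
      refine hkeep C ?_ hCv ((hCs x).2 fun _ _ => rfl) ?_
      · unfold cands2
        rw [List.mem_append]
        right
        rw [List.mem_flatMap]
        refine ⟨asg V x, hRep.2.2.1 x, ?_⟩
        rw [List.mem_flatMap]
        refine ⟨β, hq2 β (by omega) hβv, ?_⟩
        rw [List.mem_flatMap]
        refine ⟨u, List.mem_range.2 u.2, ?_⟩
        rw [List.mem_map]
        exact ⟨S, hS, rfl⟩
      · unfold imp
        rw [negs_all]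
        intro j hj
        rw [Bool.not_eq_true', ← Bool.not_eq_true, termVal_iff C hCv]
        exact fun h => hj ((hf _).2 (hAf _ ((hCs _).1 h)))
  -- the false positives
  have hfp : PP (fun x : Cube n => ¬ ff n F x ∧ dnfVal H (List.ofFn x) = true) ≤ 1 / (2 * a) := by
    have h1 : ∀ C ∈ H, PP (fun x : Cube n => ¬ ff n F x ∧ satL (UU n C) x) ≤ τ := by
      intro C hC
      rw [hH, List.mem_filter] at hC
      have hCv := cands2_vars hpars hparts k D hD hm F X τ hτ hG As hAsv C hC.1
      have h2 := hC.2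
      unfold imp at h2
      rw [negs_all] at h2
      have h3 := hG (UU n C) ∅
      rw [coef_empty] at h3
      have h4 : stat X (ff n F) (UU n C) ∅ = 0 := by
        refine sum_eq_zero fun j _ => ?_
        unfold wt
        rw [if_neg]
        rintro ⟨hj1, hj2⟩
        have h5 := h2 j hj1
        rw [Bool.not_eq_true', ← Bool.not_eq_true, termVal_iff C hCv] at h5
        exact h5 hj2
      rw [h4, zero_sub, abs_neg] at h3
      have h5 := (le_abs_self _).trans h3
      exact le_of_mul_le_mul_left h5 hm0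
    have h2 : PP (fun x : Cube n => ¬ ff n F x ∧ dnfVal H (List.ofFn x) = true) ≤
        PP (fun x : Cube n => ∃ C ∈ H.toFinset, ¬ ff n F x ∧ satL (UU n C) x) := by
      refine PP_mono fun x hx => ?_
      obtain ⟨hx1, hx2⟩ := hx
      unfold dnfVal at hx2
      rw [List.any_eq_true] at hx2
      obtain ⟨C, hC, hCx⟩ := hx2
      refine ⟨C, List.mem_toFinset.2 hC, hx1, ?_⟩
      have hCv := cands2_vars hpars hparts k D hD hm F X τ hτ hG As hAsv C (by
        rw [hH, List.mem_filter] at hC; exact hC.1)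
      exact (termVal_iff C hCv x).1 hCx
    refine h2.trans ((PP_exists_le _ _).trans ?_)
    refine (sum_le_card_nsmul _ _ τ fun C hC => h1 C (List.mem_toFinset.1 hC)).trans ?_
    rw [nsmul_eq_mul]
    refine le_trans (mul_le_mul_of_nonneg_right ?_ hτ0) hτN
    have h3 := cands2_length hpars hparts N k D hD hm F X τ hτ hG As hAsv
      (by rw [hRep.2.2.2]; exact hVN)
    have h4 : H.toFinset.card ≤ H.length := List.toFinset_card_le _
    have h5 : H.length ≤ (cands2 k n m D (negs (smp F X)) As).length := by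
      rw [hH]; exact List.length_filter_le _ _
    exact_mod_cast h4.trans (h5.trans h3)
  calc PP (fun x : Cube n => dnfVal H (List.ofFn x) ≠ dnfVal F (List.ofFn x))
      ≤ PP (fun x : Cube n => long x ∨ (¬ ff n F x ∧ dnfVal H (List.ofFn x) = true)) := by
        refine PP_mono fun x hx => ?_
        by_cases hfx : ff n F x
        · left
          by_contra hnl
          refine hx ?_
          rw [hcovx x hfx hnl]
          exact hfx.symm
        · right
          refine ⟨hfx, ?_⟩
          unfold ff at hfx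
          rw [Bool.not_eq_true] at hfx
          rw [hfx] at hx
          simpa using hx
    _ ≤ PP long + PP (fun x : Cube n => ¬ ff n F x ∧ dnfVal H (List.ofFn x) = true) :=
        PP_or_le _ _
    _ ≤ 1 / (2 * a) + 1 / (2 * a) := add_le_add hlongP hfp
    _ = 1 / a := by field_simp; norm_num

end Pool.Agent.Helper91K9.DL
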