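import Mathlib

/-!
# The cube, subcubes, Fourier coefficients, samples
-/

namespace Pool.Agent.Helper91K9.DL

open Finset

variable {n : ℕ}

/-- The points of the cube. -/
abbrev Cube (n : ℕ) := Fin n → Bool

/-- `x` agrees with `b` on `S`. -/
def agr (S : Finset (Fin n)) (b x : Cube n) : Prop := ∀ v ∈ S, x v = b v

/-- The probability of `p` for a uniform point. -/
noncomputable def PP (p : Cube n → Prop) : ℝ := by
  classical exact ((univ.filter p).card : ℝ) / 2 ^ n

/-- The character of `S`. -/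
def chi (S : Finset (Fin n)) (x : Cube n) : ℝ := ∏ v ∈ S, if x v = true then 1 else -1

/-- The literals of `U` are satisfied at `x`. -/
def satL (U : Finset (Fin n × Bool)) (x : Cube n) : Prop := ∀ l ∈ U, x l.1 = l.2

/-- The term of the sums below. -/
noncomputable def wt (f : Cube n → Prop) (U : Finset (Fin n × Bool)) (S : Finset (Fin n))
    (x : Cube n) : ℝ := by
  classical exact if ¬ f x ∧ satL U x then chi S x else 0

/-- Fourier coefficients of the function `1` at the points with `¬ f` and `satL U`, `0` else. -/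
noncomputable def coef (f : Cube n → Prop) (U : Finset (Fin n × Bool)) (S : Finset (Fin n)) : ℝ :=
  (∑ x, wt f U S x) / 2 ^ n

/-- Empirical coefficients, not normalised. -/
noncomputable def stat {m : ℕ} (X : Fin m → Cube n) (f : Cube n → Prop)
    (U : Finset (Fin n × Bool)) (S : Finset (Fin n)) : ℝ := ∑ j, wt f U S (X j)

/-- A good sample: all empirical coefficients are close to the coefficients. -/
def Good {m : ℕ} (X : Fin m → Cube n) (f : Cube n → Prop) (τ : ℝ) : Prop :=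
  ∀ U S, |stat X f U S - m * coef f U S| ≤ m * τ

/-- Leaf PARS: Parseval. -/
def S_PARS : Prop := ∀ (n : ℕ) (f : Cube n → Prop) (U : Finset (Fin n × Bool)) (θ : ℝ), 0 < θ →
  ∀ 𝒮 : Finset (Finset (Fin n)), (∀ S ∈ 𝒮, θ ≤ |coef f U S|) → (𝒮.card : ℝ) * θ ^ 2 ≤ 1

open Classical in
/-- Leaf SAMP: almost all samples are good. -/
def S_SAMP : Prop := ∀ (n m b : ℕ) (f : Cube n → Prop) (τ : ℝ), 1 ≤ b → 0 < τ →
  8 * (3 * (n : ℝ) + 2 * b) ≤ m * τ ^ 2 →
  (1 - 1 / (b : ℝ)) * (Fintype.card (Fin m → Cube n) : ℝ) ≤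
    ((univ.filter fun X : Fin m → Cube n => Good X f τ).card : ℝ)

/-- Leaf LLL: the local lemma for subcubes.  The sets `T i` have at least `c` elements and every
point is in at most `k` of them. -/
def S_LLL : Prop := ∀ (n : ℕ) (ι : Type) (I J : Finset ι) (T : ι → Finset (Fin n))
  (a : ι → Cube n) (k c : ℕ), 1 ≤ k → (8 * (k : ℝ)) ≤ (7 / 4) ^ c → J ⊆ I →
  (∀ v, (open Classical in (I.filter fun i => v ∈ T i)).card ≤ k) → (∀ i ∈ I, c ≤ (T i).card) →
  (1 - 1 / (8 * (k : ℝ))) ^ (I.card - J.card) * PP (fun x => ∀ i ∈ J, ¬ agr (T i) (a i) x) ≤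
    PP (fun x => ∀ i ∈ I, ¬ agr (T i) (a i) x)

/-- Leaf CLO: closure. -/
def S_CLO : Prop := ∀ (n : ℕ) (ι : Type) (I : Finset ι) (T : ι → Finset (Fin n))
  (k c : ℕ) (V₀ : Finset (Fin n)), 1 ≤ k → 1 ≤ c →
  (∀ v, (open Classical in (I.filter fun i => v ∈ T i)).card ≤ k) →
  (∀ i ∈ I, 2 * k * c ≤ (T i).card) →
  ∃ V, V₀ ⊆ V ∧ V.card ≤ 2 * V₀.card ∧
    2 * c * (open Classical in (I.filter fun i => T i ⊆ V)).card ≤ V.card ∧
    ∀ i ∈ I, T i ⊆ V ∨ c ≤ (T i \ V).card

/-- Leaf NARROW: many short terms make the formula almost constant. -/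
def S_NARROW : Prop := ∀ (k W : ℕ) (ε : ℝ), 0 < ε → ∃ h : ℕ, ∀ (n : ℕ) (ι : Type) (I : Finset ι)
  (T : ι → Finset (Fin n)) (a : ι → Cube n),
  (∀ v, (open Classical in (I.filter fun i => v ∈ T i)).card ≤ k) →
  ε ≤ PP (fun x => ∀ i ∈ I, ¬ agr (T i) (a i) x) →
  (open Classical in (I.filter fun i => (T i).card < W)).card ≤ h

end Pool.Agent.Helper91K9.DL
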