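import Pool.Agent.Helper91K9.DL.Defs
import Pool.Agent.Helper91K9.DL.Cube

/-!
# Statements of the leaves
-/

namespace Pool.Agent.Helper91K9.DL

open Finset Pool.Agent.NPC

/-- Leaf POLY: the algorithm runs in polynomial time (`R`, `K` are constants). -/
def S_POLY : Prop := ∀ R K : ℕ, Poly (learn R K)

open Classical in
/-- Leaf COVER: the structure of read-`k` formulas. -/
def S_COVER : Prop := ∀ (n : ℕ) (ι : Type) (I : Finset ι) (T : ι → Finset (Fin n))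
  (a : ι → Cube n) (k c h L : ℕ) (ε : ℝ), 1 ≤ k → 1 ≤ c → (8 * (k : ℝ)) ≤ (7 / 4) ^ c →
  (∀ v, (I.filter fun i => v ∈ T i).card ≤ k) →
  (I.filter fun i => (T i).card < 4 * k ^ 2 * c).card ≤ h → 0 < ε →
  ε ≤ PP (fun x => ∀ i ∈ I, ¬ agr (T i) (a i) x) →
  ∀ x : Cube n, (∃ i ∈ I, agr (T i) (a i) x) → (∀ i ∈ I, agr (T i) (a i) x → (T i).card ≤ L) →
  (∃ A : Finset (Fin n), A.card ≤ 8 * h * k ^ 2 * c ∧
    ∀ y, agr A x y → ∃ i ∈ I, agr (T i) (a i) y) ∨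
  (∃ (A Ts : Finset (Fin n)) (u : Fin n) (U : Finset (Fin n × Bool)) (μ : ℝ),
    A.card ≤ 8 * h * k ^ 2 * c ∧ U.card ≤ 8 * h * k ^ 2 * c + k ∧ u ∈ Ts ∧
    (∀ y, agr (A ∪ Ts) x y → ∃ i ∈ I, agr (T i) (a i) y) ∧
    ε / (4 ^ (8 * h * k ^ 2 * c) * 16 ^ L * (n : ℝ) ^ k) ≤ μ ∧
    ∀ S : Finset (Fin n), u ∈ S → S ⊆ Ts →
      coef (fun y => ∃ i ∈ I, agr (T i) (a i) y) U S = - chi S x * μ)

end Pool.Agent.Helper91K9.DL
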