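import Pool.Agent.Helper91K9.DL.Dir
import Pool.Agent.Helper91K9.DL.Leaves

/-!
# The structure of read-`k` formulas
-/

namespace Pool.Agent.Helper91K9.DL

open Finset

variable {n : ℕ}

/-- An irredundant subfamily. -/
theorem irred {ι : Type} (I : Finset ι) (P : ι → Cube n → Prop) : ∃ I' ⊆ I,
    (∀ y, (∃ i ∈ I, P i y) → ∃ i ∈ I', P i y) ∧
    ∀ j ∈ I', ∃ y, P j y ∧ ∀ i ∈ I', i ≠ j → ¬ P i y := by
  classical
  set F := I.powerset.filter fun I' => ∀ y, (∃ i ∈ I, P i y) → ∃ i ∈ I', P i y with hF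
  have hne : F.Nonempty := ⟨I, mem_filter.2 ⟨mem_powerset_self I, fun y h => h⟩⟩
  obtain ⟨I', hI', hmin⟩ := exists_min_image F card hne
  simp only [hF, mem_filter, mem_powerset] at hI'
  refine ⟨I', hI'.1, hI'.2, fun j hj => ?_⟩
  by_contra hcon
  push Not at hcon
  have hm : I'.erase j ∈ F := by
    simp only [hF, mem_filter, mem_powerset]
    refine ⟨(erase_subset _ _).trans hI'.1, fun y hy => ?_⟩
    obtain ⟨i, hi, hiy⟩ := hI'.2 y hy
    by_cases hij : i = j
    · subst hij
      obtain ⟨i', hi', hne, hP⟩ := hcon y hiy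
      exact ⟨i', mem_erase.2 ⟨hne, hi'⟩, hP⟩
    · exact ⟨i, mem_erase.2 ⟨hij, hi⟩, hiy⟩
  have h1 := hmin _ hm
  rw [card_erase_of_mem hj] at h1
  have h2 : 0 < I'.card := card_pos.2 ⟨j, hj⟩
  omega

theorem cover (hLLL : S_LLL) (hCLO : S_CLO) : S_COVER := by
  classical
  intro n ι I T a k c h L ε hk hc h8 hread hshort hε hp x hx hlong
  set R := 8 * h * k ^ 2 * c with hR
  -- the set of the variables near the short terms
  set V0 := (I.filter fun i => (T i).card < 4 * k ^ 2 * c).biUnion T with hV0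
  have hV0c : V0.card ≤ h * (4 * k ^ 2 * c) := by
    refine card_biUnion_le.trans (le_trans (sum_le_card_nsmul _ _ (4 * k ^ 2 * c) fun i hi => ?_) ?_)
    · exact (mem_filter.1 hi).2.le
    · rw [smul_eq_mul]; exact Nat.mul_le_mul_right _ hshort
  obtain ⟨V, hVV, hV1, -, hV3⟩ := hCLO n ι (I.filter fun i => 4 * k ^ 2 * c ≤ (T i).card) T k
    (2 * k * c) V0 hk (by nlinarith [Nat.mul_le_mul hk hc]) (fun v => le_trans (card_le_card (fun i hi => by
      simp only [mem_filter] at hi ⊢; exact ⟨hi.1.1, hi.2⟩)) (hread v)) (fun i hi => by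
      have := (mem_filter.1 hi).2
      calc 2 * k * (2 * k * c) = 4 * k ^ 2 * c := by ring
        _ ≤ _ := this)
  have hVR : V.card ≤ R := by
    calc V.card ≤ 2 * V0.card := hV1
      _ ≤ 2 * (h * (4 * k ^ 2 * c)) := Nat.mul_le_mul_left _ hV0c
      _ = R := by rw [hR]; ring
  have hV : ∀ i ∈ I, T i ⊆ V ∨ 2 * k * c ≤ (T i \ V).card := by
    intro i hi
    by_cases hs : (T i).card < 4 * k ^ 2 * c
    · left
      refine subset_trans ?_ hVV
      exact subset_biUnion_of_mem T (mem_filter.2 ⟨hi, hs⟩)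
    · exact hV3 i (mem_filter.2 ⟨hi, not_lt.1 hs⟩)
  by_cases hcase : ∃ i ∈ I, T i ⊆ V ∧ agr (T i) (a i) x
  · obtain ⟨i, hi, hiV, hix⟩ := hcase
    left
    refine ⟨T i, (card_le_card hiV).trans hVR, fun y hy => ⟨i, hi, fun v hv => ?_⟩⟩
    rw [hy v hv, hix v hv]
  push Not at hcase
  right
  set In := I.filter fun i => ¬ T i ⊆ V ∧ ∀ v ∈ T i, v ∈ V → x v = a i v with hIn
  have hInI : ∀ i ∈ In, i ∈ I := fun i hi => (mem_filter.1 hi).1
  have hfIn : ∀ y, agr V x y → ((∃ i ∈ I, agr (T i) (a i) y) ↔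
      ∃ i ∈ In, agr (T i \ V) (a i) y) := by
    intro y hy
    constructor
    · rintro ⟨i, hi, hiy⟩
      have h1 : ∀ v ∈ T i, v ∈ V → x v = a i v := fun v hv hvV => by
        rw [← hy v hvV, hiy v hv]
      refine ⟨i, ?_, fun v hv => hiy v (mem_sdiff.1 hv).1⟩
      simp only [hIn, mem_filter]
      refine ⟨hi, fun hsub => hcase i hi hsub fun v hv => h1 v hv (hsub hv), h1⟩
    · rintro ⟨i, hi, hiy⟩
      simp only [hIn, mem_filter] at hi
      refine ⟨i, hi.1, fun v hv => ?_⟩
      by_cases hvV : v ∈ V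
      · rw [hy v hvV, hi.2.2 v hv hvV]
      · exact hiy v (mem_sdiff.2 ⟨hv, hvV⟩)
  have hwide : ∀ i ∈ In, 2 * k * c ≤ (T i \ V).card := fun i hi => by
    simp only [hIn, mem_filter] at hi
    exact (hV i hi.1).resolve_left hi.2.1
  have hc2 : c ≤ 2 * k * c := by nlinarith
  have hp0 := restrict_prob hLLL In T a k c V ε hε.le hk h8
    (fun v => le_trans (card_le_card (fun i hi => by
      simp only [hIn, mem_filter] at hi ⊢; exact ⟨hi.1.1, hi.2⟩)) (hread v))
    (fun i hi => hc2.trans (hwide i hi))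
    (hp.trans (PP_mono fun y hy i hi _ => hy i (hInI i hi)))
  obtain ⟨I', hI'In, hI'1, hI'2⟩ := irred In fun i y => agr (T i \ V) (a i) y
  obtain ⟨j, hj, hjx⟩ := hI'1 x ((hfIn x fun _ _ => rfl).1 hx)
  obtain ⟨y, hy, hy'⟩ := hI'2 j hj
  set ε' := (7 / 8 : ℝ) ^ V.card * ε with hε'
  have hε'0 : 0 < ε' := by positivity
  have hread' : ∀ v, (I'.filter fun i => v ∈ T i \ V).card ≤ k := fun v =>
    le_trans (card_le_card (fun i hi => by
      simp only [mem_filter, mem_sdiff] at hi ⊢
      exact ⟨hInI i (hI'In hi.1), hi.2.1⟩)) (hread v)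
  have hp1 : ε' ≤ PP (fun z => ∀ i ∈ I', ¬ agr (T i \ V) (a i) z) :=
    hp0.trans (PP_mono fun z hz i hi => hz i (hI'In hi))
  obtain ⟨u, hu, hE⟩ := unique_dir hLLL hCLO I' (fun i => T i \ V) a k c ε' hε'0.le hk hc h8
    hread' (fun i hi => hwide i (hI'In hi)) hp1 j hj y hy hy'
  obtain ⟨C, hCk, hCu, hCT, hCkill, hCp⟩ := kill I' (fun i => T i \ V) a k
    (ε' / 16 ^ (T j \ V).card) (by positivity) hread' j u hE
  have hjI : j ∈ In := hI'In hj
  have hjI2 := hjI
  simp only [hIn, mem_filter] at hjI2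
  have hjagr : agr (T j) (a j) x := fun v hv => by
    by_cases hvV : v ∈ V
    · exact hjI2.2.2 v hv hvV
    · exact hjx v (mem_sdiff.2 ⟨hv, hvV⟩)
  have hjL : (T j \ V).card ≤ L :=
    (card_le_card sdiff_subset).trans (hlong j hjI2.1 hjagr)
  set U : Finset (Fin n × Bool) := C ∪ V.image fun v => (v, x v) with hU
  set Rp : Cube n → Prop := fun z => agr V x z ∧ satL C z with hRp
  set g : Cube n → Prop := fun z => ∃ i ∈ I', u ∉ T i \ V ∧ agr (T i \ V) (a i) z with hg
  have huV : u ∉ V := (mem_sdiff.1 hu).2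
  have hn : (1 : ℝ) ≤ n := by
    have : 1 ≤ n := Nat.one_le_iff_ne_zero.2 (by rintro rfl; exact u.elim0)
    exact_mod_cast this
  refine ⟨V, T j \ V, u, U, PP (fun z => Rp z ∧ agr (T j \ V) x z ∧ ¬ g z), hVR, ?_, hu,
    ?_, ?_, ?_⟩
  · rw [hU]
    refine (card_union_le _ _).trans ?_
    have := (card_image_le (s := V) (f := fun v => (v, x v))).trans hVR
    omega
  · intro z hz
    refine ⟨j, hjI2.1, fun v hv => ?_⟩
    have : v ∈ V ∪ T j \ V := by
      rw [mem_union, mem_sdiff]
      by_cases hvV : v ∈ V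
      · exact Or.inl hvV
      · exact Or.inr ⟨hv, hvV⟩
    rw [hz v this, hjagr v hv]
  · -- the size
    have hind := indep V (agr V x) (fun z => (agr (T j \ V) (a j) z ∧ satL C z) ∧
        ∀ i ∈ I', i ≠ j → ¬ agr (T i \ V) (a i) z)
      (fun z w h => by
        unfold agr
        exact forall₂_congr fun v hv => by rw [h v hv])
      (fun z w h => by
        have e : ∀ i, agr (T i \ V) (a i) z ↔ agr (T i \ V) (a i) w := fun i => by
          unfold agr
          exact forall₂_congr fun v hv => by rw [h v (mem_sdiff.1 hv).2]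
        have e2 : satL C z ↔ satL C w := by
          unfold satL
          refine forall₂_congr fun l hl => ?_
          obtain ⟨i, _, hi2⟩ := hCT l hl
          rw [h l.1 (mem_sdiff.1 hi2).2]
        rw [e j, e2]
        simp only [e])
    have h1 : PP (fun z => agr V x z ∧ (agr (T j \ V) (a j) z ∧ satL C z) ∧
        ∀ i ∈ I', i ≠ j → ¬ agr (T i \ V) (a i) z) ≤
        PP (fun z => Rp z ∧ agr (T j \ V) x z ∧ ¬ g z) := by
      refine PP_mono fun z hz => ?_
      obtain ⟨hz1, ⟨hz2, hz3⟩, hz4⟩ := hz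
      refine ⟨⟨hz1, hz3⟩, fun v hv => by rw [hz2 v hv, hjx v hv], ?_⟩
      rintro ⟨i, hi, hui, hiz⟩
      have hij : i ≠ j := by rintro rfl; exact hui hu
      exact hz4 i hi hij hiz
    refine le_trans ?_ h1
    rw [hind, PP_agr]
    refine le_trans ?_ (mul_le_mul_of_nonneg_left hCp (by positivity))
    have h2 : (1 / 4 : ℝ) ^ R ≤ (1 / 2) ^ V.card * (7 / 8) ^ V.card := by
      rw [← mul_pow]
      calc (1 / 4 : ℝ) ^ R ≤ (1 / 4) ^ V.card :=
            pow_le_pow_of_le_one (by norm_num) (by norm_num) hVR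
        _ ≤ _ := pow_le_pow_left₀ (by norm_num) (by norm_num) _
    have h3 : (1 / 16 : ℝ) ^ L ≤ (1 / 16) ^ (T j \ V).card :=
      pow_le_pow_of_le_one (by norm_num) (by norm_num) hjL
    calc ε / (4 ^ R * 16 ^ L * (n : ℝ) ^ k)
        = (1 / 4) ^ R * ((1 / 16) ^ L * (ε / (n : ℝ) ^ k)) := by
          rw [one_div, one_div, inv_pow, inv_pow]; field_simp
      _ ≤ ((1 / 2) ^ V.card * (7 / 8) ^ V.card) * ((1 / 16) ^ (T j \ V).card *
            (ε / (n : ℝ) ^ k)) := by
          refine mul_le_mul h2 (mul_le_mul_of_nonneg_right h3 (by positivity)) (by positivity)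
            (by positivity)
      _ = (1 / 2) ^ V.card * (ε' / 16 ^ (T j \ V).card / (n : ℝ) ^ k) := by
          rw [hε', one_div (16 : ℝ), inv_pow]; field_simp
  · intro S huS hS
    refine coef_iso _ g Rp U ?_ u (T j \ V) x hu ?_ ?_ ?_ S huS hS
    · intro z
      simp only [hRp, hU, satL, agr, mem_union, mem_image]
      constructor
      · intro hz
        exact ⟨fun v hv => hz (v, x v) (Or.inr ⟨v, hv, rfl⟩), fun l hl => hz l (Or.inl hl)⟩
      · rintro ⟨hz1, hz2⟩ l (hl | ⟨v, hv, rfl⟩)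
        · exact hz2 l hl
        · exact hz1 v hv
    · intro z b
      simp only [hRp]
      refine and_congr ?_ ?_
      · unfold agr
        refine forall₂_congr fun v hv => ?_
        rw [Function.update_of_ne]
        rintro rfl; exact huV hv
      · unfold satL
        refine forall₂_congr fun l hl => ?_
        rw [Function.update_of_ne (hCu l hl)]
    · intro z b
      simp only [hg]
      refine exists_congr fun i => and_congr_right fun _ => and_congr_right fun hui => ?_
      unfold agr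
      refine forall₂_congr fun v hv => ?_
      rw [Function.update_of_ne]
      rintro rfl; exact hui hv
    · intro z hz
      rw [hfIn z hz.1]
      constructor
      · intro h1
        obtain ⟨i, hi, hiz⟩ := hI'1 z h1
        by_cases hij : i = j
        · subst hij
          left
          intro v hv
          rw [hiz v hv, hjx v hv]
        · right
          refine ⟨i, hi, fun hui => ?_, hiz⟩
          obtain ⟨l, hl, hl1, hl2⟩ := hCkill i hi hij hui
          have h2 := hz.2 l hl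
          have h3 := hiz l.1 hl1
          exact hl2 (by rw [← h2, h3])
      · rintro (h1 | ⟨i, hi, -, hiz⟩)
        · exact ⟨j, hjI, fun v hv => by rw [h1 v hv, hjx v hv]⟩
        · exact ⟨i, hI'In hi, hiz⟩

end Pool.Agent.Helper91K9.DL
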