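import Pool.Agent.Helper91K9.DL.Cover
import Pool.Agent.Helper91K9.DL.Leaves2

/-!
# The structure of read-`k` formulas, the set of the variables of the short terms given
-/

namespace Pool.Agent.Helper91K9.DL

open Finset

variable {n : ℕ}

theorem cover2 (hLLL : S_LLL) (hCLO : S_CLO) : S_COVER2 := by
  classical
  intro n ι I T a k c L ε V hk hc h8 hread hε hp x halive hx hlong
  have hkc : 1 ≤ 2 * k * c := by nlinarith [Nat.mul_le_mul hk hc]
  have hcase : ∀ i ∈ I, T i ⊆ V → ¬ agr (T i) (a i) x := fun i hi hsub hag => by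
    have h1 := halive i hi fun v hv _ => hag v hv
    rw [sdiff_eq_empty_iff_subset.2 hsub, card_empty] at h1
    omega
  set In := I.filter fun i => ¬ T i ⊆ V ∧ ∀ v ∈ T i, v ∈ V → x v = a i v with hIn
  have hInI : ∀ i ∈ In, i ∈ I := fun i hi => (mem_filter.1 hi).1
  have hfIn : ∀ y, agr V x y → ((∃ i ∈ I, agr (T i) (a i) y) ↔
      ∃ i ∈ In, agr (T i \ V) (a i) y) := by
    intro y hy
    constructor
    · rintro ⟨i, hi, hiy⟩
      have h1 : ∀ v ∈ T i, v ∈ V → x v = a i v := fun v hv hvV => by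
        rw [← hy v hvV, hiy v hv]
      refine ⟨i, ?_, fun v hv => hiy v (mem_sdiff.1 hv).1⟩
      simp only [hIn, mem_filter]
      refine ⟨hi, fun hsub => hcase i hi hsub fun v hv => h1 v hv (hsub hv), h1⟩
    · rintro ⟨i, hi, hiy⟩
      simp only [hIn, mem_filter] at hi
      refine ⟨i, hi.1, fun v hv => ?_⟩
      by_cases hvV : v ∈ V
      · rw [hy v hvV, hi.2.2 v hv hvV]
      · exact hiy v (mem_sdiff.2 ⟨hv, hvV⟩)
  have hwide : ∀ i ∈ In, 2 * k * c ≤ (T i \ V).card := fun i hi => by
    simp only [hIn, mem_filter] at hi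
    exact halive i hi.1 hi.2.2
  have hc2 : c ≤ 2 * k * c := by nlinarith
  have hp0 := restrict_prob hLLL In T a k c V ε hε.le hk h8
    (fun v => le_trans (card_le_card (fun i hi => by
      simp only [hIn, mem_filter] at hi ⊢; exact ⟨hi.1.1, hi.2⟩)) (hread v))
    (fun i hi => hc2.trans (hwide i hi))
    (hp.trans (PP_mono fun y hy i hi _ => hy i (hInI i hi)))
  obtain ⟨I', hI'In, hI'1, hI'2⟩ := irred In fun i y => agr (T i \ V) (a i) y
  obtain ⟨j, hj, hjx⟩ := hI'1 x ((hfIn x fun _ _ => rfl).1 hx)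
  obtain ⟨y, hy, hy'⟩ := hI'2 j hj
  set ε' := (7 / 8 : ℝ) ^ V.card * ε with hε'
  have hε'0 : 0 < ε' := by positivity
  have hread' : ∀ v, (I'.filter fun i => v ∈ T i \ V).card ≤ k := fun v =>
    le_trans (card_le_card (fun i hi => by
      simp only [mem_filter, mem_sdiff] at hi ⊢
      exact ⟨hInI i (hI'In hi.1), hi.2.1⟩)) (hread v)
  have hp1 : ε' ≤ PP (fun z => ∀ i ∈ I', ¬ agr (T i \ V) (a i) z) :=
    hp0.trans (PP_mono fun z hz i hi => hz i (hI'In hi))
  obtain ⟨u, hu, hE⟩ := unique_dir hLLL hCLO I' (fun i => T i \ V) a k c ε' hε'0.le hk hc h8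
    hread' (fun i hi => hwide i (hI'In hi)) hp1 j hj y hy hy'
  obtain ⟨C, hCk, hCu, hCT, hCkill, hCp⟩ := kill I' (fun i => T i \ V) a k
    (ε' / 16 ^ (T j \ V).card) (by positivity) hread' j u hE
  have hjI : j ∈ In := hI'In hj
  have hjI2 := hjI
  simp only [hIn, mem_filter] at hjI2
  have hjagr : agr (T j) (a j) x := fun v hv => by
    by_cases hvV : v ∈ V
    · exact hjI2.2.2 v hv hvV
    · exact hjx v (mem_sdiff.2 ⟨hv, hvV⟩)
  have hjL : (T j \ V).card ≤ L :=
    (card_le_card sdiff_subset).trans (hlong j hjI2.1 hjagr)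
  set U : Finset (Fin n × Bool) := C ∪ V.image fun v => (v, x v) with hU
  set Rp : Cube n → Prop := fun z => agr V x z ∧ satL C z with hRp
  set g : Cube n → Prop := fun z => ∃ i ∈ I', u ∉ T i \ V ∧ agr (T i \ V) (a i) z with hg
  have huV : u ∉ V := (mem_sdiff.1 hu).2
  have hn : (1 : ℝ) ≤ n := by
    have : 1 ≤ n := Nat.one_le_iff_ne_zero.2 (by rintro rfl; exact u.elim0)
    exact_mod_cast this
  refine ⟨T j \ V, u, C, PP (fun z => Rp z ∧ agr (T j \ V) x z ∧ ¬ g z), hCk, hu,
    ?_, ?_, ?_⟩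
  · intro z hz
    refine ⟨j, hjI2.1, fun v hv => ?_⟩
    have : v ∈ V ∪ T j \ V := by
      rw [mem_union, mem_sdiff]
      by_cases hvV : v ∈ V
      · exact Or.inl hvV
      · exact Or.inr ⟨hv, hvV⟩
    rw [hz v this, hjagr v hv]
  · -- the size
    have hind := indep V (agr V x) (fun z => (agr (T j \ V) (a j) z ∧ satL C z) ∧
        ∀ i ∈ I', i ≠ j → ¬ agr (T i \ V) (a i) z)
      (fun z w h => by
        unfold agr
        exact forall₂_congr fun v hv => by rw [h v hv])
      (fun z w h => by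
        have e : ∀ i, agr (T i \ V) (a i) z ↔ agr (T i \ V) (a i) w := fun i => by
          unfold agr
          exact forall₂_congr fun v hv => by rw [h v (mem_sdiff.1 hv).2]
        have e2 : satL C z ↔ satL C w := by
          unfold satL
          refine forall₂_congr fun l hl => ?_
          obtain ⟨i, _, hi2⟩ := hCT l hl
          rw [h l.1 (mem_sdiff.1 hi2).2]
        rw [e j, e2]
        simp only [e])
    have h1 : PP (fun z => agr V x z ∧ (agr (T j \ V) (a j) z ∧ satL C z) ∧
        ∀ i ∈ I', i ≠ j → ¬ agr (T i \ V) (a i) z) ≤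
        PP (fun z => Rp z ∧ agr (T j \ V) x z ∧ ¬ g z) := by
      refine PP_mono fun z hz => ?_
      obtain ⟨hz1, ⟨hz2, hz3⟩, hz4⟩ := hz
      refine ⟨⟨hz1, hz3⟩, fun v hv => by rw [hz2 v hv, hjx v hv], ?_⟩
      rintro ⟨i, hi, hui, hiz⟩
      have hij : i ≠ j := by rintro rfl; exact hui hu
      exact hz4 i hi hij hiz
    refine le_trans ?_ h1
    rw [hind, PP_agr]
    refine le_trans ?_ (mul_le_mul_of_nonneg_left hCp (by positivity))
    have h2 : (1 / 4 : ℝ) ^ V.card ≤ (1 / 2) ^ V.card * (7 / 8) ^ V.card := by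
      rw [← mul_pow]
      exact pow_le_pow_left₀ (by norm_num) (by norm_num) _
    have h3 : (1 / 16 : ℝ) ^ L ≤ (1 / 16) ^ (T j \ V).card :=
      pow_le_pow_of_le_one (by norm_num) (by norm_num) hjL
    calc ε / (4 ^ V.card * 16 ^ L * (n : ℝ) ^ k)
        = (1 / 4) ^ V.card * ((1 / 16) ^ L * (ε / (n : ℝ) ^ k)) := by
          rw [one_div, one_div, inv_pow, inv_pow]; field_simp
      _ ≤ ((1 / 2) ^ V.card * (7 / 8) ^ V.card) * ((1 / 16) ^ (T j \ V).card *
            (ε / (n : ℝ) ^ k)) := by
          refine mul_le_mul h2 (mul_le_mul_of_nonneg_right h3 (by positivity)) (by positivity)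
            (by positivity)
      _ = (1 / 2) ^ V.card * (ε' / 16 ^ (T j \ V).card / (n : ℝ) ^ k) := by
          rw [hε', one_div (16 : ℝ), inv_pow]; field_simp
  · intro S huS hS
    refine coef_iso _ g Rp U ?_ u (T j \ V) x hu ?_ ?_ ?_ S huS hS
    · intro z
      simp only [hRp, hU, satL, agr, mem_union, mem_image]
      constructor
      · intro hz
        exact ⟨fun v hv => hz (v, x v) (Or.inr ⟨v, hv, rfl⟩), fun l hl => hz l (Or.inl hl)⟩
      · rintro ⟨hz1, hz2⟩ l (hl | ⟨v, hv, rfl⟩)
        · exact hz2 l hl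
        · exact hz1 v hv
    · intro z b
      simp only [hRp]
      refine and_congr ?_ ?_
      · unfold agr
        refine forall₂_congr fun v hv => ?_
        rw [Function.update_of_ne]
        rintro rfl; exact huV hv
      · unfold satL
        refine forall₂_congr fun l hl => ?_
        rw [Function.update_of_ne (hCu l hl)]
    · intro z b
      simp only [hg]
      refine exists_congr fun i => and_congr_right fun _ => and_congr_right fun hui => ?_
      unfold agr
      refine forall₂_congr fun v hv => ?_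
      rw [Function.update_of_ne]
      rintro rfl; exact hui hv
    · intro z hz
      rw [hfIn z hz.1]
      constructor
      · intro h1
        obtain ⟨i, hi, hiz⟩ := hI'1 z h1
        by_cases hij : i = j
        · subst hij
          left
          intro v hv
          rw [hiz v hv, hjx v hv]
        · right
          refine ⟨i, hi, fun hui => ?_, hiz⟩
          obtain ⟨l, hl, hl1, hl2⟩ := hCkill i hi hij hui
          have h2 := hz.2 l hl
          have h3 := hiz l.1 hl1
          exact hl2 (by rw [← h2, h3])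
      · rintro (h1 | ⟨i, hi, -, hiz⟩)
        · exact ⟨j, hjI, fun v hv => by rw [h1 v hv, hjx v hv]⟩
        · exact ⟨i, hI'In hi, hiz⟩

end Pool.Agent.Helper91K9.DL
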