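import Pool.Agent.Helper91K9.DL.Iso

/-!
# Every irredundant term is isolated in some direction
-/

namespace Pool.Agent.Helper91K9.DL

open Finset

variable {n : ℕ}

/-- A direction in which the term `j` is the only responsible one, with a large probability. -/
theorem unique_dir (hLLL : S_LLL) (hCLO : S_CLO) {ι : Type} (I : Finset ι)
    (T : ι → Finset (Fin n)) (a : ι → Cube n) (k c : ℕ) (ε : ℝ) (hε : 0 ≤ ε) (hk : 1 ≤ k)
    (hc : 1 ≤ c) (h8 : (8 * (k : ℝ)) ≤ (7 / 4) ^ c)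
    (hread : ∀ v, (open Classical in (I.filter fun i => v ∈ T i)).card ≤ k)
    (hwide : ∀ i ∈ I, 2 * k * c ≤ (T i).card)
    (hp : ε ≤ PP (fun x => ∀ i ∈ I, ¬ agr (T i) (a i) x)) (j : ι) (hj : j ∈ I) (y : Cube n)
    (hy : agr (T j) (a j) y) (hy' : ∀ i ∈ I, i ≠ j → ¬ agr (T i) (a i) y) :
    ∃ u ∈ T j, ε / 16 ^ (T j).card ≤ PP (fun x => agr (T j) (a j) x ∧
      ∀ i ∈ I, i ≠ j → ¬ agr ((T i).erase u) (a i) x) := by
  classical
  obtain ⟨V, hV0, hV1, hV2, hV3⟩ := hCLO n ι I T k c (T j) hk hc hread hwide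
  -- a good direction
  obtain ⟨u, hu, hgood⟩ : ∃ u ∈ T j, ∀ i ∈ I, i ≠ j → T i ⊆ V → u ∈ T i → a i u ≠ a j u →
      ∃ w ∈ T i, w ≠ u ∧ w ∈ T j ∧ a i w ≠ a j w := by
    by_contra hcon
    push Not at hcon
    haveI : Nonempty ι := ⟨j⟩
    choose! i hi1 hi2 hi3 hi4 hi5 hi6 using hcon
    have hinj : Set.InjOn i (↑(T j) : Set (Fin n)) := by
      intro u hu u' hu' he
      by_contra hne
      have := hi6 u' hu' u (by rw [← he]; exact hi4 u hu) hne hu
      rw [← he] at this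
      exact hi5 u hu this
    have hmaps : ∀ u ∈ T j, i u ∈ (I.filter fun i => T i ⊆ V).erase j := fun u hu => by
      rw [mem_erase, mem_filter]
      exact ⟨hi2 u hu, hi1 u hu, hi3 u hu⟩
    have h1 := card_le_card_of_injOn i hmaps hinj
    have hjm : j ∈ I.filter fun i => T i ⊆ V := by
      rw [mem_filter]; exact ⟨hj, hV0⟩
    rw [card_erase_of_mem hjm] at h1
    have h2 : 1 ≤ (I.filter fun i => T i ⊆ V).card := card_pos.2 ⟨j, hjm⟩
    have h3 : (I.filter fun i => T i ⊆ V).card ≤ (T j).card := by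
      have h4 : 2 * c * (I.filter fun i => T i ⊆ V).card ≤ 2 * (T j).card := by
        refine le_trans (le_of_eq ?_) (hV2.trans hV1)
        congr
      nlinarith
    omega
  refine ⟨u, hu, ?_⟩
  set I' := I.filter fun i => ¬ T i ⊆ V with hI'
  have hr := restrict_prob hLLL I' T a k c V ε hε hk h8
    (fun v => le_trans (card_le_card (fun i hi => by
      simp only [hI', mem_filter] at hi ⊢; exact ⟨hi.1.1, hi.2⟩)) (hread v))
    (fun i hi => by
      simp only [hI', mem_filter] at hi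
      exact (hV3 i hi.1).resolve_left hi.2)
    (hp.trans (PP_mono fun x hx i hi _ => hx i (by
      simp only [hI', mem_filter] at hi; exact hi.1)))
  have hind := indep V (agr V y) (fun x => ∀ i ∈ I', ¬ agr (T i \ V) (a i) x)
    (fun x z h => by
      unfold agr
      exact forall₂_congr fun v hv => by rw [h v hv])
    (fun x z h => by
      refine forall₂_congr fun i _ => not_congr ?_
      unfold agr
      exact forall₂_congr fun v hv => by rw [h v (mem_sdiff.1 hv).2])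
  have h1 : ε / 16 ^ (T j).card ≤ (1 / 2 : ℝ) ^ V.card * ((7 / 8) ^ V.card * ε) := by
    have h2 : (1 / 16 : ℝ) ^ (T j).card ≤ (1 / 2 : ℝ) ^ V.card * (7 / 8) ^ V.card := by
      rw [← mul_pow]
      calc (1 / 16 : ℝ) ^ (T j).card = (1 / 4) ^ (2 * (T j).card) := by
            rw [pow_mul]; norm_num
        _ ≤ (1 / 4) ^ V.card := pow_le_pow_of_le_one (by norm_num) (by norm_num) hV1
        _ ≤ _ := pow_le_pow_left₀ (by norm_num) (by norm_num) _
    calc ε / 16 ^ (T j).card = (1 / 16 : ℝ) ^ (T j).card * ε := by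
          rw [one_div, inv_pow]; field_simp
      _ ≤ ((1 / 2 : ℝ) ^ V.card * (7 / 8) ^ V.card) * ε := mul_le_mul_of_nonneg_right h2 hε
      _ = _ := by ring
  refine h1.trans ((mul_le_mul_of_nonneg_left hr (by positivity)).trans ?_)
  rw [← PP_agr V y, ← hind]
  refine PP_mono fun x hx => ?_
  obtain ⟨hx1, hx2⟩ := hx
  refine ⟨fun v hv => by rw [hx1 v (hV0 hv)]; exact hy v hv, fun i hi hij hag => ?_⟩
  by_cases hiV : T i ⊆ V
  · -- a disagreement of `y`
    have h3 := hy' i hi hij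
    unfold agr at h3
    push Not at h3
    obtain ⟨w, hw, hw'⟩ := h3
    by_cases hwu : w = u
    · subst hwu
      have h4 : a i w ≠ a j w := by rw [← hy w hu]; exact fun h => hw' h.symm
      obtain ⟨w', hw1, hw2, hw3, hw4⟩ := hgood i hi hij hiV hw h4
      have h5 := hag w' (mem_erase.2 ⟨hw2, hw1⟩)
      rw [hx1 w' (hiV hw1), hy w' hw3] at h5
      exact hw4 h5.symm
    · have h5 := hag w (mem_erase.2 ⟨hwu, hw⟩)
      rw [hx1 w (hiV hw)] at h5
      exact hw' h5
  · refine hx2 i (by simp only [hI', mem_filter]; exact ⟨hi, hiV⟩) fun v hv => ?_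
    rw [mem_sdiff] at hv
    refine hag v (mem_erase.2 ⟨?_, hv.1⟩)
    rintro rfl
    exact hv.2 (hV0 hu)

/-- The other terms containing the direction are killed by few literals. -/
theorem kill {ι : Type} (I : Finset ι) (T : ι → Finset (Fin n)) (a : ι → Cube n) (k : ℕ) (δ : ℝ)
    (hδ : 0 < δ) (hread : ∀ v, (open Classical in (I.filter fun i => v ∈ T i)).card ≤ k) (j : ι)
    (u : Fin n)
    (hE : δ ≤ PP (fun x => agr (T j) (a j) x ∧
      ∀ i ∈ I, i ≠ j → ¬ agr ((T i).erase u) (a i) x)) :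
    ∃ C : Finset (Fin n × Bool), C.card ≤ k ∧ (∀ l ∈ C, l.1 ≠ u) ∧
      (∀ l ∈ C, ∃ i ∈ I, l.1 ∈ T i) ∧
      (∀ i ∈ I, i ≠ j → u ∈ T i → ∃ l ∈ C, l.1 ∈ T i ∧ l.2 ≠ a i l.1) ∧
      δ / (n : ℝ) ^ k ≤ PP (fun x => (agr (T j) (a j) x ∧ satL C x) ∧
        ∀ i ∈ I, i ≠ j → ¬ agr (T i) (a i) x) := by
  classical
  set Iu := I.filter fun i => i ≠ j ∧ u ∈ T i with hIu
  have hIuk : Iu.card ≤ k := le_trans (card_le_card (fun i hi => by
    simp only [hIu, mem_filter] at hi ⊢; exact ⟨hi.1, hi.2.2⟩)) (hread u)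
  let E : ((↥Iu) → Fin n) → Cube n → Prop := fun f x =>
    (agr (T j) (a j) x ∧ (∀ i ∈ I, i ≠ j → ¬ agr (T i) (a i) x)) ∧
      ∀ i : ↥Iu, f i ∈ (T i.1).erase u ∧ x (f i) ≠ a i.1 (f i)
  have h1 : PP (fun x => agr (T j) (a j) x ∧
      ∀ i ∈ I, i ≠ j → ¬ agr ((T i).erase u) (a i) x) ≤
      PP (fun x => ∃ f ∈ (univ : Finset ((↥Iu) → Fin n)), E f x) := by
    refine PP_mono fun x hx => ?_
    have h2 : ∀ i : ↥Iu, ∃ v, v ∈ (T i.1).erase u ∧ x v ≠ a i.1 v := by
      intro i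
      have hi := i.2
      simp only [hIu, mem_filter] at hi
      have := hx.2 i.1 hi.1 hi.2.1
      unfold agr at this
      push Not at this
      obtain ⟨v, hv, hv'⟩ := this
      exact ⟨v, hv, hv'⟩
    choose f hf using h2
    exact ⟨f, mem_univ _, ⟨hx.1, fun i hi hij hag => hx.2 i hi hij fun v hv =>
      hag v (mem_of_mem_erase hv)⟩, hf⟩
  have h2 := (hE.trans h1).trans (PP_exists_le univ E)
  have hcard : (univ : Finset ((↥Iu) → Fin n)).card = n ^ Iu.card := by
    rw [card_univ, Fintype.card_fun, Fintype.card_fin, Fintype.card_coe]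
  -- the best choice
  obtain ⟨f, hf⟩ : ∃ f, δ / (n : ℝ) ^ Iu.card ≤ PP (E f) := by
    by_contra hcon
    push Not at hcon
    have hne : (univ : Finset ((↥Iu) → Fin n)).Nonempty := by
      by_contra hem
      rw [not_nonempty_iff_eq_empty] at hem
      rw [hem, sum_empty] at h2
      linarith
    have h3 : ∑ f, PP (E f) < ∑ _f : (↥Iu) → Fin n, δ / (n : ℝ) ^ Iu.card :=
      sum_lt_sum_of_nonempty hne fun f _ => hcon f
    rw [sum_const, hcard, nsmul_eq_mul] at h3
    have hpos : (0 : ℝ) < (n : ℝ) ^ Iu.card := by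
      have : 0 < (univ : Finset ((↥Iu) → Fin n)).card := card_pos.2 hne
      rw [hcard] at this
      exact_mod_cast this
    push_cast at h3
    rw [mul_div_cancel₀ _ hpos.ne'] at h3
    linarith
  have hfpos : 0 < PP (E f) ∨ (n : ℝ) ^ Iu.card = 0 := by
    by_cases h0 : (n : ℝ) ^ Iu.card = 0
    · exact Or.inr h0
    · left
      refine lt_of_lt_of_le ?_ hf
      have : 0 < (n : ℝ) ^ Iu.card := lt_of_le_of_ne (by positivity) (Ne.symm h0)
      positivity
  have hn : 1 ≤ n := Nat.one_le_iff_ne_zero.2 (by rintro rfl; exact u.elim0)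
  have hn' : (1 : ℝ) ≤ n := by exact_mod_cast hn
  have hfpos' : 0 < PP (E f) := hfpos.resolve_right (by positivity)
  obtain ⟨x0, hx0⟩ : ∃ x0, E f x0 := by
    by_contra hcon
    push Not at hcon
    have : PP (E f) = 0 := by
      rw [PP_eq, filter_false_of_mem (fun x _ => hcon x)]; simp
    linarith
  refine ⟨univ.image fun i : ↥Iu => (f i, ! a i.1 (f i)), ?_, ?_, ?_, ?_, ?_⟩
  · refine card_image_le.trans ?_
    rw [card_univ, Fintype.card_coe]
    exact hIuk
  · intro l hl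
    simp only [mem_image, mem_univ, true_and] at hl
    obtain ⟨i, rfl⟩ := hl
    exact ne_of_mem_erase (hx0.2 i).1
  · intro l hl
    simp only [mem_image, mem_univ, true_and] at hl
    obtain ⟨i, rfl⟩ := hl
    have hi := i.2
    simp only [hIu, mem_filter] at hi
    exact ⟨i.1, hi.1, mem_of_mem_erase (hx0.2 i).1⟩
  · intro i hi hij hui
    have hm : i ∈ Iu := by simp only [hIu, mem_filter]; exact ⟨hi, hij, hui⟩
    refine ⟨(f ⟨i, hm⟩, ! a i (f ⟨i, hm⟩)), ?_, mem_of_mem_erase (hx0.2 ⟨i, hm⟩).1, ?_⟩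
    · simp only [mem_image, mem_univ, true_and]
      exact ⟨⟨i, hm⟩, rfl⟩
    · simp
  · have h3 : δ / (n : ℝ) ^ k ≤ δ / (n : ℝ) ^ Iu.card :=
      div_le_div_of_nonneg_left hδ.le (by positivity) (pow_le_pow_right₀ hn' hIuk)
    refine h3.trans (hf.trans (PP_mono fun x hx => ⟨⟨hx.1.1, ?_⟩, hx.1.2⟩))
    intro l hl
    simp only [mem_image, mem_univ, true_and] at hl
    obtain ⟨i, rfl⟩ := hl
    have := (hx.2 i).2
    simp only
    cases h1 : x (f i) <;> cases h2 : a i.1 (f i) <;> simp_all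

end Pool.Agent.Helper91K9.DL
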