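import Pool.Agent.Helper91K9.DL.Correct2
import Pool.Agent.Helper91K9.DL.Dir

/-!
# The variables found are close to the short terms
-/

namespace Pool.Agent.Helper91K9.DL

open Finset

variable {n m : ℕ}

open Classical in
/-- The probability of the zeros in a subcube. -/
theorem restrict_cube (hLLL : S_LLL) {ι : Type} (I : Finset ι) (T : ι → Finset (Fin n))
    (a : ι → Cube n) (k c : ℕ) (Q : Finset (Fin n)) (ε : ℝ) (hε : 0 ≤ ε) (hk : 1 ≤ k)
    (h8 : (8 * (k : ℝ)) ≤ (7 / 4) ^ c)
    (hread : ∀ v, (I.filter fun i => v ∈ T i).card ≤ k)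
    (hp : ε ≤ PP (fun x => ∀ i ∈ I, ¬ agr (T i) (a i) x)) (x : Cube n)
    (hw : ∀ i ∈ I, (∀ v ∈ T i, v ∈ Q → x v = a i v) → c ≤ (T i \ Q).card) :
    ε / 4 ^ Q.card ≤ PP (fun z => agr Q x z ∧ ∀ i ∈ I, ¬ agr (T i) (a i) z) := by
  set In := I.filter fun i => ∀ v ∈ T i, v ∈ Q → x v = a i v with hIn
  have hr := restrict_prob hLLL In T a k c Q ε hε hk h8
    (fun v => le_trans (card_le_card (fun i hi => by
      simp only [hIn, mem_filter] at hi ⊢; exact ⟨hi.1.1, hi.2⟩)) (hread v))
    (fun i hi => by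
      simp only [hIn, mem_filter] at hi
      exact hw i hi.1 hi.2)
    (hp.trans (PP_mono fun x hx i hi _ => hx i (by
      simp only [hIn, mem_filter] at hi; exact hi.1)))
  have hind := indep Q (agr Q x) (fun x => ∀ i ∈ In, ¬ agr (T i \ Q) (a i) x)
    (fun x z h => by
      unfold agr
      exact forall₂_congr fun v hv => by rw [h v hv])
    (fun x z h => by
      refine forall₂_congr fun i _ => not_congr ?_
      unfold agr
      exact forall₂_congr fun v hv => by rw [h v (mem_sdiff.1 hv).2])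
  have h1 : ε / 4 ^ Q.card ≤ (1 / 2 : ℝ) ^ Q.card * ((7 / 8) ^ Q.card * ε) := by
    have h2 : (1 / 4 : ℝ) ^ Q.card ≤ (1 / 2 : ℝ) ^ Q.card * (7 / 8) ^ Q.card := by
      rw [← mul_pow]
      exact pow_le_pow_left₀ (by norm_num) (by norm_num) _
    calc ε / 4 ^ Q.card = (1 / 4 : ℝ) ^ Q.card * ε := by
          rw [one_div, inv_pow]; field_simp
      _ ≤ ((1 / 2 : ℝ) ^ Q.card * (7 / 8) ^ Q.card) * ε := mul_le_mul_of_nonneg_right h2 hε
      _ = _ := by ring
  refine h1.trans ((mul_le_mul_of_nonneg_left hr (by positivity)).trans ?_)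
  rw [← PP_agr Q x, ← hind]
  refine PP_mono fun z hz => ⟨hz.1, fun i hi hag => ?_⟩
  refine hz.2 i ?_ fun v hv => hag v (mem_sdiff.1 hv).1
  simp only [hIn, mem_filter]
  exact ⟨hi, fun v hv hvQ => by rw [← hz.1 v hvQ, hag v hv]⟩

theorem length_of_mem_parts (n r : ℕ) : ∀ ρ ∈ parts n r, ρ.length ≤ r := by
  induction r with
  | zero => intro ρ h; simp [parts] at h; simp [h]
  | succ r ih =>
    intro ρ h
    unfold parts at h
    rcases List.mem_append.1 h with h | h
    · exact (ih ρ h).trans (by omega)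
    · obtain ⟨σ, hσ, h⟩ := List.mem_flatMap.1 h
      obtain ⟨l, -, rfl⟩ := List.mem_map.1 h
      have := ih σ hσ
      simpa using this

theorem card_SS_le (S : List ℕ) : (SS n S).card ≤ S.length := by
  classical
  have h : (SS n S).card ≤ S.toFinset.card := by
    refine card_le_card_of_injOn (fun v : Fin n => (v : ℕ)) (fun v hv => ?_)
      (fun v _ w _ h => Fin.ext h)
    simpa using (mem_SS S v).1 hv
  exact h.trans (List.toFinset_card_le _)

/-- No negative example satisfies the term: the coefficient is small. -/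
theorem coef_le_of_imp (F : List (List (ℕ × Bool))) (X : Fin m → Cube n) (τ : ℝ) (hm : 0 < m)
    (hG : Good X (ff n F) τ) (ρ : List (ℕ × Bool)) (hρ : ∀ l ∈ ρ, l.1 < n)
    (himp : imp (negs (smp F X)) ρ = true) :
    PP (fun x : Cube n => ¬ ff n F x ∧ satL (UU n ρ) x) ≤ τ := by
  unfold imp at himp
  rw [negs_all] at himp
  have h3 := hG (UU n ρ) ∅
  rw [coef_empty] at h3
  have h4 : stat X (ff n F) (UU n ρ) ∅ = 0 := by
    refine sum_eq_zero fun j _ => ?_
    unfold wt
    rw [if_neg]
    rintro ⟨hj1, hj2⟩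
    have h5 := himp j hj1
    rw [Bool.not_eq_true', ← Bool.not_eq_true, termVal_iff ρ hρ] at h5
    exact h5 hj2
  rw [h4, zero_sub, abs_neg] at h3
  have h5 := (le_abs_self _).trans h3
  exact le_of_mul_le_mul_left h5 (by exact_mod_cast hm)

/-- Some negative example satisfies the term. -/
theorem exists_of_not_imp (F : List (List (ℕ × Bool))) (X : Fin m → Cube n)
    (ρ : List (ℕ × Bool)) (hρ : ∀ l ∈ ρ, l.1 < n)
    (himp : imp (negs (smp F X)) ρ = false) : ∃ x : Cube n, ¬ ff n F x ∧ satL (UU n ρ) x := by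
  by_contra hcon
  push Not at hcon
  rw [← Bool.not_eq_true] at himp
  refine himp ?_
  unfold imp
  rw [negs_all]
  intro j hj
  rw [Bool.not_eq_true', ← Bool.not_eq_true, termVal_iff ρ hρ]
  exact hcon _ hj

theorem crit_mem (hLLL : S_LLL) (hparts : S_PARTS) : S_CRIT := by
  classical
  intro n m k c r F ι I T b ε τ Vs X V As v hk h8 hf hread hε hp hVs hm hτ hG hRep hV hcr
  by_contra hv
  unfold crit at hcr
  rw [List.any_eq_true] at hcr
  obtain ⟨a, ha, hcr⟩ := hcr
  rw [List.any_eq_true] at hcr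
  obtain ⟨β, hβ, hsp⟩ := hcr
  obtain ⟨x0, rfl⟩ := hRep.2.1 a ha
  unfold splits at hsp
  rw [Bool.and_eq_true, Bool.and_eq_true, Bool.or_eq_true, List.all_eq_true,
    Bool.not_eq_true'] at hsp
  obtain ⟨h1, h2, h3⟩ := hsp
  have hβv := (hparts n r).1 β hβ
  have hβl := length_of_mem_parts n r β hβ
  set ρ := asg V x0 ++ β with hρ
  have hρv : ∀ l ∈ ρ, l.1 < n := fun l hl => by
    rcases List.mem_append.1 hl with h | h
    · exact asg_vars V x0 l h
    · exact hβv l h
  obtain ⟨s, h3⟩ : ∃ s, imp (negs (smp F X)) (((v : ℕ), s) :: ρ) = true := by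
    rcases h3 with h | h
    · exact ⟨_, h⟩
    · exact ⟨_, h⟩
  obtain ⟨x, hx, hxs⟩ := exists_of_not_imp F X ρ hρv h2
  set B := SS n (β.map Prod.fst) with hB
  have hBc : B.card ≤ r := (card_SS_le _).trans (by rw [List.length_map]; exact hβl)
  set Q := insert v (Vs ∪ B) with hQ
  have hQc : Q.card ≤ Vs.card + r + 1 := by
    refine (card_insert_le _ _).trans ?_
    have := card_union_le Vs B
    omega
  set x' := Function.update x v s with hx'
  have hxx : ∀ w, w ≠ v → x' w = x w := fun w hw => by rw [hx', Function.update_of_ne hw]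
  have hxv : x' v = s := by rw [hx', Function.update_self]
  have hlow := restrict_cube hLLL I T b k c Q ε hε.le hk h8 hread hp x' (by
    intro i hi hal
    rcases hVs i hi with h | h
    · exfalso
      refine hx ((hf x).2 ⟨i, hi, fun w hw => ?_⟩)
      have hwv : w ≠ v := by rintro rfl; exact hv (h hw)
      rw [← hxx w hwv]
      exact hal w hw (by rw [hQ]; exact mem_insert_of_mem (mem_union_left _ (h hw)))
    · have h5 : T i \ Vs ⊆ (T i \ Q) ∪ insert v B := by
        intro w hw
        rw [mem_sdiff] at hw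
        simp only [mem_union, mem_sdiff, mem_insert, hQ]
        tauto
      have h6 := (card_le_card h5).trans (card_union_le _ _)
      have h7 := card_insert_le v B
      omega)
  have hup := coef_le_of_imp F X τ hm hG (((v : ℕ), s) :: ρ) (by
    intro l hl
    rcases List.mem_cons.1 hl with h | h
    · rw [h]; exact v.2
    · exact hρv l h) h3
  have hmid : PP (fun z => agr Q x' z ∧ ∀ i ∈ I, ¬ agr (T i) (b i) z) ≤
      PP (fun z : Cube n => ¬ ff n F z ∧ satL (UU n (((v : ℕ), s) :: ρ)) z) := by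
    refine PP_mono fun z hz => ⟨fun hfz => ?_, fun l hl => ?_⟩
    · obtain ⟨i, hi, hiz⟩ := (hf z).1 hfz
      exact hz.2 i hi hiz
    · rw [mem_UU] at hl
      rcases List.mem_cons.1 hl with h | h
      · rw [Prod.mk.injEq] at h
        have h8 : l.1 = v := Fin.ext h.1
        rw [h.2, h8, ← hxv]
        exact hz.1 v (mem_insert_self _ _)
      · have h9 : (l.1 : ℕ) ≠ v := by
          have := h1 _ h
          simpa using this
        have h10 : l.1 ≠ v := fun h => h9 (by rw [h])
        have h11 : l.1 ∈ Q := by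
          rw [hQ, mem_insert, mem_union]
          right
          rcases List.mem_append.1 h with h | h
          · left
            exact hV _ ((mem_UU_asg V x0 l).1 ((mem_UU _ _).2 h)).1
          · right
            rw [hB, mem_SS]
            exact List.mem_map.2 ⟨_, h, rfl⟩
        rw [hz.1 l.1 h11, hxx l.1 h10]
        exact hxs l ((mem_UU _ _).2 h)
  have h12 : ε / 4 ^ (Vs.card + r + 1) ≤ ε / 4 ^ Q.card := by
    refine div_le_div_of_nonneg_left hε.le (by positivity) ?_
    exact pow_le_pow_right₀ (by norm_num) hQc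
  linarith

end Pool.Agent.Helper91K9.DL
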