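import Pool.Agent.Helper91K9.DL.Defs

/-!
# The learning algorithm for read-`k` DNF formulas with identification of the short terms
-/

namespace Pool.Agent.Helper91K9.DL

open Pool.Agent.NPC

/-- No negative example satisfies the term. -/
def imp (neg : List (List Bool)) (ρ : List (ℕ × Bool)) : Bool := neg.all fun x => !(termVal ρ x)

/-- The term `ρ` is satisfied by a negative example, and by none with one of the values of the
variable `v`, which does not occur in `ρ`. -/
def splits (neg : List (List Bool)) (v : ℕ) (ρ : List (ℕ × Bool)) : Bool :=
  (ρ.all fun l => !(l.1 == v)) &&
    (!(imp neg ρ) && (imp neg ((v, true) :: ρ) || imp neg ((v, false) :: ρ)))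

/-- The variable `v` splits some `a ++ β`, `a` in the list and `β` a term with at most `r`
literals. -/
def crit (n r : ℕ) (neg : List (List Bool)) (As : List (List (ℕ × Bool))) (v : ℕ) : Bool :=
  As.any fun a => (parts n r).any fun β => splits neg v (a ++ β)

/-- Both values of the variable `v` are appended. -/
def addVar (As : List (List (ℕ × Bool))) (v : ℕ) : List (List (ℕ × Bool)) :=
  As.flatMap fun a => [(v, true) :: a, (v, false) :: a]

/-- One step of the search for the variables of the short terms. -/
def findStep (n m r : ℕ) (neg : List (List Bool)) (As : List (List (ℕ × Bool))) :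
    List (List (ℕ × Bool)) :=
  if m < 2 * As.length ∨ ((List.range n).filter (crit n r neg As)).length = 0 then As
  else addVar As (((List.range n).filter (crit n r neg As)).head?.getD 0)

/-- The search: the list of all assignments of the variables found. -/
def find (n m r : ℕ) (neg : List (List Bool)) : List (List (ℕ × Bool)) :=
  (List.range (n + 1)).foldl (fun As _ => findStep n m r neg As) [[]]

/-- The candidate terms. -/
def cands2 (k n m D : ℕ) (neg : List (List Bool)) (As : List (List (ℕ × Bool))) :
    List (List (ℕ × Bool)) :=
  As ++ As.flatMap fun a => (parts n k).flatMap fun β => (List.range n).flatMap fun i =>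
    (grow n m D neg (a ++ β) i).map fun S => a ++ S.map fun j => (j, sgn neg (a ++ β) i j)

/-- The learning algorithm: the input is the accuracy parameter `a` and a list of examples. -/
def learn2 (k r K : ℕ) (p : ℕ × List (List Bool × Bool)) : List (List (ℕ × Bool)) :=
  if 4 * p.1 * (negs p.2).length < 3 * p.2.length then [[]] else
    (cands2 k (nvars p.2) p.2.length (thr K (nvars p.2) p.1) (negs p.2)
      (find (nvars p.2) p.2.length r (negs p.2))).filter fun t => imp (negs p.2) t

end Pool.Agent.Helper91K9.DL
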