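import Pool.Agent.Helper91K9.DL.Link

/-!
# The family of subcubes of a formula
-/

namespace Pool.Agent.Helper91K9.DL

open Finset

variable {n : ℕ}

theorem length_filter_eq {α : Type} (F : List α) (p : α → Bool) :
    (F.filter p).length = (univ.filter fun i : Fin F.length => p (F.get i) = true).card := by
  rw [← card_filter_fin (fun i : Fin F.length => p (F.get i))]
  have h : F = (List.finRange F.length).map F.get := by
    rw [← List.ofFn_eq_map, List.ofFn_get]
  have h2 : (F.filter p).length = (((List.finRange F.length).map F.get).filter p).length := by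
    rw [← h]
  rw [h2, List.filter_map, List.length_map]
  rfl

/-- No variable occurs with both signs. -/
def Cns (t : List (ℕ × Bool)) : Prop := ∀ v, ¬ ((v, true) ∈ t ∧ (v, false) ∈ t)

open Classical in
/-- The variables of a term. -/
noncomputable def TV (n : ℕ) (t : List (ℕ × Bool)) : Finset (Fin n) :=
  univ.filter fun v => ∃ b, ((v : ℕ), b) ∈ t

/-- The point of a term. -/
def AV (n : ℕ) (t : List (ℕ × Bool)) : Cube n := fun v => decide (((v : ℕ), true) ∈ t)

theorem mem_TV (t : List (ℕ × Bool)) (v : Fin n) : v ∈ TV n t ↔ ∃ b, ((v : ℕ), b) ∈ t := by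
  classical
  simp [TV]

theorem satL_iff (t : List (ℕ × Bool)) (x : Cube n) :
    satL (UU n t) x ↔ agr (TV n t) (AV n t) x ∧ ∀ v : Fin n, ¬ (((v : ℕ), true) ∈ t ∧ ((v : ℕ), false) ∈ t) := by
  constructor
  · intro h
    have hc : ∀ v : Fin n, ¬ (((v : ℕ), true) ∈ t ∧ ((v : ℕ), false) ∈ t) := by
      rintro v ⟨h1, h2⟩
      have e1 := h (v, true) ((mem_UU t _).2 h1)
      have e2 := h (v, false) ((mem_UU t _).2 h2)
      rw [e1] at e2
      exact absurd e2 (by simp)
    refine ⟨?_, hc⟩
    intro v hv
    obtain ⟨b, hb⟩ := (mem_TV t v).1 hv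
    have e := h (v, b) ((mem_UU t _).2 hb)
    simp only at e
    rw [e]
    unfold AV
    cases b with
    | true => simp [hb]
    | false =>
      have : ((v : ℕ), true) ∉ t := fun h' => hc v ⟨h', hb⟩
      simp [this]
  · rintro ⟨h, hc⟩ ⟨v, b⟩ hl
    have hb := (mem_UU t _).1 hl
    simp only at hb ⊢
    rw [h v ((mem_TV t v).2 ⟨b, hb⟩)]
    unfold AV
    cases b with
    | true => simp [hb]
    | false =>
      have : ((v : ℕ), true) ∉ t := fun h' => hc v ⟨h', hb⟩
      simp [this]

theorem family (n : ℕ) (F : List (List (ℕ × Bool))) (hF : ∀ t ∈ F, ∀ l ∈ t, l.1 < n) :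
    ∃ (ι : Type) (I : Finset ι) (T : ι → Finset (Fin n)) (a : ι → Cube n),
      (∀ x, ff n F x ↔ ∃ i ∈ I, agr (T i) (a i) x) ∧
      (∀ v : Fin n, (open Classical in (I.filter fun i => v ∈ T i)).card ≤
        (F.filter fun t => t.any fun l => l.1 == (v : ℕ)).length) ∧
      ∀ W : ℕ, (open Classical in (I.filter fun i => (T i).card < W)).card ≤
        (F.filter fun t => decide ((t.map Prod.fst).toFinset.card < W)).length := by
  classical
  refine ⟨Fin F.length, univ.filter fun i => ∀ v : Fin n,
    ¬ (((v : ℕ), true) ∈ F.get i ∧ ((v : ℕ), false) ∈ F.get i),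
    fun i => TV n (F.get i), fun i => AV n (F.get i), ?_, ?_, ?_⟩
  · intro x
    unfold ff dnfVal
    rw [List.any_eq_true]
    constructor
    · rintro ⟨t, ht, h⟩
      obtain ⟨i, rfl⟩ := List.get_of_mem ht
      rw [termVal_iff _ (hF _ ht), satL_iff] at h
      exact ⟨i, by simpa using h.2, h.1⟩
    · rintro ⟨i, hi, h⟩
      refine ⟨F.get i, List.get_mem _ _, ?_⟩
      rw [termVal_iff _ (hF _ (List.get_mem _ _)), satL_iff]
      exact ⟨h, by simpa using hi⟩
  · intro v
    rw [length_filter_eq]
    apply card_le_card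
    intro i hi
    simp only [mem_filter, mem_univ, true_and] at hi ⊢
    obtain ⟨b, hb⟩ := (mem_TV _ v).1 hi.2
    rw [List.any_eq_true]
    exact ⟨_, hb, by simp⟩
  · intro W
    rw [length_filter_eq]
    apply card_le_card
    intro i hi
    simp only [mem_filter, mem_univ, true_and, decide_eq_true_eq] at hi ⊢
    refine lt_of_le_of_lt ?_ hi.2
    calc ((F.get i).map Prod.fst).toFinset.card ≤ ((TV n (F.get i)).image fun v : Fin n => (v : ℕ)).card := by
          apply card_le_card
          intro v hv
          rw [List.mem_toFinset, List.mem_map] at hv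
          obtain ⟨⟨w, b⟩, hl, rfl⟩ := hv
          rw [mem_image]
          have hw := hF _ (List.get_mem F i) _ hl
          exact ⟨⟨w, hw⟩, (mem_TV _ _).2 ⟨b, hl⟩, rfl⟩
      _ ≤ _ := card_image_le

end Pool.Agent.Helper91K9.DL
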