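import Pool.Agent.Helper91K9.DL.Leaves2

/-!
# The search for the variables of the short terms
-/

namespace Pool.Agent.Helper91K9.DL

open Finset

variable {n : ℕ}

theorem rep_nil : Rep [[]] ([] : List (Fin n)) := by
  refine ⟨List.nodup_nil, ?_, ?_, by simp⟩
  · intro a ha
    rw [List.mem_singleton] at ha
    exact ⟨fun _ => false, by rw [ha]; rfl⟩
  · intro x
    rw [List.mem_singleton]
    rfl

theorem asg_cons (v : Fin n) (V : List (Fin n)) (x : Cube n) :
    asg (v :: V) x = ((v : ℕ), x v) :: asg V x := rfl

theorem asg_update (v : Fin n) (V : List (Fin n)) (hv : v ∉ V) (x : Cube n) (s : Bool) :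
    asg V (Function.update x v s) = asg V x := by
  unfold asg
  refine List.map_congr_left fun w hw => ?_
  rw [Function.update_of_ne]
  rintro rfl
  exact hv hw

theorem rep_add (As : List (List (ℕ × Bool))) (V : List (Fin n)) (v : Fin n) (hv : v ∉ V)
    (h : Rep As V) : Rep (addVar As v) (v :: V) := by
  obtain ⟨h1, h2, h3, h4⟩ := h
  refine ⟨List.nodup_cons.2 ⟨hv, h1⟩, ?_, ?_, ?_⟩
  · intro a ha
    unfold addVar at ha
    obtain ⟨a', ha', ha⟩ := List.mem_flatMap.1 ha
    obtain ⟨x, rfl⟩ := h2 a' ha'
    obtain ⟨s, rfl⟩ : ∃ s, a = ((v : ℕ), s) :: asg V x := by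
      simp only [List.mem_cons, List.not_mem_nil, or_false] at ha
      rcases ha with rfl | rfl
      · exact ⟨_, rfl⟩
      · exact ⟨_, rfl⟩
    refine ⟨Function.update x v s, ?_⟩
    rw [asg_cons, asg_update v V hv, Function.update_self]
  · intro x
    unfold addVar
    refine List.mem_flatMap.2 ⟨asg V x, h3 x, ?_⟩
    rw [asg_cons]
    cases x v <;> simp
  · unfold addVar
    have : ∀ l : List (List (ℕ × Bool)), (l.flatMap fun a => [((v : ℕ), true) :: a,
        ((v : ℕ), false) :: a]).length = 2 * l.length := fun l => by
      induction l with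
      | nil => rfl
      | cons a l ih => rw [List.flatMap_cons, List.length_append, ih]; simp; ring
    rw [this, h4, List.length_cons, pow_succ, mul_comm]

theorem crit_notMem {r : ℕ} {neg : List (List Bool)} {As : List (List (ℕ × Bool))}
    {V : List (Fin n)} (h : Rep As V) (v : Fin n) (hc : crit n r neg As v = true) : v ∉ V := by
  intro hv
  unfold crit at hc
  rw [List.any_eq_true] at hc
  obtain ⟨a, ha, hc⟩ := hc
  rw [List.any_eq_true] at hc
  obtain ⟨β, hβ, hsp⟩ := hc
  obtain ⟨x0, rfl⟩ := h.2.1 a ha
  unfold splits at hsp
  rw [Bool.and_eq_true, List.all_eq_true] at hsp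
  have h1 := hsp.1 ((v : ℕ), x0 v) (List.mem_append.2 (Or.inl (List.mem_map.2 ⟨v, hv, rfl⟩)))
  simp at h1

theorem loop : S_LOOP := by
  intro n m r neg Vs hm hcr
  have key : ∀ t : ℕ, ∃ V : List (Fin n),
      Rep ((List.range t).foldl (fun As _ => findStep n m r neg As) [[]]) V ∧ (∀ v ∈ V, v ∈ Vs) ∧
      ((∀ v : Fin n, crit n r neg
        ((List.range t).foldl (fun As _ => findStep n m r neg As) [[]]) v = false) ∨
        V.length = t) := by
    intro t
    induction t with
    | zero => exact ⟨[], rep_nil, by simp, Or.inr rfl⟩
    | succ t ih =>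
      obtain ⟨V, h1, h2, h3⟩ := ih
      rw [List.range_succ, List.foldl_append, List.foldl_cons, List.foldl_nil]
      set As := (List.range t).foldl (fun As _ => findStep n m r neg As) [[]] with hAs
      by_cases hall : ∀ v : Fin n, crit n r neg As v = false
      · have he : findStep n m r neg As = As := by
          unfold findStep
          rw [if_pos]
          right
          rw [List.length_eq_zero_iff, List.filter_eq_nil_iff]
          intro j hj
          have := hall ⟨j, List.mem_range.1 hj⟩
          simp only at this
          rw [this]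
          simp
        rw [he]
        exact ⟨V, h1, h2, Or.inl hall⟩
      · have ht : V.length = t := h3.resolve_left hall
        push Not at hall
        obtain ⟨v, hv⟩ := hall
        replace hv : crit n r neg As v = true := by simpa using hv
        have hne : ((List.range n).filter (crit n r neg As)) ≠ [] := by
          intro h
          rw [List.filter_eq_nil_iff] at h
          exact h v (List.mem_range.2 v.2) hv
        obtain ⟨w, tl, hw⟩ := List.exists_cons_of_ne_nil hne
        have hwm : w ∈ (List.range n).filter (crit n r neg As) := by rw [hw]; simp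
        rw [List.mem_filter, List.mem_range] at hwm
        have hwV := crit_notMem h1 (⟨w, hwm.1⟩ : Fin n) hwm.2
        have hwVs := hcr V As h1 h2 ⟨w, hwm.1⟩ hwm.2
        have hlen : V.length + 1 ≤ Vs.card := by
          classical
          rw [← List.toFinset_card_of_nodup h1.1]
          have : insert (⟨w, hwm.1⟩ : Fin n) V.toFinset ⊆ Vs := by
            intro u hu
            rcases Finset.mem_insert.1 hu with h | h
            · rw [h]; exact hwVs
            · exact h2 u (List.mem_toFinset.1 h)
          have h5 := card_le_card this
          rw [card_insert_of_notMem (fun h => hwV (List.mem_toFinset.1 h))] at h5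
          exact h5
        have he : findStep n m r neg As = addVar As w := by
          unfold findStep
          rw [if_neg, hw]
          · simp
          · rw [hw, h1.2.2.2]
            push Not
            refine ⟨?_, by simp⟩
            calc 2 * 2 ^ V.length = 2 ^ (V.length + 1) := by ring
              _ ≤ 2 ^ Vs.card := Nat.pow_le_pow_right (by norm_num) hlen
              _ ≤ m := hm
        rw [he]
        refine ⟨⟨w, hwm.1⟩ :: V, rep_add As V ⟨w, hwm.1⟩ hwV h1, ?_, Or.inr ?_⟩
        · intro u hu
          rcases List.mem_cons.1 hu with h | h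
          · rw [h]; exact hwVs
          · exact h2 u h
        · rw [List.length_cons, ht]
  obtain ⟨V, h1, h2, h3⟩ := key (n + 1)
  refine ⟨V, h1, h2, ?_⟩
  rcases h3 with h | h
  · exact h
  · exfalso
    have h4 : V.length ≤ n := by
      have := h1.1.length_le_card
      simpa using this
    omega

end Pool.Agent.Helper91K9.DL
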