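import Pool.Agent.Helper91K9.DL.Narrow
import Pool.Agent.Helper91K9.DL.Leaves2

/-!
# The number of the short terms is logarithmic
-/

namespace Pool.Agent.Helper91K9.DL

open Finset

theorem one_sub_pow_le (W : ℕ) : (1 - (1 / 2 : ℝ) ^ W) ^ (2 ^ W) ≤ 1 / 2 := by
  have h1 : (1 / 2 : ℝ) ^ W ≤ 1 := pow_le_one₀ (by norm_num) (by norm_num)
  have h2 : 1 - (1 / 2 : ℝ) ^ W ≤ Real.exp (-(1 / 2 : ℝ) ^ W) := by
    have := Real.add_one_le_exp (-(1 / 2 : ℝ) ^ W)
    linarith
  calc (1 - (1 / 2 : ℝ) ^ W) ^ (2 ^ W) ≤ (Real.exp (-(1 / 2 : ℝ) ^ W)) ^ (2 ^ W) :=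
        pow_le_pow_left₀ (by linarith) h2 _
    _ = Real.exp (-1) := by
        rw [← Real.exp_nat_mul]
        congr 1
        push_cast
        rw [mul_neg, ← mul_pow]
        norm_num
    _ ≤ 1 / 2 := by
        rw [Real.exp_neg, ← one_div]
        refine one_div_le_one_div_of_le (by norm_num) ?_
        have := Real.add_one_le_exp (1 : ℝ)
        linarith

theorem narrow2 : S_NARROW2 := by
  classical
  intro k W a n ι I T b ha hread hP
  have ha0 : (0 : ℝ) < a := by exact_mod_cast ha
  have hε : (0 : ℝ) < 1 / (2 * (a : ℝ)) := by positivity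
  have hr0 : (0 : ℝ) ≤ 1 - (1 / 2) ^ W := by
    have : (1 / 2 : ℝ) ^ W ≤ 1 := pow_le_one₀ (by norm_num) (by norm_num)
    linarith
  have hread' : ∀ v, (I.filter fun i => v ∈ T i).card ≤ k := by
    intro v
    convert hread v
  set F := I.filter fun i => (T i).card < W with hF
  -- maximal disjoint subfamily
  have hne : ((F.powerset).filter fun M => PwD T M).Nonempty :=
    ⟨∅, mem_filter.2 ⟨empty_mem_powerset _, fun i hi => by simp at hi⟩⟩
  obtain ⟨M, hM, hmax⟩ := exists_max_image _ (fun M : Finset ι => M.card) hne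
  rw [mem_filter, mem_powerset] at hM
  obtain ⟨hMF, hMd⟩ := hM
  -- all sets are nonempty
  have hpos : ∀ i ∈ I, (T i).Nonempty := by
    intro i hi
    by_contra h
    rw [not_nonempty_iff_eq_empty] at h
    have : PP (fun x => ∀ i ∈ I, ¬ agr (T i) (b i) x) ≤ PP (fun _ : Cube n => ¬ True) := by
      apply PP_mono
      intro x hx
      exact absurd (show agr (T i) (b i) x by intro v hv; rw [h] at hv; simp at hv) (hx i hi)
    have h0 : PP (fun _ : Cube n => ¬ True) = 0 := by
      rw [PP_eq]; simp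
    linarith
  have hMcard : 2 ^ M.card ≤ (2 * a) ^ (2 ^ W) := by
    have h1 : PP (fun x => ∀ i ∈ I, ¬ agr (T i) (b i) x) ≤ PP (NN T b M) := by
      apply PP_mono
      intro x hx i hi
      exact hx i (filter_subset _ _ (hMF hi))
    have h2 := NN_disjoint T b W M (fun i hi => ((mem_filter.1 (hMF hi)).2).le) hMd
    have h3 : (1 / (2 * (a : ℝ))) ^ (2 ^ W) ≤ (1 / 2) ^ M.card := by
      calc (1 / (2 * (a : ℝ))) ^ (2 ^ W) ≤ ((1 - (1 / 2) ^ W) ^ M.card) ^ (2 ^ W) :=
            pow_le_pow_left₀ hε.le (hP.trans (h1.trans h2)) _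
        _ = ((1 - (1 / 2) ^ W) ^ (2 ^ W)) ^ M.card := by rw [← pow_mul, ← pow_mul, mul_comm]
        _ ≤ (1 / 2) ^ M.card := pow_le_pow_left₀ (by positivity) (one_sub_pow_le W) _
    rw [div_pow, div_pow, one_pow, one_pow, div_le_div_iff₀ (by positivity) (by positivity),
      one_mul, one_mul] at h3
    exact_mod_cast h3
  -- every short term meets the union
  have hsub : F ⊆ F.filter fun j => ¬ Disjoint (T j) (M.biUnion T) := by
    intro j hj
    rw [mem_filter]
    refine ⟨hj, ?_⟩
    intro hdis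
    have hjI : j ∈ I := filter_subset _ _ hj
    have hjM : j ∉ M := by
      intro hjM
      obtain ⟨v, hv⟩ := hpos j hjI
      exact Finset.disjoint_left.1 hdis hv (mem_biUnion.2 ⟨j, hjM, hv⟩)
    have hnew : insert j M ∈ (F.powerset).filter fun M => PwD T M := by
      rw [mem_filter, mem_powerset]
      refine ⟨insert_subset hj hMF, ?_⟩
      have hdj : ∀ i ∈ M, Disjoint (T j) (T i) := by
        intro i hi
        exact hdis.mono_right (subset_biUnion_of_mem T hi)
      intro i hi i' hi' hne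
      rw [mem_insert] at hi hi'
      rcases hi with rfl | hi <;> rcases hi' with rfl | hi'
      · exact absurd rfl hne
      · exact hdj i' hi'
      · exact (hdj i hi).symm
      · exact hMd i hi i' hi' hne
    have := hmax _ hnew
    rw [card_insert_of_notMem hjM] at this
    omega
  have h1 := card_meet I F T k hread' (filter_subset _ _) (M.biUnion T)
  have h2 : (M.biUnion T).card ≤ M.card * W := by
    apply card_biUnion_le_card_mul
    intro i hi
    exact ((mem_filter.1 (hMF hi)).2).le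
  have hgoal : F.card ≤ M.card * (k * W) := by
    calc F.card ≤ _ := card_le_card hsub
      _ ≤ k * (M.biUnion T).card := h1
      _ ≤ k * (M.card * W) := Nat.mul_le_mul_left _ h2
      _ = _ := by ring
  have hfin : 2 ^ F.card ≤ (2 * a) ^ (k * W * 2 ^ W) := by
    calc 2 ^ F.card ≤ 2 ^ (M.card * (k * W)) := Nat.pow_le_pow_right (by norm_num) hgoal
      _ = (2 ^ M.card) ^ (k * W) := by rw [pow_mul]
      _ ≤ ((2 * a) ^ (2 ^ W)) ^ (k * W) := Nat.pow_le_pow_left hMcard _
      _ = _ := by rw [← pow_mul, mul_comm (2 ^ W)]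
  convert hfin

end Pool.Agent.Helper91K9.DL
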