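import Pool.Agent.Helper91K9.DL.Poly
import Pool.Agent.Helper91K9.DL.Leaves2

/-!
# The second learning algorithm runs in polynomial time
-/

namespace Pool.Agent.Helper91K9.DL

open Pool.Agent.NPC

section

variable {α : Type} [TEnc α]

theorem imp_poly {neg : α → List (List Bool)} {ρ : α → List (ℕ × Bool)} (hneg : Poly neg)
    (hρ : Poly ρ) : Poly (fun a => imp (neg a) (ρ a)) :=
  NPC.Poly.all (p := fun a x => !(termVal (ρ a) x)) hneg
    (NPC.Poly.not (termVal_poly (hρ.comp (NPC.Poly.fst NPC.Poly.id)) (NPC.Poly.snd NPC.Poly.id)))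

theorem splits_poly {neg : α → List (List Bool)} {v : α → ℕ} {ρ : α → List (ℕ × Bool)}
    (hneg : Poly neg) (hv : Poly v) (hρ : Poly ρ) :
    Poly (fun a => splits (neg a) (v a) (ρ a)) := by
  have h1 : Poly (fun a => (ρ a).all fun l => !(l.1 == v a)) := by
    refine NPC.Poly.all (p := fun a l => !(l.1 == v a)) hρ (NPC.Poly.not ?_)
    exact (NPC.Poly.decide_eq (NPC.Poly.fst (NPC.Poly.snd NPC.Poly.id))
      (hv.comp (NPC.Poly.fst NPC.Poly.id))).congr fun a => by
        simp only [beq_eq_decide]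
  have h2 : ∀ s : Bool, Poly (fun a => imp (neg a) ((v a, s) :: ρ a)) := fun s =>
    imp_poly hneg (NPC.Poly.cons (NPC.Poly.pair hv (NPC.Poly.const s)) hρ)
  exact NPC.Poly.and h1 (NPC.Poly.and (NPC.Poly.not (imp_poly hneg hρ))
    (NPC.Poly.or (h2 true) (h2 false)))

theorem crit_poly (r : ℕ) {n : α → ℕ} {neg : α → List (List Bool)}
    {As : α → List (List (ℕ × Bool))} {v : α → ℕ}
    (hn : UPoly n) (hneg : Poly neg) (hAs : Poly As) (hv : Poly v) :
    Poly (fun a => crit (n a) r (neg a) (As a) (v a)) := by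
  refine NPC.Poly.any (p := fun a b => (parts (n a) r).any fun β =>
    splits (neg a) (v a) (b ++ β)) hAs ?_
  have h1 : Poly (fun p : α × List (ℕ × Bool) => p.1) := NPC.Poly.fst NPC.Poly.id
  have h2 : Poly (fun p : α × List (ℕ × Bool) => p.2) := NPC.Poly.snd NPC.Poly.id
  refine NPC.Poly.any (p := fun (a : α × List (ℕ × Bool)) β =>
    splits (neg a.1) (v a.1) (a.2 ++ β)) (parts_poly (UPoly.comp hn h1) r) ?_
  have h3 : Poly (fun p : (α × List (ℕ × Bool)) × List (ℕ × Bool) => p.1.1) :=
    NPC.Poly.fst (NPC.Poly.fst NPC.Poly.id)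
  exact splits_poly (hneg.comp h3) (hv.comp h3) (NPC.Poly.append
    (NPC.Poly.snd (NPC.Poly.fst NPC.Poly.id)) (NPC.Poly.snd NPC.Poly.id))

theorem addVar_poly {As : α → List (List (ℕ × Bool))} {v : α → ℕ} (hAs : Poly As) (hv : Poly v) :
    Poly (fun a => addVar (As a) (v a)) := by
  refine NPC.Poly.flatMap (F := fun a b => [(v a, true) :: b, (v a, false) :: b]) hAs ?_
  have h1 : Poly (fun p : α × List (ℕ × Bool) => p.1) := NPC.Poly.fst NPC.Poly.id
  have h2 : Poly (fun p : α × List (ℕ × Bool) => p.2) := NPC.Poly.snd NPC.Poly.id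
  have h3 : ∀ s : Bool, Poly (fun p : α × List (ℕ × Bool) => (v p.1, s) :: p.2) := fun s =>
    NPC.Poly.cons (NPC.Poly.pair (hv.comp h1) (NPC.Poly.const s)) h2
  exact NPC.Poly.cons (h3 true) (NPC.Poly.cons (h3 false) (NPC.Poly.const []))

theorem critList_poly (r : ℕ) {n : α → ℕ} {neg : α → List (List Bool)}
    {As : α → List (List (ℕ × Bool))} (hn : UPoly n) (hneg : Poly neg) (hAs : Poly As) :
    Poly (fun a => (List.range (n a)).filter (crit (n a) r (neg a) (As a))) := by
  have h1 : Poly (fun p : α × ℕ => p.1) := NPC.Poly.fst NPC.Poly.id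
  have h2 : Poly (fun p : α × ℕ => p.2) := NPC.Poly.snd NPC.Poly.id
  exact NPC.Poly.filter (p := fun a v => crit (n a) r (neg a) (As a) v) hn.range
    (crit_poly r (UPoly.comp hn h1) (hneg.comp h1) (hAs.comp h1) h2)

theorem findStep_poly (r : ℕ) {n m : α → ℕ} {neg : α → List (List Bool)}
    {As : α → List (List (ℕ × Bool))} (hn : UPoly n) (hm : Poly m) (hneg : Poly neg)
    (hAs : Poly As) : Poly (fun a => findStep (n a) (m a) r (neg a) (As a)) := by
  have h1 := critList_poly r hn hneg hAs
  unfold findStep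
  refine NPC.Poly.ite ?_ hAs (addVar_poly hAs (NPC.Poly.head?_getD h1 0))
  have h2 := NPC.Poly.or (NPC.Poly.decide_lt hm (NPC.Poly.mul (NPC.Poly.const 2)
    (NPC.Poly.length hAs))) (NPC.Poly.decide_eq (NPC.Poly.length h1) (NPC.Poly.const 0))
  exact h2.congr fun a => by rw [Bool.decide_or]

end

/-- The assignments in the lists during the search. -/
theorem find_inv (n m r : ℕ) (neg : List (List Bool)) : ∀ k : ℕ,
    ((List.range k).foldl (fun As _ => findStep n m r neg As) [[]]).length ≤ max 1 m ∧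
      ∀ a ∈ (List.range k).foldl (fun As _ => findStep n m r neg As) [[]],
        a.length ≤ k ∧ ∀ l ∈ a, sz l ≤ 4 * n + 5 := by
  intro k
  induction k with
  | zero => simp
  | succ k ih =>
    obtain ⟨h1, h2⟩ := ih
    rw [List.range_succ, List.foldl_append, List.foldl_cons, List.foldl_nil]
    set As := (List.range k).foldl (fun As _ => findStep n m r neg As) [[]]
    unfold findStep
    split_ifs with h
    · exact ⟨h1, fun a ha => ⟨(h2 a ha).1.trans (by omega), (h2 a ha).2⟩⟩
    · push Not at h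
      obtain ⟨h3, h4⟩ := h
      have hne : ((List.range n).filter (crit n r neg As)) ≠ [] := by
        intro he; rw [he] at h4; simp at h4
      obtain ⟨w, tl, hw⟩ := List.exists_cons_of_ne_nil hne
      have hwm : w ∈ (List.range n).filter (crit n r neg As) := by rw [hw]; simp
      rw [List.mem_filter, List.mem_range] at hwm
      have hszw : sz w ≤ 4 * n + 1 := by
        have h5 := sz_nat_le w
        have h6 := NPC.Poly.size_le_self w
        omega
      rw [hw]
      simp only [List.head?_cons, Option.getD_some]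
      unfold addVar
      constructor
      · have : ∀ l : List (List (ℕ × Bool)), (l.flatMap fun a => [(w, true) :: a,
            (w, false) :: a]).length = 2 * l.length := fun l => by
          induction l with
          | nil => rfl
          | cons a l ih => rw [List.flatMap_cons, List.length_append, ih]; simp; ring
        rw [this]
        exact h3.trans (le_max_right _ _)
      · intro a ha
        obtain ⟨b, hb, ha⟩ := List.mem_flatMap.1 ha
        obtain ⟨s, rfl⟩ : ∃ s, a = (w, s) :: b := by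
          simp only [List.mem_cons, List.not_mem_nil, or_false] at ha
          rcases ha with rfl | rfl
          · exact ⟨_, rfl⟩
          · exact ⟨_, rfl⟩
        obtain ⟨h5, h6⟩ := h2 b hb
        refine ⟨by rw [List.length_cons]; omega, fun l hl => ?_⟩
        rcases List.mem_cons.1 hl with rfl | hl
        · rw [sz_pair]
          have := sz_bool_le s
          omega
        · exact h6 l hl

section

variable {α : Type} [TEnc α]

theorem find_poly (r : ℕ) {n m : α → ℕ} {neg : α → List (List Bool)}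
    (hn : UPoly n) (hm : UPoly m) (hneg : Poly neg) :
    Poly (fun a => find (n a) (m a) r (neg a)) := by
  obtain ⟨p, hp⟩ := UPoly.sz_le hn
  obtain ⟨s, hs⟩ := UPoly.sz_le hm
  have h1 : Poly (fun p : α × List (List (ℕ × Bool)) × ℕ => p.1) := NPC.Poly.fst NPC.Poly.id
  refine NPC.Poly.foldl (F := fun a As _ => findStep (n a) (m a) r (neg a) As)
    (UPoly.range (UPoly.add hn (UPoly.const 1))) (NPC.Poly.const [[]])
    (findStep_poly r (UPoly.comp hn h1) (hm.toPoly.comp h1) (hneg.comp h1)
      (NPC.Poly.fst (NPC.Poly.snd NPC.Poly.id)))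
    ((s + 1) * ((p + 1) * (Polynomial.C 4 * p + Polynomial.C 6) + Polynomial.C 2) +
      Polynomial.C 1) ?_
  intro a k hk
  rw [List.length_range] at hk
  have hr : (List.range (n a + 1)).take k = List.range k := by
    rw [List.take_range, min_eq_left hk]
  rw [hr]
  obtain ⟨h2, h3⟩ := find_inv (n a) (m a) r (neg a) k
  have h4 := sz_le_length_mul ((List.range k).foldl
    (fun As _ => findStep (n a) (m a) r (neg a) As) [[]])
    ((n a + 1) * (4 * n a + 5 + 1) + 1) (by
      intro S hS
      obtain ⟨h5, h6⟩ := h3 S hS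
      refine (sz_le_length_mul S (4 * n a + 5) h6).trans ?_
      have h7 : S.length ≤ n a + 1 := by omega
      exact Nat.add_le_add_right (Nat.mul_le_mul_right _ h7) 1)
  refine h4.trans ?_
  have e1 := hp a
  have e2 := hs a
  simp only [Polynomial.eval_add, Polynomial.eval_mul, Polynomial.eval_C, Polynomial.eval_one]
  refine Nat.add_le_add_right ?_ 1
  refine Nat.mul_le_mul ?_ ?_
  · refine h2.trans (max_le (by omega) (by omega))
  · have : (n a + 1) * (4 * n a + 5 + 1) ≤
        (p.eval (sz a) + 1) * (4 * p.eval (sz a) + 6) :=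
      Nat.mul_le_mul (by omega) (by omega)
    omega

theorem c2lvl2 {n m D : α → ℕ} {neg : α → List (List Bool)} {ρ a' : α → List (ℕ × Bool)}
    {i : α → ℕ} (hn : UPoly n) (hm : UPoly m) (hD : Poly D) (hneg : Poly neg) (hρ : Poly ρ)
    (ha' : Poly a') (hi : Poly i) :
    Poly (fun a => (grow (n a) (m a) (D a) (neg a) (ρ a) (i a)).map fun S =>
      a' a ++ S.map fun j => (j, sgn (neg a) (ρ a) (i a) j)) := by
  have h1 : Poly (fun p : α × List ℕ => p.1) := NPC.Poly.fst NPC.Poly.id
  have h2 : Poly (fun p : α × List ℕ => p.2) := NPC.Poly.snd NPC.Poly.id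
  exact NPC.Poly.map (F := fun a S => a' a ++ S.map fun j => (j, sgn (neg a) (ρ a) (i a) j))
    (grow_poly hn hm hD hneg hρ hi)
    (lvl0 (hneg.comp h1) (hρ.comp h1) (hi.comp h1) h2 (ha'.comp h1))

theorem c2lvl3 {n m D : α → ℕ} {neg : α → List (List Bool)} {ρ a' : α → List (ℕ × Bool)}
    (hn : UPoly n) (hm : UPoly m) (hD : Poly D) (hneg : Poly neg) (hρ : Poly ρ)
    (ha' : Poly a') :
    Poly (fun a => (List.range (n a)).flatMap fun i =>
      (grow (n a) (m a) (D a) (neg a) (ρ a) i).map fun S =>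
      a' a ++ S.map fun j => (j, sgn (neg a) (ρ a) i j)) := by
  have h1 : Poly (fun p : α × ℕ => p.1) := NPC.Poly.fst NPC.Poly.id
  have h2 : Poly (fun p : α × ℕ => p.2) := NPC.Poly.snd NPC.Poly.id
  exact NPC.Poly.flatMap (F := fun a i => (grow (n a) (m a) (D a) (neg a) (ρ a) i).map fun S =>
      a' a ++ S.map fun j => (j, sgn (neg a) (ρ a) i j))
    (UPoly.range hn)
    (c2lvl2 (UPoly.comp hn h1) (UPoly.comp hm h1) (hD.comp h1) (hneg.comp h1) (hρ.comp h1)
      (ha'.comp h1) h2)

theorem c2lvl4 (k : ℕ) {n m D : α → ℕ} {neg : α → List (List Bool)} {a' : α → List (ℕ × Bool)}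
    (hn : UPoly n) (hm : UPoly m) (hD : Poly D) (hneg : Poly neg) (ha' : Poly a') :
    Poly (fun a => (parts (n a) k).flatMap fun β => (List.range (n a)).flatMap fun i =>
      (grow (n a) (m a) (D a) (neg a) (a' a ++ β) i).map fun S =>
      a' a ++ S.map fun j => (j, sgn (neg a) (a' a ++ β) i j)) := by
  have h1 : Poly (fun p : α × List (ℕ × Bool) => p.1) := NPC.Poly.fst NPC.Poly.id
  have h2 : Poly (fun p : α × List (ℕ × Bool) => p.2) := NPC.Poly.snd NPC.Poly.id
  have h3 := c2lvl3 (α := α × List (ℕ × Bool)) (n := fun p => n p.1) (m := fun p => m p.1)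
    (D := fun p => D p.1) (neg := fun p => neg p.1) (ρ := fun p => a' p.1 ++ p.2)
    (a' := fun p => a' p.1) (UPoly.comp hn h1)
    (UPoly.comp hm h1) (hD.comp h1) (hneg.comp h1) (NPC.Poly.append (ha'.comp h1) h2) (ha'.comp h1)
  have h4 := parts_poly hn k
  refine NPC.Poly.flatMap h4 ?_
  exact h3

theorem cands2_poly (k : ℕ) {n m D : α → ℕ} {neg : α → List (List Bool)}
    {As : α → List (List (ℕ × Bool))}
    (hn : UPoly n) (hm : UPoly m) (hD : Poly D) (hneg : Poly neg) (hAs : Poly As) :
    Poly (fun a => cands2 k (n a) (m a) (D a) (neg a) (As a)) := by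
  have h1 : Poly (fun p : α × List (ℕ × Bool) => p.1) := NPC.Poly.fst NPC.Poly.id
  have h2 : Poly (fun p : α × List (ℕ × Bool) => p.2) := NPC.Poly.snd NPC.Poly.id
  have h3 := c2lvl4 (α := α × List (ℕ × Bool)) (n := fun p => n p.1) (m := fun p => m p.1)
    (D := fun p => D p.1) (neg := fun p => neg p.1) (a' := fun p => p.2) k (UPoly.comp hn h1)
    (UPoly.comp hm h1) (hD.comp h1) (hneg.comp h1) h2
  have h4 : Poly (fun a => (As a).flatMap fun b => (parts (n a) k).flatMap fun β =>
      (List.range (n a)).flatMap fun i =>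
      (grow (n a) (m a) (D a) (neg a) (b ++ β) i).map fun S =>
      b ++ S.map fun j => (j, sgn (neg a) (b ++ β) i j)) := by
    refine NPC.Poly.flatMap hAs ?_
    exact h3
  have h := NPC.Poly.append hAs h4
  refine h.congr fun a => ?_
  rw [cands2]

end

theorem poly_learn2 : S_POLY2 := by
  intro k r K
  have h1 : Poly (fun p : ℕ × List (List Bool × Bool) => p.2) := NPC.Poly.snd NPC.Poly.id
  have h2 : Poly (fun p : ℕ × List (List Bool × Bool) => negs p.2) := negs_poly.comp h1
  have h3 : UPoly (fun p : ℕ × List (List Bool × Bool) => nvars p.2) := nvars_upoly.comp h1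
  have h4 : UPoly (fun p : ℕ × List (List Bool × Bool) => p.2.length) := UPoly.length h1
  refine NPC.Poly.ite (NPC.Poly.decide_lt (NPC.Poly.mul (NPC.Poly.mul (NPC.Poly.const 4) (NPC.Poly.fst NPC.Poly.id))
    (NPC.Poly.length h2)) (NPC.Poly.mul (NPC.Poly.const 3) h4.toPoly)) (NPC.Poly.const [[]]) ?_
  refine NPC.Poly.filter (p := fun (p : ℕ × List (List Bool × Bool)) t => imp (negs p.2) t)
    (cands2_poly k h3 h4 (thr_poly K h3.toPoly (NPC.Poly.fst NPC.Poly.id)) h2
      (find_poly r h3 h4 h2)) ?_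
  exact imp_poly (h2.comp (NPC.Poly.fst NPC.Poly.id)) (NPC.Poly.snd NPC.Poly.id)

end Pool.Agent.Helper91K9.DL
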