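import Pool.Agent.Helper91K9.DL.Defs

/-!
# The lists of at most `r` literals
-/

namespace Pool.Agent.Helper91K9.DL

theorem mem_lits {n : ℕ} {l : ℕ × Bool} : l ∈ lits n ↔ l.1 < n := by
  unfold lits
  rw [List.mem_flatMap]
  constructor
  · rintro ⟨j, hj, h⟩
    rw [List.mem_range] at hj
    simp only [List.mem_cons, List.not_mem_nil, or_false] at h
    rcases h with rfl | rfl <;> exact hj
  · intro h
    refine ⟨l.1, List.mem_range.2 h, ?_⟩
    obtain ⟨j, b⟩ := l
    cases b <;> simp

theorem length_lits (n : ℕ) : (lits n).length = 2 * n := by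
  unfold lits
  rw [List.length_flatMap]
  simp
  ring

theorem parts_vars {n r : ℕ} {ρ : List (ℕ × Bool)} (h : ρ ∈ parts n r) : ∀ l ∈ ρ, l.1 < n := by
  induction r generalizing ρ with
  | zero =>
    simp only [parts, List.mem_cons, List.not_mem_nil, or_false] at h
    subst h
    intro l hl
    simp at hl
  | succ r ih =>
    simp only [parts, List.mem_append, List.mem_flatMap, List.mem_map] at h
    rcases h with h | ⟨ρ', h', l, hl, rfl⟩
    · exact ih h
    · intro l' hl'
      rcases List.mem_cons.1 hl' with rfl | hl'
      · exact mem_lits.1 hl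
      · exact ih h' l' hl'

theorem mem_parts {n r : ℕ} {ρ : List (ℕ × Bool)} (hl : ρ.length ≤ r) (hv : ∀ l ∈ ρ, l.1 < n) :
    ρ ∈ parts n r := by
  induction r generalizing ρ with
  | zero =>
    have : ρ = [] := List.length_eq_zero_iff.1 (by omega)
    subst this
    simp [parts]
  | succ r ih =>
    simp only [parts, List.mem_append, List.mem_flatMap, List.mem_map]
    cases ρ with
    | nil => exact Or.inl (ih (by simp) (by simp))
    | cons l ρ =>
      right
      refine ⟨ρ, ih (by simpa using hl) (fun l' h' => hv l' (by simp [h'])), l,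
        mem_lits.2 (hv l (by simp)), rfl⟩

theorem length_parts (n r : ℕ) : (parts n r).length = (2 * n + 1) ^ r := by
  induction r with
  | zero => simp [parts]
  | succ r ih =>
    simp only [parts, List.length_append, List.length_flatMap, List.length_map, length_lits,
      List.map_const', List.sum_replicate, smul_eq_mul, ih]
    ring

end Pool.Agent.Helper91K9.DL
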