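import Pool.Agent.Helper91K9.DL.Leaves2
import Pool.Agent.Helper91K9.DL.Correct
import Pool.Agent.Helper91K9.DL.Parts

/-!
# Stability: at a fixpoint of the search the terms not determined are long
-/

namespace Pool.Agent.Helper91K9.DL

open Finset

theorem imp_false_iff {n m : ℕ} (F : List (List (ℕ × Bool))) (X : Fin m → Cube n)
    (ρ : List (ℕ × Bool)) : imp (negs (smp F X)) ρ = false ↔
      ∃ j, ¬ ff n F (X j) ∧ termVal ρ (List.ofFn (X j)) = true := by
  unfold imp
  rw [← Bool.not_eq_true, negs_all]
  push Not
  constructor
  · rintro ⟨j, h1, h2⟩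
    refine ⟨j, h1, ?_⟩
    simpa using h2
  · rintro ⟨j, h1, h2⟩
    refine ⟨j, h1, ?_⟩
    simpa using h2

theorem termVal_iff_all (t : List (ℕ × Bool)) (x : List Bool) :
    termVal t x = true ↔ ∀ l ∈ t, x.getD l.1 false = l.2 := by
  unfold termVal
  rw [List.all_eq_true]
  simp

theorem stab : S_STAB := by
  intro n m r F ι I T b X V As x hF hRep hcrit himp i hi hag
  obtain ⟨hV, -, hAs, -⟩ := hRep
  by_contra hcard
  push Not at hcard
  have key : ∀ S : Finset (Fin n), S ⊆ T i \ V.toFinset →
      imp (negs (smp F X)) (asg V x ++ litsOf (b i) S) = false := by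
    intro S
    induction S using Finset.induction_on with
    | empty =>
      intro _
      have : litsOf (b i) (∅ : Finset (Fin n)) = [] := by
        apply List.length_eq_zero_iff.1
        rw [length_litsOf, card_empty]
      rw [this, List.append_nil]
      exact himp
    | insert v S hvS ih =>
      intro hS
      have hv := hS (mem_insert_self v S)
      have hS' : S ⊆ T i \ V.toFinset := fun w hw => hS (mem_insert_of_mem hw)
      have ih := ih hS'
      rw [mem_sdiff, List.mem_toFinset] at hv
      have hc := hcrit v
      unfold crit at hc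
      rw [List.any_eq_false] at hc
      have hc := hc _ (hAs x)
      rw [Bool.not_eq_true, List.any_eq_false] at hc
      have hpar : litsOf (b i) S ∈ parts n r := by
        apply mem_parts
        · rw [length_litsOf]
          exact (card_le_card hS').trans hcard
        · intro l hl
          rw [mem_litsOf] at hl
          obtain ⟨w, -, rfl⟩ := hl
          exact w.2
      have hc := hc _ hpar
      have hall : ((asg V x ++ litsOf (b i) S).all fun l => !(l.1 == (v : ℕ))) = true := by
        rw [List.all_eq_true]
        intro l hl
        have : l.1 ≠ (v : ℕ) := by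
          rcases List.mem_append.1 hl with hl | hl
          · unfold asg at hl
            obtain ⟨w, hw, rfl⟩ := List.mem_map.1 hl
            intro h
            exact hv.2 ((Fin.ext h : w = v) ▸ hw)
          · rw [mem_litsOf] at hl
            obtain ⟨w, hw, rfl⟩ := hl
            intro h
            exact hvS ((Fin.ext h : w = v) ▸ hw)
        simpa using this
      unfold splits at hc
      rw [hall, ih] at hc
      simp only [Bool.not_false, Bool.true_and, Bool.not_eq_true, Bool.or_eq_false_iff] at hc
      have h2 : imp (negs (smp F X)) (((v : ℕ), b i v) :: (asg V x ++ litsOf (b i) S)) = false := by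
        cases b i v
        · exact hc.2
        · exact hc.1
      rw [imp_false_iff] at h2 ⊢
      obtain ⟨j, hj1, hj2⟩ := h2
      refine ⟨j, hj1, ?_⟩
      rw [termVal_iff_all] at hj2 ⊢
      intro l hl
      apply hj2
      rcases List.mem_append.1 hl with hl | hl
      · exact List.mem_cons_of_mem _ (List.mem_append_left _ hl)
      · rw [mem_litsOf] at hl
        obtain ⟨w, hw, rfl⟩ := hl
        rcases mem_insert.1 hw with rfl | hw
        · exact List.mem_cons_self
        · exact List.mem_cons_of_mem _ (List.mem_append_right _
            ((mem_litsOf _ _ _).2 ⟨w, hw, rfl⟩))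
  have hfin := key _ subset_rfl
  rw [imp_false_iff] at hfin
  obtain ⟨j, hj1, hj2⟩ := hfin
  apply hj1
  rw [hF]
  refine ⟨i, hi, ?_⟩
  rw [termVal_iff_all] at hj2
  intro w hw
  by_cases hwV : w ∈ V
  · have := hj2 ((w : ℕ), x w) (List.mem_append_left _ (List.mem_map.2 ⟨w, hwV, rfl⟩))
    rw [getD_ofFn] at this
    rw [this]
    exact hag w hw hwV
  · have := hj2 ((w : ℕ), b i w) (List.mem_append_right _ ((mem_litsOf _ _ _).2
      ⟨w, by rw [mem_sdiff, List.mem_toFinset]; exact ⟨hw, hwV⟩, rfl⟩))
    rw [getD_ofFn] at this
    exact this

end Pool.Agent.Helper91K9.DL
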