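import Pool.Agent.Helper91K9.DL.Main2
import Pool.Agent.Helper91K9.DL.Narrow2
import Pool.Agent.Helper91K9.DL.Poly2
import Pool.Agent.Helper91K9.DL.Loop
import Pool.Agent.Helper91K9.DL.Crit
import Pool.Agent.Helper91K9.DL.Stab

/-!
# Read-`k` DNF formulas are learnable from uniform random examples in polynomial time
-/

namespace Pool.Agent.Helper91K9.DL

open Finset Pool.Agent.NPC Pool.Agent.H424R2.PPAD

theorem full_pos (k : ℕ) (hk : 1 ≤ k) :
    ∃ A : ℕ × List (List Bool × Bool) → List (List (ℕ × Bool)), PTime A ∧ ∃ e : ℕ,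
      ∀ (n a b : ℕ) (F : List (List (ℕ × Bool))), 1 ≤ a → 1 ≤ b → ReadK n k F →
        ∀ m, (n + a + b) ^ e ≤ m → Succeeds (fun s => A (a, s)) n m F (1 / a) (1 / b) := by
  obtain ⟨r, K, e, h⟩ := core2 narrow2 loop (crit_mem lll s_parts) stab k hk
  exact ⟨learn2 k r K, PTime.of_poly (poly_learn2 k r K), e, h⟩

theorem full (k : ℕ) :
    ∃ A : ℕ × List (List Bool × Bool) → List (List (ℕ × Bool)), PTime A ∧ ∃ e : ℕ,
      ∀ (n a b : ℕ) (F : List (List (ℕ × Bool))), 1 ≤ a → 1 ≤ b → ReadK n k F →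
        ∀ m, (n + a + b) ^ e ≤ m → Succeeds (fun s => A (a, s)) n m F (1 / a) (1 / b) := by
  obtain ⟨A, hA, e, h⟩ := full_pos (k + 1) (by omega)
  exact ⟨A, hA, e, fun n a b F ha hb hF m hm => h n a b F ha hb
    ⟨hF.1, fun v => (hF.2 v).trans (by omega)⟩ m hm⟩

end Pool.Agent.Helper91K9.DL
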