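import Pool.Agent.Helper91K9.DL.Link
import Pool.Agent.Helper91K9.DL.Leaves

/-!
# Growing the list of large coefficients
-/

namespace Pool.Agent.Helper91K9.DL

open Finset

variable {n m : ℕ}

theorem coef_of_heavy (hm : 1 ≤ m) (D : ℕ) (hD : 1 ≤ D) (F : List (List (ℕ × Bool)))
    (X : Fin m → Cube n) (τ : ℝ) (hτ : τ ≤ 1 / (4 * D)) (hG : Good X (ff n F) τ)
    (ρ : List (ℕ × Bool)) (hρ : ∀ l ∈ ρ, l.1 < n) (S : List ℕ) (hS : ∀ v ∈ S, v < n)
    (hn : S.Nodup) (hh : heavy m D (negs (smp F X)) ρ S = true) :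
    1 / (4 * (D : ℝ)) ≤ |coef (ff n F) (UU n ρ) (SS n S)| := by
  rw [heavy_iff hm D F X ρ hρ S hS hn] at hh
  have h1 := hG (UU n ρ) (SS n S)
  have hm' : (0 : ℝ) < m := by exact_mod_cast hm
  have hD' : (0 : ℝ) < D := by exact_mod_cast hD
  have h2 : |st F X ρ S| ≤ m * |coef (ff n F) (UU n ρ) (SS n S)| + m * τ := by
    have h3 := abs_sub_abs_le_abs_sub (st F X ρ S) (m * coef (ff n F) (UU n ρ) (SS n S))
    rw [abs_mul, Nat.abs_cast] at h3
    have h4 : |st F X ρ S - m * coef (ff n F) (UU n ρ) (SS n S)| ≤ m * τ := h1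
    linarith
  have h5 : (m : ℝ) / (2 * D) ≤ |st F X ρ S| := by
    rw [div_le_iff₀ (by positivity)]; linarith
  have h6 : (m : ℝ) * (1 / (2 * D)) ≤ m * (|coef (ff n F) (UU n ρ) (SS n S)| + 1 / (4 * D)) := by
    have : (m : ℝ) * τ ≤ m * (1 / (4 * D)) := mul_le_mul_of_nonneg_left hτ hm'.le
    calc (m : ℝ) * (1 / (2 * D)) = m / (2 * D) := by ring
      _ ≤ m * |coef (ff n F) (UU n ρ) (SS n S)| + m * (1 / (4 * D)) := by linarith
      _ = _ := by ring
  have h7 := le_of_mul_le_mul_left h6 hm'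
  have h8 : (1 : ℝ) / (2 * D) = 1 / (4 * D) + 1 / (4 * D) := by field_simp; norm_num
  linarith

theorem heavy_of_coef (hm : 1 ≤ m) (D : ℕ) (hD : 1 ≤ D) (F : List (List (ℕ × Bool)))
    (X : Fin m → Cube n) (τ : ℝ) (hτ : τ ≤ 1 / (4 * D)) (hG : Good X (ff n F) τ)
    (ρ : List (ℕ × Bool)) (hρ : ∀ l ∈ ρ, l.1 < n) (S : List ℕ) (hS : ∀ v ∈ S, v < n)
    (hn : S.Nodup) (hh : 1 / (D : ℝ) ≤ |coef (ff n F) (UU n ρ) (SS n S)|) :
    heavy m D (negs (smp F X)) ρ S = true := by
  rw [heavy_iff hm D F X ρ hρ S hS hn]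
  have h1 := hG (UU n ρ) (SS n S)
  have hm' : (0 : ℝ) < m := by exact_mod_cast hm
  have hD' : (0 : ℝ) < D := by exact_mod_cast hD
  have h2 : m * |coef (ff n F) (UU n ρ) (SS n S)| - m * τ ≤ |st F X ρ S| := by
    have h3 := abs_sub_abs_le_abs_sub (m * coef (ff n F) (UU n ρ) (SS n S)) (st F X ρ S)
    rw [abs_mul, Nat.abs_cast, abs_sub_comm] at h3
    have h4 : |st F X ρ S - m * coef (ff n F) (UU n ρ) (SS n S)| ≤ m * τ := h1
    linarith
  have h3 : (m : ℝ) * (1 / D) ≤ m * |coef (ff n F) (UU n ρ) (SS n S)| :=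
    mul_le_mul_of_nonneg_left hh hm'.le
  have h4 : (m : ℝ) * τ ≤ m * (1 / (4 * D)) := mul_le_mul_of_nonneg_left hτ hm'.le
  have h5 : (m : ℝ) * (1 / D) - m * (1 / (4 * D)) ≤ |st F X ρ S| := by linarith
  have h6 := mul_le_mul_of_nonneg_left h5 (by positivity : (0 : ℝ) ≤ 2 * D)
  have h7 : 2 * (D : ℝ) * ((m : ℝ) * (1 / D) - m * (1 / (4 * D))) = 3 / 2 * m := by
    field_simp; norm_num
  rw [h7] at h6
  linarith

/-- The invariant of the growing. -/
def Ok (m D : ℕ) (neg : List (List Bool)) (ρ : List (ℕ × Bool)) (i : Fin n)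
    (cur : List (List ℕ)) (j : ℕ) : Prop :=
  (∀ S ∈ cur, S.Nodup ∧ (i : ℕ) ∈ S ∧ (∀ v ∈ S, v < j ∨ v = i) ∧
    (S = [(i : ℕ)] ∨ heavy m D neg ρ S = true)) ∧ (cur.map (SS n)).Nodup

theorem Ok.length (hpars : S_PARS) (hm : 1 ≤ m) (D : ℕ) (hD : 1 ≤ D)
    (F : List (List (ℕ × Bool))) (X : Fin m → Cube n) (τ : ℝ) (hτ : τ ≤ 1 / (4 * D))
    (hG : Good X (ff n F) τ) (ρ : List (ℕ × Bool)) (hρ : ∀ l ∈ ρ, l.1 < n) (i : Fin n)
    (cur : List (List ℕ)) (j : ℕ) (hj : j ≤ n) (h : Ok m D (negs (smp F X)) ρ i cur j) :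
    cur.length ≤ 16 * D ^ 2 + 1 := by
  classical
  obtain ⟨h1, h2⟩ := h
  have hlt : ∀ S ∈ cur, ∀ v ∈ S, v < n := fun S hS v hv => by
    rcases (h1 S hS).2.2.1 v hv with h | h
    · omega
    · rw [h]; exact i.2
  have hp := hpars n (ff n F) (UU n ρ) (1 / (4 * D)) (by positivity)
    ((cur.map (SS n)).toFinset.erase (SS n [(i : ℕ)])) (fun S hS => by
      rw [mem_erase, List.mem_toFinset, List.mem_map] at hS
      obtain ⟨hne, S', hS', rfl⟩ := hS
      obtain ⟨hn, -, -, hh⟩ := h1 S' hS'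
      have hh' : heavy m D (negs (smp F X)) ρ S' = true := by
        rcases hh with rfl | hh
        · exact absurd rfl hne
        · exact hh
      exact coef_of_heavy hm D hD F X τ hτ hG ρ hρ S' (hlt S' hS') hn hh')
  have h3 : cur.length = (cur.map (SS n)).toFinset.card := by
    rw [List.toFinset_card_of_nodup h2, List.length_map]
  have h4 : (cur.map (SS n)).toFinset.card ≤
      ((cur.map (SS n)).toFinset.erase (SS n [(i : ℕ)])).card + 1 := by
    have := pred_card_le_card_erase (s := (cur.map (SS n)).toFinset) (a := SS n [(i : ℕ)])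
    omega
  have hD' : (0 : ℝ) < D := by exact_mod_cast hD
  have h5 : (((cur.map (SS n)).toFinset.erase (SS n [(i : ℕ)])).card : ℝ) ≤ 16 * D ^ 2 := by
    rw [div_pow, one_pow, mul_one_div, div_le_one (by positivity)] at hp
    calc _ ≤ (4 * (D : ℝ)) ^ 2 := hp
      _ = 16 * D ^ 2 := by ring
  have h6 : ((cur.map (SS n)).toFinset.erase (SS n [(i : ℕ)])).card ≤ 16 * D ^ 2 := by
    exact_mod_cast h5
  omega

/-- The longer list. -/
def newl (m D : ℕ) (neg : List (List Bool)) (ρ : List (ℕ × Bool)) (cur : List (List ℕ))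
    (j : ℕ) : List (List ℕ) :=
  cur ++ (cur.filter fun S => heavy m D neg ρ (j :: S)).map (j :: ·)

theorem SS_cons (j : Fin n) (S : List ℕ) : SS n ((j : ℕ) :: S) = insert j (SS n S) := by
  ext v
  simp [mem_SS, Fin.ext_iff]

theorem Ok.newl {D : ℕ} {neg : List (List Bool)} {ρ : List (ℕ × Bool)} {i : Fin n}
    {cur : List (List ℕ)} {j : ℕ} (h : Ok m D neg ρ i cur j) (hj : j < n) (hji : j ≠ i) :
    Ok m D neg ρ i (newl m D neg ρ cur j) (j + 1) := by
  obtain ⟨h1, h2⟩ := h
  have hjS : ∀ S ∈ cur, j ∉ S := fun S hS hjm => by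
    rcases (h1 S hS).2.2.1 j hjm with h | h
    · omega
    · exact hji h
  refine ⟨fun S hS => ?_, ?_⟩
  · unfold DL.newl at hS
    rw [List.mem_append, List.mem_map] at hS
    rcases hS with hS | ⟨S', hS', rfl⟩
    · obtain ⟨a, b, c, d⟩ := h1 S hS
      exact ⟨a, b, fun v hv => (c v hv).imp_left (by omega), d⟩
    · rw [List.mem_filter] at hS'
      obtain ⟨a, b, c, d⟩ := h1 S' hS'.1
      refine ⟨List.nodup_cons.2 ⟨hjS S' hS'.1, a⟩, List.mem_cons_of_mem _ b, fun v hv => ?_,
        Or.inr hS'.2⟩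
      rcases List.mem_cons.1 hv with h | h
      · left; omega
      · exact (c v h).imp_left (by omega)
  · unfold DL.newl
    rw [List.map_append, List.map_map, List.nodup_append]
    have e : (cur.filter fun S => heavy m D neg ρ (j :: S)).map (SS n ∘ (j :: ·)) =
        ((cur.filter fun S => heavy m D neg ρ (j :: S)).map (SS n)).map
          (insert (⟨j, hj⟩ : Fin n)) := by
      rw [List.map_map]
      refine List.map_congr_left fun S _ => ?_
      exact SS_cons ⟨j, hj⟩ S
    have hno : ∀ A ∈ cur.map (SS n), (⟨j, hj⟩ : Fin n) ∉ A := fun A hA => by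
      obtain ⟨S, hS, rfl⟩ := List.mem_map.1 hA
      rw [mem_SS]
      exact hjS S hS
    rw [e]
    refine ⟨h2, ?_, ?_⟩
    · refine List.Nodup.map_on (fun A hA B hB hAB => ?_) ?_
      · have hA' := hno A ((List.Sublist.map _ List.filter_sublist).subset hA)
        have hB' := hno B ((List.Sublist.map _ List.filter_sublist).subset hB)
        rw [← erase_insert hA', hAB, erase_insert hB']
      · exact h2.sublist (List.Sublist.map _ List.filter_sublist)
    · intro A hA B hB hAB
      obtain ⟨B', _, rfl⟩ := List.mem_map.1 hB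
      refine hno A hA ?_
      rw [hAB]
      exact mem_insert_self _ _

theorem Ok.step (hpars : S_PARS) (D : ℕ) (hD : 1 ≤ D) (hm : 16 * D ^ 2 + 1 ≤ m)
    (F : List (List (ℕ × Bool))) (X : Fin m → Cube n) (τ : ℝ) (hτ : τ ≤ 1 / (4 * D))
    (hG : Good X (ff n F) τ) (ρ : List (ℕ × Bool)) (hρ : ∀ l ∈ ρ, l.1 < n) (i : Fin n)
    (cur : List (List ℕ)) (j : ℕ) (hj : j < n) (h : Ok m D (negs (smp F X)) ρ i cur j) :
    Ok m D (negs (smp F X)) ρ i (growStep m D (negs (smp F X)) ρ i cur j) (j + 1) ∧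
    (j ≠ i → growStep m D (negs (smp F X)) ρ i cur j =
      DL.newl m D (negs (smp F X)) ρ cur j) := by
  by_cases hji : j = i
  · refine ⟨?_, fun h => absurd hji h⟩
    unfold growStep
    rw [if_pos hji]
    exact ⟨fun S hS => by
      obtain ⟨a, b, c, d⟩ := h.1 S hS
      exact ⟨a, b, fun v hv => (c v hv).imp_left (by omega), d⟩, h.2⟩
  · have h1 := h.newl hj hji
    have h2 := Ok.length hpars (by omega) D hD F X τ hτ hG ρ hρ i _ _ (by omega) h1
    have h3 : growStep m D (negs (smp F X)) ρ i cur j =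
        DL.newl m D (negs (smp F X)) ρ cur j := by
      unfold growStep
      rw [if_neg hji, if_pos]
      · rfl
      · unfold DL.newl at h2
        omega
    rw [h3]
    exact ⟨h1, fun _ => rfl⟩

theorem grow_ok (hpars : S_PARS) (D : ℕ) (hD : 1 ≤ D) (hm : 16 * D ^ 2 + 1 ≤ m)
    (F : List (List (ℕ × Bool))) (X : Fin m → Cube n) (τ : ℝ) (hτ : τ ≤ 1 / (4 * D))
    (hG : Good X (ff n F) τ) (ρ : List (ℕ × Bool)) (hρ : ∀ l ∈ ρ, l.1 < n) (i : Fin n)
    (j : ℕ) (hj : j ≤ n) :
    Ok m D (negs (smp F X)) ρ i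
      ((List.range j).foldl (growStep m D (negs (smp F X)) ρ i) [[(i : ℕ)]]) j := by
  induction j with
  | zero =>
    refine ⟨fun S hS => ?_, by simp⟩
    simp only [List.range_zero, List.foldl_nil, List.mem_singleton] at hS
    subst hS
    simp
  | succ j ih =>
    rw [List.range_succ, List.foldl_append, List.foldl_cons, List.foldl_nil]
    exact (Ok.step hpars D hD hm F X τ hτ hG ρ hρ i _ j (by omega) (ih (by omega))).1

theorem grow_mem (hpars : S_PARS) (D : ℕ) (hD : 1 ≤ D) (hm : 16 * D ^ 2 + 1 ≤ m)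
    (F : List (List (ℕ × Bool))) (X : Fin m → Cube n) (τ : ℝ) (hτ : τ ≤ 1 / (4 * D))
    (hG : Good X (ff n F) τ) (ρ : List (ℕ × Bool)) (hρ : ∀ l ∈ ρ, l.1 < n) (i : Fin n)
    (Ts : Finset (Fin n))
    (hT : ∀ S : List ℕ, S.Nodup → (∀ v ∈ S, v < n) → (i : ℕ) ∈ S → SS n S ⊆ Ts →
      heavy m D (negs (smp F X)) ρ S = true) (hi : i ∈ Ts) (j : ℕ) (hj : j ≤ n) :
    ∃ S ∈ (List.range j).foldl (growStep m D (negs (smp F X)) ρ i) [[(i : ℕ)]],
      S.Nodup ∧ (i : ℕ) ∈ S ∧ (∀ v ∈ S, v < n) ∧
      ∀ v : Fin n, v ∈ SS n S ↔ (v = i ∨ (v ∈ Ts ∧ (v : ℕ) < j)) := by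
  induction j with
  | zero =>
    refine ⟨[(i : ℕ)], by simp, by simp, by simp, by simp, fun v => ?_⟩
    rw [mem_SS]
    simp [Fin.ext_iff]
  | succ j ih =>
    obtain ⟨S, hS, hn, hiS, hlt, hv⟩ := ih (by omega)
    have hok := grow_ok hpars D hD hm F X τ hτ hG ρ hρ i j (by omega)
    obtain ⟨-, hst⟩ := Ok.step hpars D hD hm F X τ hτ hG ρ hρ i _ j (by omega) hok
    rw [List.range_succ, List.foldl_append, List.foldl_cons, List.foldl_nil]
    by_cases hji : j = i
    · refine ⟨S, ?_, hn, hiS, hlt, fun v => ?_⟩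
      · unfold growStep
        rw [if_pos hji]
        exact hS
      · rw [hv v]
        constructor
        · rintro (h | h)
          · exact Or.inl h
          · exact Or.inr ⟨h.1, by omega⟩
        · rintro (h | h)
          · exact Or.inl h
          · by_cases hvj : (v : ℕ) = j
            · left; exact Fin.ext (by omega)
            · exact Or.inr ⟨h.1, by omega⟩
    · rw [hst hji]
      have hjS : j ∉ S := fun hjm => by
        have := (hv ⟨j, by omega⟩).1 ((mem_SS _ _).2 hjm)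
        rcases this with h | h
        · exact hji (by rw [← h])
        · simp at h
      by_cases hjT : (⟨j, by omega⟩ : Fin n) ∈ Ts
      · refine ⟨j :: S, ?_, List.nodup_cons.2 ⟨hjS, hn⟩, List.mem_cons_of_mem _ hiS, ?_, ?_⟩
        · unfold DL.newl
          rw [List.mem_append, List.mem_map]
          right
          refine ⟨S, ?_, rfl⟩
          rw [List.mem_filter]
          refine ⟨hS, hT _ (List.nodup_cons.2 ⟨hjS, hn⟩) ?_ (List.mem_cons_of_mem _ hiS) ?_⟩
          · intro v hv'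
            rcases List.mem_cons.1 hv' with h | h
            · omega
            · exact hlt v h
          · intro v hv'
            have e := SS_cons (n := n) ⟨j, by omega⟩ S
            simp only at e
            rw [e, mem_insert] at hv'
            rcases hv' with rfl | hv'
            · exact hjT
            · rcases (hv v).1 hv' with h | h
              · rw [h]; exact hi
              · exact h.1
        · intro v hv'
          rcases List.mem_cons.1 hv' with h | h
          · omega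
          · exact hlt v h
        · intro v
          have e := SS_cons (n := n) ⟨j, by omega⟩ S
          simp only at e
          rw [e, mem_insert, hv v]
          constructor
          · rintro (h | h | h)
            · right; rw [h]; exact ⟨hjT, by simp⟩
            · exact Or.inl h
            · exact Or.inr ⟨h.1, by omega⟩
          · rintro (h | h)
            · exact Or.inr (Or.inl h)
            · by_cases hvj : (v : ℕ) = j
              · left; exact Fin.ext hvj
              · exact Or.inr (Or.inr ⟨h.1, by omega⟩)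
      · refine ⟨S, ?_, hn, hiS, hlt, fun v => ?_⟩
        · unfold DL.newl
          rw [List.mem_append]
          exact Or.inl hS
        · rw [hv v]
          constructor
          · rintro (h | h)
            · exact Or.inl h
            · exact Or.inr ⟨h.1, by omega⟩
          · rintro (h | h)
            · exact Or.inl h
            · by_cases hvj : (v : ℕ) = j
              · exfalso
                have : v = ⟨j, by omega⟩ := Fin.ext hvj
                rw [this] at h
                exact hjT h.1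
              · exact Or.inr ⟨h.1, by omega⟩

end Pool.Agent.Helper91K9.DL
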