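import Pool.Agent.Helper91K9.DL.Cube

/-!
# Independence of events on disjoint sets of coordinates
-/

namespace Pool.Agent.Helper91K9.DL

open Finset

variable {n : ℕ}

theorem PP_eq (p : Cube n → Prop) [DecidablePred p] :
    PP p = ((univ.filter p).card : ℝ) / 2 ^ n := by
  unfold PP; congr

theorem PP_nonneg (p : Cube n → Prop) : 0 ≤ PP p := by
  unfold PP; positivity

theorem PP_mono {p q : Cube n → Prop} (h : ∀ x, p x → q x) : PP p ≤ PP q := by
  classical
  rw [PP_eq, PP_eq]
  refine div_le_div_of_nonneg_right ?_ (by positivity)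
  exact_mod_cast card_le_card (fun x hx => by
    simp only [mem_filter, mem_univ, true_and] at hx ⊢; exact h x hx)

theorem PP_congr {p q : Cube n → Prop} (h : ∀ x, p x ↔ q x) : PP p = PP q :=
  le_antisymm (PP_mono fun x => (h x).1) (PP_mono fun x => (h x).2)

theorem PP_true : PP (fun _ : Cube n => True) = 1 := by
  classical
  rw [PP_eq]
  simp

theorem PP_le_one (p : Cube n → Prop) : PP p ≤ 1 := by
  rw [← PP_true (n := n)]; exact PP_mono fun _ _ => trivial

theorem PP_or_le (p q : Cube n → Prop) : PP (fun x => p x ∨ q x) ≤ PP p + PP q := by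
  classical
  rw [PP_eq, PP_eq, PP_eq, ← add_div]
  refine div_le_div_of_nonneg_right ?_ (by positivity)
  have : (univ.filter fun x => p x ∨ q x) = univ.filter p ∪ univ.filter q := by
    ext x; simp
  rw [this]
  exact_mod_cast card_union_le _ _

theorem PP_and_not (p q : Cube n → Prop) : PP (fun x => p x ∧ ¬ q x) = PP p - PP (fun x => q x ∧ p x) := by
  classical
  rw [PP_eq, PP_eq, PP_eq, ← sub_div]
  congr 1
  rw [eq_sub_iff_add_eq]
  have h1 : (univ.filter fun x => p x ∧ ¬ q x) = (univ.filter p).filter fun x => ¬ q x := by
    ext x; simp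
  have h2 : (univ.filter fun x => q x ∧ p x) = (univ.filter p).filter fun x => q x := by
    ext x; simp [and_comm]
  rw [h1, h2]
  have := card_filter_add_card_filter_not (s := (univ.filter p : Finset (Cube n))) (fun x => q x)
  exact_mod_cast (by omega : _ + _ = _)

theorem PP_exists_le {ι : Type} (s : Finset ι) (p : ι → Cube n → Prop) :
    PP (fun x => ∃ i ∈ s, p i x) ≤ ∑ i ∈ s, PP (p i) := by
  classical
  induction s using Finset.induction_on with
  | empty => simp [PP]
  | insert i s hi ih =>
    rw [sum_insert hi]
    refine le_trans (le_of_eq (PP_congr fun x => ?_)) ((PP_or_le (p i) _).trans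
      (add_le_add_right ih (PP (p i))))
    simp

theorem indep (S : Finset (Fin n)) (A B : Cube n → Prop)
    (hA : ∀ x y, (∀ v ∈ S, x v = y v) → (A x ↔ A y))
    (hB : ∀ x y, (∀ v, v ∉ S → x v = y v) → (B x ↔ B y)) :
    PP (fun x => A x ∧ B x) = PP A * PP B := by
  classical
  let e := Equiv.piEquivPiSubtypeProd (fun v => v ∈ S) (fun _ : Fin n => Bool)
  let A' : ({v // v ∈ S} → Bool) → Prop := fun p => A (e.symm (p, fun _ => false))
  let B' : ({v // v ∉ S} → Bool) → Prop := fun q => B (e.symm (fun _ => false, q))
  have eA : ∀ p q, A (e.symm (p, q)) ↔ A' p := fun p q => by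
    refine hA _ _ fun v hv => ?_
    simp [e, Equiv.piEquivPiSubtypeProd, hv]
  have eB : ∀ p q, B (e.symm (p, q)) ↔ B' q := fun p q => by
    refine hB _ _ fun v hv => ?_
    simp [e, Equiv.piEquivPiSubtypeProd, hv]
  have key : ∀ C : Cube n → Prop, ∀ C' : ({v // v ∈ S} → Bool) → Prop,
      ∀ C'' : ({v // v ∉ S} → Bool) → Prop, (∀ p q, C (e.symm (p, q)) ↔ C' p ∧ C'' q) →
      PP C * 2 ^ n = ((univ.filter C').card : ℝ) * ((univ.filter C'').card : ℝ) := by
    intro C C' C'' h
    rw [PP_eq, div_mul_cancel₀ _ (by positivity)]
    norm_cast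
    rw [← card_product]
    refine card_bij' (fun x _ => e x) (fun y _ => e.symm y) ?_ ?_ ?_ ?_
    · intro x hx
      have := h (e x).1 (e x).2
      simp only [Prod.mk.eta, Equiv.symm_apply_apply] at this
      simp only [mem_filter, mem_univ, true_and, mem_product] at hx ⊢
      exact this.1 hx
    · rintro ⟨p, q⟩ hy
      simp only [mem_filter, mem_univ, true_and, mem_product] at hy ⊢
      exact (h p q).2 hy
    · intro x _; simp
    · intro y _; simp
  have c1 := key (fun x => A x ∧ B x) A' B' fun p q => by rw [eA, eB]
  have c2 := key A A' (fun _ => True) fun p q => by rw [eA]; simp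
  have c3 := key B (fun _ => True) B' fun p q => by rw [eB]; simp
  have c4 := key (fun _ => True) (fun _ => True) (fun _ => True) fun p q => by simp
  rw [PP_true, one_mul] at c4
  have h0 : (2 : ℝ) ^ n ≠ 0 := by positivity
  have e1 : PP (fun x => A x ∧ B x) * 2 ^ n * 2 ^ n = PP A * PP B * 2 ^ n * 2 ^ n := by
    have c5 := congrArg₂ (· * ·) c2 c3
    linear_combination (2 ^ n) * c1 + (((univ.filter A').card : ℝ) *
      ((univ.filter B').card : ℝ)) * c4 - c5
  exact mul_right_cancel₀ h0 (mul_right_cancel₀ h0 e1)

/-- The probability of a subcube. -/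
theorem PP_agr (S : Finset (Fin n)) (b : Cube n) : PP (agr S b) = (1 / 2) ^ S.card := by
  classical
  induction S using Finset.induction_on with
  | empty =>
    rw [card_empty, pow_zero, ← PP_true (n := n)]
    exact PP_congr fun x => by simp [agr]
  | insert v S hv ih =>
    have h1 : PP (agr (insert v S) b) = PP (fun x => (x v = b v) ∧ agr S b x) := by
      refine PP_congr fun x => ?_
      simp [agr]
    have h2 := indep {v} (fun x => x v = b v) (agr S b) (fun x y h => by
      rw [h v (mem_singleton_self v)]) (fun x y h => by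
      have : ∀ w ∈ S, x w = y w := fun w hw => h w (by
        rw [mem_singleton]; rintro rfl; exact hv hw)
      unfold agr
      exact forall₂_congr fun w hw => by rw [this w hw])
    rw [h1, h2, ih, card_insert_of_notMem hv, pow_succ]
    have h3 : PP (fun x : Cube n => x v = b v) = 1 / 2 := by
      have h4 : PP (fun x : Cube n => x v = b v) = PP (fun x : Cube n => ¬ x v = b v) := by
        rw [PP_eq, PP_eq]
        congr 1
        norm_cast
        refine card_bij' (fun x _ => Function.update x v (! x v))
          (fun x _ => Function.update x v (! x v)) ?_ ?_ ?_ ?_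
        · intro x hx
          simp only [mem_filter, mem_univ, true_and, Function.update_self] at hx ⊢
          rw [hx]; cases b v <;> simp
        · intro x hx
          simp only [mem_filter, mem_univ, true_and, Function.update_self] at hx ⊢
          cases hxv : x v <;> cases hb : b v <;> simp_all
        · intro x _; simp
        · intro x _; simp
      have h5 := PP_and_not (n := n) (fun _ => True) (fun x => x v = b v)
      simp only [true_and, and_true] at h5
      rw [PP_true] at h5
      linarith
    rw [h3]
    ring

end Pool.Agent.Helper91K9.DL
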