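import Pool.Agent.Helper91K9.DL.Indep

/-!
# Coefficients in an isolated direction, restrictions
-/

namespace Pool.Agent.Helper91K9.DL

open Finset

variable {n : ℕ}

theorem chi_congr (S : Finset (Fin n)) (x y : Cube n) (h : ∀ v ∈ S, x v = y v) :
    chi S x = chi S y := prod_congr rfl fun v hv => by rw [h v hv]

theorem chi_flip (S : Finset (Fin n)) (x : Cube n) (u : Fin n) (hu : u ∈ S) :
    chi S (Function.update x u (! x u)) = - chi S x := by
  unfold chi
  rw [← mul_prod_erase S _ hu, ← mul_prod_erase S _ hu]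
  have : ∀ v ∈ S.erase u, (if (Function.update x u (! x u)) v = true then (1 : ℝ) else -1) =
      if x v = true then 1 else -1 := fun v hv => by
    rw [Function.update_of_ne (ne_of_mem_erase hv)]
  rw [prod_congr rfl this, Function.update_self]
  cases x u <;> simp

theorem coef_iso (f g R : Cube n → Prop) (U : Finset (Fin n × Bool))
    (hU : ∀ x, satL U x ↔ R x) (u : Fin n) (Ts : Finset (Fin n)) (x0 : Cube n) (hu : u ∈ Ts)
    (hR : ∀ x b, R (Function.update x u b) ↔ R x)
    (hg : ∀ x b, g (Function.update x u b) ↔ g x)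
    (hf : ∀ x, R x → (f x ↔ (agr Ts x0 x ∨ g x))) (S : Finset (Fin n)) (huS : u ∈ S)
    (hS : S ⊆ Ts) :
    coef f U S = - chi S x0 * PP (fun x => R x ∧ agr Ts x0 x ∧ ¬ g x) := by
  classical
  let fl : Cube n → Cube n := fun x => Function.update x u (! x u)
  have hfl : ∀ x, fl (fl x) = x := fun x => by simp [fl]
  let w2 : Cube n → ℝ := fun x => if R x ∧ agr Ts x0 x ∧ ¬ g x then - chi S x0 else 0
  have hsum : ∀ F : Cube n → ℝ, ∑ x, F (fl x) = ∑ x, F x := fun F =>
    Equiv.sum_comp (⟨fl, fl, hfl, hfl⟩ : Cube n ≃ Cube n) F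
  have key : ∀ x, x u = x0 u → wt f U S x + wt f U S (fl x) = w2 x + w2 (fl x) := by
    intro x hxu
    have hR' : R (fl x) ↔ R x := hR x _
    have hg' : g (fl x) ↔ g x := hg x _
    have hne : (fl x) u ≠ x0 u := by simp [fl, hxu]
    have hna : ¬ agr Ts x0 (fl x) := fun h => hne (h u hu)
    have hcf : chi S (fl x) = - chi S x := chi_flip S x u huS
    unfold wt
    simp only [hU, hR', w2, hna, false_and, and_false, if_false, add_zero]
    by_cases hRx : R x
    · have f1 := hf x hRx
      have f2 := hf (fl x) (hR'.2 hRx)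
      rw [hg'] at f2
      by_cases hgx : g x
      · simp [f1, f2, hgx]
      · by_cases ha : agr Ts x0 x
        · have : chi S x = chi S x0 := chi_congr S x x0 fun v hv => ha v (hS hv)
          simp [f1, f2, hgx, ha, hRx, hna, hcf, this]
        · simp [f1, f2, hgx, ha, hRx, hna, hcf]
    · simp [hRx]
  have key2 : ∀ x, wt f U S x + wt f U S (fl x) = w2 x + w2 (fl x) := by
    intro x
    by_cases hxu : x u = x0 u
    · exact key x hxu
    · have h1 : (fl x) u = x0 u := by
        simp only [fl, Function.update_self]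
        cases h : x u <;> cases h' : x0 u <;> simp_all
      have h2 := key (fl x) h1
      rw [hfl] at h2
      linarith
  have hS2 : ∑ x, wt f U S x = ∑ x, w2 x := by
    have h1 : ∑ x, (wt f U S x + wt f U S (fl x)) = ∑ x, (w2 x + w2 (fl x)) :=
      sum_congr rfl fun x _ => key2 x
    rw [sum_add_distrib, sum_add_distrib, hsum (wt f U S), hsum w2] at h1
    linarith
  unfold coef
  rw [hS2, PP_eq]
  simp only [w2]
  rw [← sum_filter, sum_const, nsmul_eq_mul]
  ring

/-- The probability that no term of a family is satisfied, after a restriction. -/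
theorem restrict_prob (hLLL : S_LLL) {ι : Type} (I : Finset ι) (T : ι → Finset (Fin n))
    (a : ι → Cube n) (k c : ℕ) (V : Finset (Fin n)) (ε : ℝ) (hε : 0 ≤ ε) (hk : 1 ≤ k)
    (h8 : (8 * (k : ℝ)) ≤ (7 / 4) ^ c)
    (hread : ∀ v, (open Classical in (I.filter fun i => v ∈ T i)).card ≤ k)
    (hI : ∀ i ∈ I, c ≤ (T i \ V).card)
    (hp : ε ≤ PP (fun x => ∀ i ∈ I, Disjoint (T i) V → ¬ agr (T i) (a i) x)) :
    (7 / 8) ^ V.card * ε ≤ PP (fun x => ∀ i ∈ I, ¬ agr (T i \ V) (a i) x) := by
  classical
  set J := I.filter fun i => Disjoint (T i) V with hJ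
  have hl := hLLL n ι I J (fun i => T i \ V) a k c hk h8 (filter_subset _ _)
    (fun v => le_trans (card_le_card (fun i hi => by
      simp only [mem_filter, mem_sdiff] at hi ⊢; exact ⟨hi.1, hi.2.1⟩)) (hread v)) hI
  have h1 : PP (fun x => ∀ i ∈ I, Disjoint (T i) V → ¬ agr (T i) (a i) x) ≤
      PP (fun x => ∀ i ∈ J, ¬ agr (T i \ V) (a i) x) := PP_mono fun x hx i hi => by
    simp only [hJ, mem_filter] at hi
    rw [sdiff_eq_self_of_disjoint hi.2]
    exact hx i hi.1 hi.2
  have h2 : I.card - J.card ≤ k * V.card := by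
    have h3 : I.card - J.card = (I.filter fun i => ¬ Disjoint (T i) V).card := by
      have : J.card + (I.filter fun i => ¬ Disjoint (T i) V).card = I.card := by
        rw [hJ]; convert card_filter_add_card_filter_not (s := I) (fun i => Disjoint (T i) V)
      omega
    rw [h3]
    calc (I.filter fun i => ¬ Disjoint (T i) V).card
        ≤ (V.biUnion fun v => I.filter fun i => v ∈ T i).card := card_le_card (fun i hi => by
          simp only [mem_filter, mem_biUnion, not_disjoint_iff] at hi ⊢
          obtain ⟨h, v, hv1, hv2⟩ := hi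
          exact ⟨v, hv2, h, hv1⟩)
      _ ≤ ∑ v ∈ V, (I.filter fun i => v ∈ T i).card := card_biUnion_le
      _ ≤ ∑ v ∈ V, k := sum_le_sum fun v _ => hread v
      _ = k * V.card := by rw [sum_const, smul_eq_mul, mul_comm]
  have hk' : (1 : ℝ) ≤ k := by exact_mod_cast hk
  have hb0 : 0 ≤ 1 - 1 / (8 * (k : ℝ)) := by
    rw [sub_nonneg, div_le_one (by positivity)]; linarith
  have hb1 : 1 - 1 / (8 * (k : ℝ)) ≤ 1 := by
    have : 0 ≤ 1 / (8 * (k : ℝ)) := by positivity
    linarith
  have h4 : (7 / 8 : ℝ) ^ V.card ≤ (1 - 1 / (8 * (k : ℝ))) ^ (I.card - J.card) := by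
    calc (7 / 8 : ℝ) ^ V.card ≤ ((1 - 1 / (8 * (k : ℝ))) ^ k) ^ V.card := by
          refine pow_le_pow_left₀ (by norm_num) ?_ _
          have := one_add_mul_le_pow (a := -(1 / (8 * (k : ℝ)))) (by
            have : 1 / (8 * (k : ℝ)) ≤ 1 := by
              rw [div_le_one (by positivity)]; linarith
            linarith) k
          have e : 1 + (k : ℝ) * -(1 / (8 * (k : ℝ))) = 7 / 8 := by field_simp; norm_num
          rw [e] at this
          rw [sub_eq_add_neg]
          exact this
      _ = (1 - 1 / (8 * (k : ℝ))) ^ (k * V.card) := by rw [pow_mul]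
      _ ≤ _ := pow_le_pow_of_le_one hb0 hb1 h2
  calc (7 / 8) ^ V.card * ε ≤ (1 - 1 / (8 * (k : ℝ))) ^ (I.card - J.card) *
        PP (fun x => ∀ i ∈ J, ¬ agr (T i \ V) (a i) x) :=
        mul_le_mul h4 (hp.trans h1) hε (pow_nonneg hb0 _)
    _ ≤ _ := hl

end Pool.Agent.Helper91K9.DL
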