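import Pool.Agent.Helper91K9.DL.Indep

/-!
# The local lemma for subcubes
-/

namespace Pool.Agent.Helper91K9.DL

open Finset

variable {n : ℕ}

/-- The event `A` depends only on the coordinates in `S`. -/
def Dep (A : Cube n → Prop) (S : Finset (Fin n)) : Prop := ∀ x y, agr S x y → (A x ↔ A y)

/-- Independence. -/
theorem indep_dep (S : Finset (Fin n)) (A B : Cube n → Prop) (hA : Dep A S) (hB : Dep B Sᶜ) :
    PP (fun x => A x ∧ B x) = PP A * PP B := by
  refine indep S A B (fun x y h => hA x y fun v hv => (h v hv).symm)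
    (fun x y h => hB x y fun v hv => (h v (by simpa using hv)).symm)

theorem Dep.mono {A : Cube n → Prop} {S T : Finset (Fin n)} (h : Dep A S) (hST : S ⊆ T) :
    Dep A T := fun x y hxy => h x y fun v hv => hxy v (hST hv)

theorem dep_agr (S : Finset (Fin n)) (b : Cube n) : Dep (agr S b) S := by
  intro x y hxy
  constructor
  · intro h v hv
    rw [hxy v hv]; exact h v hv
  · intro h v hv
    rw [← hxy v hv]; exact h v hv

theorem Dep.not {A : Cube n → Prop} {S : Finset (Fin n)} (h : Dep A S) :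
    Dep (fun x => ¬ A x) S := fun x y hxy => not_congr (h x y hxy)

theorem Dep.forall_mem {ι : Type} {I : Finset ι} {A : ι → Cube n → Prop} {S : Finset (Fin n)}
    (h : ∀ i ∈ I, Dep (A i) S) : Dep (fun x => ∀ i ∈ I, A i x) S :=
  fun x y hxy => forall₂_congr fun i hi => h i hi x y hxy

/-- No event of `S` occurs. -/
def NN {ι : Type} (T : ι → Finset (Fin n)) (a : ι → Cube n) (S : Finset ι) (x : Cube n) : Prop :=
  ∀ i ∈ S, ¬ agr (T i) (a i) x

open Classical in
theorem NN_insert {ι : Type} (T : ι → Finset (Fin n)) (a : ι → Cube n) (S : Finset ι) (j : ι) :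
    PP (NN T a (insert j S)) =
      PP (NN T a S) - PP (fun x => agr (T j) (a j) x ∧ NN T a S x) := by
  have h := PP_and_not (NN T a S) (agr (T j) (a j))
  have h2 : PP (fun x => NN T a S x ∧ ¬ agr (T j) (a j) x) = PP (NN T a (insert j S)) := by
    refine PP_congr fun x => ?_
    simp only [NN, mem_insert, forall_eq_or_imp]
    exact and_comm
  rw [h2] at h
  exact h

open Classical in
/-- Adding the events of a set one by one. -/
theorem chain {ι : Type} (T : ι → Finset (Fin n)) (a : ι → Cube n) (q : ℝ) (hq : q ≤ 1)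
    (S₂ S : Finset ι)
    (h : ∀ S', S₂ ⊆ S' → S' ⊆ S → ∀ j ∈ S, j ∉ S' →
      PP (fun x => agr (T j) (a j) x ∧ NN T a S' x) ≤ q * PP (NN T a S')) :
    ∀ D : Finset ι, D ⊆ S → Disjoint S₂ D → S₂ ⊆ S →
      (1 - q) ^ D.card * PP (NN T a S₂) ≤ PP (NN T a (S₂ ∪ D)) := by
  intro D
  induction D using Finset.induction_on with
  | empty => intro _ _ _; simp
  | insert j D hj ih =>
    intro hD hdis hS
    have hD' : D ⊆ S := fun x hx => hD (mem_insert_of_mem hx)
    have hdis' : Disjoint S₂ D := by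
      rw [disjoint_insert_right] at hdis
      exact hdis.2
    have hjS : j ∉ S₂ := by
      rw [disjoint_insert_right] at hdis
      exact hdis.1
    have ih' := ih hD' hdis' hS
    have hj2 : j ∉ S₂ ∪ D := by
      simp [hj, hjS]
    have h1 := h (S₂ ∪ D) subset_union_left (union_subset hS hD') j (hD (mem_insert_self _ _)) hj2
    rw [union_insert, NN_insert, card_insert_of_notMem hj, pow_succ]
    have h0 : 0 ≤ 1 - q := by linarith
    have h3 : (1 - q) ^ D.card * (1 - q) * PP (NN T a S₂) ≤ (1 - q) * PP (NN T a (S₂ ∪ D)) := by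
      calc (1 - q) ^ D.card * (1 - q) * PP (NN T a S₂)
          = (1 - q) * ((1 - q) ^ D.card * PP (NN T a S₂)) := by ring
        _ ≤ _ := mul_le_mul_of_nonneg_left ih' h0
    linarith

theorem dep_NN {ι : Type} (T : ι → Finset (Fin n)) (a : ι → Cube n) (S : Finset ι)
    (U : Finset (Fin n)) (h : ∀ i ∈ S, T i ⊆ U) : Dep (NN T a S) U := by
  apply Dep.forall_mem
  intro i hi
  exact ((dep_agr (T i) (a i)).mono (h i hi)).not

theorem num_bound (k c u s : ℕ) (hk : 1 ≤ k) (hc : (8 * (k : ℝ)) ≤ (7 / 4) ^ c) (hu : c ≤ u)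
    (hs : s ≤ k * u) :
    (1 / 2 : ℝ) ^ u ≤ 1 / (8 * (k : ℝ)) * (1 - 1 / (8 * (k : ℝ))) ^ s := by
  have hk' : (1 : ℝ) ≤ k := by exact_mod_cast hk
  have hq0 : 0 ≤ 1 - 1 / (8 * (k : ℝ)) := by
    rw [sub_nonneg, div_le_one (by positivity)]; linarith
  have hq1 : 1 - 1 / (8 * (k : ℝ)) ≤ 1 := by
    have : 0 ≤ 1 / (8 * (k : ℝ)) := by positivity
    linarith
  have h1 : (7 / 8 : ℝ) ≤ (1 - 1 / (8 * (k : ℝ))) ^ k := by
    have := one_add_mul_le_pow (a := -(1 / (8 * (k : ℝ)))) (by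
      have : 1 / (8 * (k : ℝ)) ≤ 1 := by rw [div_le_one (by positivity)]; linarith
      linarith) k
    have e : 1 + (k : ℝ) * -(1 / (8 * (k : ℝ))) = 7 / 8 := by
      field_simp; norm_num
    rw [e] at this
    rw [sub_eq_add_neg]; exact this
  have h2 : (1 - 1 / (8 * (k : ℝ))) ^ (k * u) ≤ (1 - 1 / (8 * (k : ℝ))) ^ s :=
    pow_le_pow_of_le_one hq0 hq1 hs
  have h3 : (7 / 8 : ℝ) ^ u ≤ (1 - 1 / (8 * (k : ℝ))) ^ (k * u) := by
    rw [pow_mul]
    exact pow_le_pow_left₀ (by norm_num) h1 u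
  have h4 : (8 * (k : ℝ)) ≤ (7 / 4) ^ u :=
    hc.trans (pow_le_pow_right₀ (by norm_num) hu)
  have h5 : (1 / 2 : ℝ) ^ u ≤ 1 / (8 * (k : ℝ)) * (7 / 8) ^ u := by
    have e : (7 / 8 : ℝ) ^ u = (7 / 4) ^ u * (1 / 2) ^ u := by
      rw [← mul_pow]; norm_num
    rw [e, ← mul_assoc]
    have : 1 ≤ 1 / (8 * (k : ℝ)) * (7 / 4) ^ u := by
      rw [one_div, inv_mul_eq_div, le_div_iff₀ (by positivity)]
      linarith
    calc (1 / 2 : ℝ) ^ u = 1 * (1 / 2) ^ u := by ring
      _ ≤ _ := mul_le_mul_of_nonneg_right this (by positivity)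
  refine h5.trans ?_
  exact mul_le_mul_of_nonneg_left (h3.trans h2) (by positivity)

open Classical in
/-- The number of sets meeting `T i`. -/
theorem card_meet {ι : Type} (I S : Finset ι) (T : ι → Finset (Fin n)) (k : ℕ)
    (hread : ∀ v, (I.filter fun i => v ∈ T i).card ≤ k) (hS : S ⊆ I) (U : Finset (Fin n)) :
    (S.filter fun j => ¬ Disjoint (T j) U).card ≤ k * U.card := by
  have h : (S.filter fun j => ¬ Disjoint (T j) U) ⊆ U.biUnion fun v => I.filter fun i => v ∈ T i := by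
    intro j hj
    rw [mem_filter, Finset.not_disjoint_iff] at hj
    obtain ⟨hj, v, hv, hvU⟩ := hj
    rw [mem_biUnion]
    exact ⟨v, hvU, mem_filter.2 ⟨hS hj, hv⟩⟩
  calc _ ≤ _ := card_le_card h
    _ ≤ ∑ v ∈ U, (I.filter fun i => v ∈ T i).card := card_biUnion_le
    _ ≤ ∑ v ∈ U, k := sum_le_sum fun v _ => hread v
    _ = k * U.card := by rw [sum_const, smul_eq_mul, mul_comm]

open Classical in
theorem claim {ι : Type} (I : Finset ι) (T : ι → Finset (Fin n)) (a : ι → Cube n) (k c : ℕ)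
    (hk : 1 ≤ k) (hc : (8 * (k : ℝ)) ≤ (7 / 4) ^ c)
    (hread : ∀ v, (I.filter fun i => v ∈ T i).card ≤ k) (hT : ∀ i ∈ I, c ≤ (T i).card) :
    ∀ S : Finset ι, S ⊆ I → ∀ i ∈ I,
      PP (fun x => agr (T i) (a i) x ∧ NN T a S x) ≤ 1 / (8 * (k : ℝ)) * PP (NN T a S) := by
  intro S
  induction S using Finset.strongInduction with
  | H S ih =>
  intro hS i hi
  have hk' : (1 : ℝ) ≤ k := by exact_mod_cast hk
  have hq1 : 1 / (8 * (k : ℝ)) ≤ 1 := by rw [div_le_one (by positivity)]; linarith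
  set S₂ := S.filter fun j => Disjoint (T j) (T i) with hS2
  set S₁ := S.filter fun j => ¬ Disjoint (T j) (T i) with hS1
  have hun : S₂ ∪ S₁ = S := filter_union_filter_not_eq _ S
  have hdis : Disjoint S₂ S₁ := disjoint_filter_filter_not _ _ _
  have hch := chain T a (1 / (8 * (k : ℝ))) hq1 S₂ S (by
    intro S' _ hS'S j hj hjS'
    exact ih S' ⟨hS'S, fun h => hjS' (h hj)⟩ (hS'S.trans hS) j (hS hj)) S₁ (filter_subset _ _)
      hdis (filter_subset _ _)
  rw [hun] at hch
  have hind : PP (fun x => agr (T i) (a i) x ∧ NN T a S₂ x) =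
      (1 / 2) ^ (T i).card * PP (NN T a S₂) := by
    rw [indep_dep (T i) _ _ (dep_agr _ _), PP_agr]
    apply dep_NN
    intro j hj v hv
    rw [mem_filter] at hj
    rw [mem_compl]
    intro hv'
    exact (Finset.disjoint_left.1 hj.2 hv) hv'
  have hmono : PP (fun x => agr (T i) (a i) x ∧ NN T a S x) ≤
      PP (fun x => agr (T i) (a i) x ∧ NN T a S₂ x) := by
    apply PP_mono
    rintro x ⟨h1, h2⟩
    exact ⟨h1, fun j hj => h2 j (filter_subset _ _ hj)⟩
  have hcard : S₁.card ≤ k * (T i).card := card_meet I S T k hread hS (T i)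
  have hnum := num_bound k c (T i).card S₁.card hk hc (hT i hi) hcard
  have h0 := PP_nonneg (NN T a S₂)
  calc PP (fun x => agr (T i) (a i) x ∧ NN T a S x)
      ≤ (1 / 2) ^ (T i).card * PP (NN T a S₂) := hmono.trans_eq hind
    _ ≤ (1 / (8 * (k : ℝ)) * (1 - 1 / (8 * (k : ℝ))) ^ S₁.card) * PP (NN T a S₂) :=
        mul_le_mul_of_nonneg_right hnum h0
    _ = 1 / (8 * (k : ℝ)) * ((1 - 1 / (8 * (k : ℝ))) ^ S₁.card * PP (NN T a S₂)) := by ring
    _ ≤ _ := mul_le_mul_of_nonneg_left hch (by positivity)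

theorem lll : S_LLL := by
  classical
  intro n ι I J T a k c hk hc hJ hread hT
  have hread' : ∀ v, (I.filter fun i => v ∈ T i).card ≤ k := by
    intro v
    convert hread v
  have hk' : (1 : ℝ) ≤ k := by exact_mod_cast hk
  have hq1 : 1 / (8 * (k : ℝ)) ≤ 1 := by rw [div_le_one (by positivity)]; linarith
  have hch := chain T a (1 / (8 * (k : ℝ))) hq1 J I (by
    intro S' _ hS' j hj _
    exact claim I T a k c hk hc hread' hT S' hS' j hj) (I \ J) sdiff_subset
      disjoint_sdiff hJ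
  rw [union_sdiff_of_subset hJ, card_sdiff_of_subset hJ] at hch
  exact hch

end Pool.Agent.Helper91K9.DL
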