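import Pool.Agent.Helper91K9.DL.Lll

/-!
# Many short terms make the formula almost constant
-/

namespace Pool.Agent.Helper91K9.DL

open Finset

variable {n : ℕ}

open Classical in
/-- Disjoint events. -/
theorem NN_disjoint {ι : Type} (T : ι → Finset (Fin n)) (a : ι → Cube n) (W : ℕ) (M : Finset ι)
    (hW : ∀ i ∈ M, (T i).card ≤ W)
    (hd : ∀ i ∈ M, ∀ j ∈ M, i ≠ j → Disjoint (T i) (T j)) :
    PP (NN T a M) ≤ (1 - (1 / 2) ^ W) ^ M.card := by
  induction M using Finset.induction_on with
  | empty => simpa using PP_le_one _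
  | insert j M hj ih =>
    have ih' := ih (fun i hi => hW i (mem_insert_of_mem hi))
      (fun i hi i' hi' h => hd i (mem_insert_of_mem hi) i' (mem_insert_of_mem hi') h)
    rw [NN_insert, card_insert_of_notMem hj]
    have h1 : PP (fun x => agr (T j) (a j) x ∧ NN T a M x) =
        (1 / 2) ^ (T j).card * PP (NN T a M) := by
      rw [indep_dep (T j) _ _ (dep_agr _ _), PP_agr]
      apply dep_NN
      intro i hi v hv
      rw [mem_compl]
      intro hv'
      have hij : i ≠ j := fun h => hj (h ▸ hi)
      exact Finset.disjoint_left.1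
        (hd i (mem_insert_of_mem hi) j (mem_insert_self _ _) hij) hv hv'
    rw [h1]
    have h2 : (1 / 2 : ℝ) ^ W ≤ (1 / 2) ^ (T j).card :=
      pow_le_pow_of_le_one (by norm_num) (by norm_num) (hW j (mem_insert_self _ _))
    have h3 : (1 / 2 : ℝ) ^ W ≤ 1 := pow_le_one₀ (by norm_num) (by norm_num)
    have h4 := PP_nonneg (NN T a M)
    calc PP (NN T a M) - (1 / 2) ^ (T j).card * PP (NN T a M)
        ≤ (1 - (1 / 2) ^ W) * PP (NN T a M) := by nlinarith
      _ ≤ (1 - (1 / 2) ^ W) * (1 - (1 / 2) ^ W) ^ M.card :=
          mul_le_mul_of_nonneg_left ih' (by linarith)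
      _ = _ := by ring

/-- The sets `T i`, `i ∈ M`, are pairwise disjoint. -/
def PwD {ι : Type} (T : ι → Finset (Fin n)) (M : Finset ι) : Prop :=
  ∀ i ∈ M, ∀ j ∈ M, i ≠ j → Disjoint (T i) (T j)

theorem narrow : S_NARROW := by
  classical
  intro k W ε hε
  have hr0 : (0 : ℝ) ≤ 1 - (1 / 2) ^ W := by
    have : (1 / 2 : ℝ) ^ W ≤ 1 := pow_le_one₀ (by norm_num) (by norm_num)
    linarith
  have hr1 : (1 : ℝ) - (1 / 2) ^ W < 1 := by
    have : (0 : ℝ) < (1 / 2) ^ W := by positivity
    linarith
  obtain ⟨J, hJ⟩ := exists_pow_lt_of_lt_one hε hr1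
  refine ⟨k * (W * J), ?_⟩
  intro n ι I T a hread hP
  have hread' : ∀ v, (I.filter fun i => v ∈ T i).card ≤ k := by
    intro v
    convert hread v
  set F := I.filter fun i => (T i).card < W with hF
  have hgoal : F.card ≤ k * (W * J) := by
    -- maximal disjoint subfamily
    have hne : ((F.powerset).filter fun M => PwD T M).Nonempty :=
      ⟨∅, mem_filter.2 ⟨empty_mem_powerset _, fun i hi => by simp at hi⟩⟩
    obtain ⟨M, hM, hmax⟩ := exists_max_image _ (fun M : Finset ι => M.card) hne
    rw [mem_filter, mem_powerset] at hM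
    obtain ⟨hMF, hMd⟩ := hM
    -- all sets are nonempty
    have hpos : ∀ i ∈ I, (T i).Nonempty := by
      intro i hi
      by_contra h
      rw [not_nonempty_iff_eq_empty] at h
      have : PP (fun x => ∀ i ∈ I, ¬ agr (T i) (a i) x) ≤ PP (fun _ : Cube n => ¬ True) := by
        apply PP_mono
        intro x hx
        exact absurd (show agr (T i) (a i) x by intro v hv; rw [h] at hv; simp at hv) (hx i hi)
      have h0 : PP (fun _ : Cube n => ¬ True) = 0 := by
        rw [PP_eq]; simp
      linarith
    have hMcard : M.card < J := by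
      by_contra hlt
      push Not at hlt
      have h1 : PP (fun x => ∀ i ∈ I, ¬ agr (T i) (a i) x) ≤ PP (NN T a M) := by
        apply PP_mono
        intro x hx i hi
        exact hx i (filter_subset _ _ (hMF hi))
      have h2 := NN_disjoint T a W M (fun i hi => ((mem_filter.1 (hMF hi)).2).le) hMd
      have h3 : (1 - (1 / 2 : ℝ) ^ W) ^ M.card ≤ (1 - (1 / 2) ^ W) ^ J :=
        pow_le_pow_of_le_one hr0 hr1.le hlt
      linarith
    -- every short term meets the union
    have hsub : F ⊆ F.filter fun j => ¬ Disjoint (T j) (M.biUnion T) := by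
      intro j hj
      rw [mem_filter]
      refine ⟨hj, ?_⟩
      intro hdis
      have hjI : j ∈ I := filter_subset _ _ hj
      have hjM : j ∉ M := by
        intro hjM
        obtain ⟨v, hv⟩ := hpos j hjI
        exact Finset.disjoint_left.1 hdis hv (mem_biUnion.2 ⟨j, hjM, hv⟩)
      have hnew : insert j M ∈ (F.powerset).filter fun M => PwD T M := by
        rw [mem_filter, mem_powerset]
        refine ⟨insert_subset hj hMF, ?_⟩
        have hdj : ∀ i ∈ M, Disjoint (T j) (T i) := by
          intro i hi
          exact hdis.mono_right (subset_biUnion_of_mem T hi)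
        intro i hi i' hi' hne
        rw [mem_insert] at hi hi'
        rcases hi with rfl | hi <;> rcases hi' with rfl | hi'
        · exact absurd rfl hne
        · exact hdj i' hi'
        · exact (hdj i hi).symm
        · exact hMd i hi i' hi' hne
      have := hmax _ hnew
      rw [card_insert_of_notMem hjM] at this
      omega
    have h1 := card_meet I F T k hread' (filter_subset _ _) (M.biUnion T)
    have h2 : (M.biUnion T).card ≤ M.card * W := by
      apply card_biUnion_le_card_mul
      intro i hi
      exact ((mem_filter.1 (hMF hi)).2).le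
    calc F.card ≤ _ := card_le_card hsub
      _ ≤ k * (M.biUnion T).card := h1
      _ ≤ k * (W * J) := by
        apply Nat.mul_le_mul_left
        calc _ ≤ M.card * W := h2
          _ ≤ J * W := Nat.mul_le_mul_right _ hMcard.le
          _ = W * J := mul_comm _ _
  convert hgoal

end Pool.Agent.Helper91K9.DL
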