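import Pool.Agent.Helper91K9.DL.Cube

/-!
# Parseval
-/

namespace Pool.Agent.Helper91K9.DL

open Finset

variable {n : ℕ}

theorem wt_eq (f : Cube n → Prop) (U : Finset (Fin n × Bool)) (S : Finset (Fin n)) (x : Cube n) :
    wt f U S x = wt f U ∅ x * chi S x := by
  classical
  unfold wt
  split_ifs with h
  · simp [chi]
  · simp

theorem wt_empty_sq_le (f : Cube n → Prop) (U : Finset (Fin n × Bool)) (x : Cube n) :
    wt f U ∅ x * wt f U ∅ x ≤ 1 := by
  classical
  unfold wt
  split_ifs with h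
  · simp [chi]
  · simp

theorem sum_chi_mul (x y : Cube n) :
    ∑ S : Finset (Fin n), chi S x * chi S y = if x = y then 2 ^ n else 0 := by
  classical
  have h1 : ∑ S : Finset (Fin n), chi S x * chi S y =
      ∏ v : Fin n, (1 + (if x v = true then (1 : ℝ) else -1) * (if y v = true then 1 else -1)) := by
    rw [prod_one_add, powerset_univ]
    refine sum_congr rfl fun S _ => ?_
    unfold chi
    rw [prod_mul_distrib]
  rw [h1]
  by_cases h : x = y
  · subst h
    rw [if_pos rfl]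
    have h2 : ∀ v : Fin n, (1 + (if x v = true then (1 : ℝ) else -1) *
        (if x v = true then 1 else -1)) = 2 := by
      intro v
      split_ifs <;> norm_num
    rw [prod_congr rfl fun v _ => h2 v]
    simp
  · rw [if_neg h]
    obtain ⟨v, hv⟩ := Function.ne_iff.1 h
    refine prod_eq_zero (mem_univ v) ?_
    cases hx : x v <;> cases hy : y v <;> simp [hx, hy] at hv ⊢

theorem parseval (f : Cube n → Prop) (U : Finset (Fin n × Bool)) :
    ∑ S : Finset (Fin n), coef f U S ^ 2 ≤ 1 := by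
  classical
  have h1 : ∀ S : Finset (Fin n), coef f U S ^ 2 =
      (∑ x, ∑ y, wt f U ∅ x * wt f U ∅ y * (chi S x * chi S y)) / (2 ^ n * 2 ^ n) := by
    intro S
    unfold coef
    rw [div_pow, sq (∑ x, wt f U S x), sum_mul_sum, sq ((2 : ℝ) ^ n)]
    congr 1
    refine sum_congr rfl fun x _ => sum_congr rfl fun y _ => ?_
    rw [wt_eq f U S x, wt_eq f U S y]
    ring
  rw [sum_congr rfl fun S _ => h1 S, ← sum_div]
  have h2 : ∑ S : Finset (Fin n), ∑ x, ∑ y, wt f U ∅ x * wt f U ∅ y * (chi S x * chi S y) =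
      2 ^ n * ∑ x, wt f U ∅ x * wt f U ∅ x := by
    rw [sum_comm, mul_sum]
    refine sum_congr rfl fun x _ => ?_
    rw [sum_comm]
    have h3 : ∀ y, ∑ S : Finset (Fin n), wt f U ∅ x * wt f U ∅ y * (chi S x * chi S y) =
        if x = y then 2 ^ n * (wt f U ∅ x * wt f U ∅ y) else 0 := by
      intro y
      rw [← mul_sum, sum_chi_mul]
      split_ifs <;> ring
    rw [sum_congr rfl fun y _ => h3 y, sum_ite_eq, if_pos (mem_univ _)]
  rw [h2, div_le_one (by positivity)]
  refine mul_le_mul_of_nonneg_left ?_ (by positivity)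
  calc ∑ x, wt f U ∅ x * wt f U ∅ x ≤ ∑ _x : Cube n, (1 : ℝ) :=
        sum_le_sum fun x _ => wt_empty_sq_le f U x
    _ = 2 ^ n := by simp

theorem pars : S_PARS := by
  intro n f U θ hθ 𝒮 h𝒮
  calc (𝒮.card : ℝ) * θ ^ 2 = ∑ S ∈ 𝒮, θ ^ 2 := by rw [sum_const, nsmul_eq_mul]
    _ ≤ ∑ S ∈ 𝒮, coef f U S ^ 2 := by
        refine sum_le_sum fun S hS => ?_
        rw [← sq_abs (coef f U S)]
        exact pow_le_pow_left₀ hθ.le (h𝒮 S hS) 2
    _ ≤ ∑ S : Finset (Fin n), coef f U S ^ 2 :=
        sum_le_sum_of_subset_of_nonneg (subset_univ _) fun _ _ _ => sq_nonneg _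
    _ ≤ 1 := parseval f U

end Pool.Agent.Helper91K9.DL
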