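import Pool.Agent.Helper91K9.DL.Leaves

/-!
# The learning algorithm runs in polynomial time
-/

namespace Pool.Agent.Helper91K9.DL

open Pool.Agent.NPC

section

variable {α : Type} [TEnc α]

theorem beq_poly {b c : α → Bool} (hb : Poly b) (hc : Poly c) : Poly (fun a => b a == c a) :=
  (NPC.Poly.decide_eq hb hc).congr fun a => by cases b a <;> cases c a <;> rfl

theorem termVal_poly {t : α → List (ℕ × Bool)} {x : α → List Bool} (ht : Poly t) (hx : Poly x) :
    Poly (fun a => termVal (t a) (x a)) := by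
  have h1 : Poly (fun p : α × (ℕ × Bool) => (x p.1).getD p.2.1 false) :=
    NPC.Poly.getD (hx.comp (NPC.Poly.fst NPC.Poly.id)) (NPC.Poly.fst (NPC.Poly.snd NPC.Poly.id))
      (NPC.Poly.const false)
  have h2 : Poly (fun p : α × (ℕ × Bool) => p.2.2) := NPC.Poly.snd (NPC.Poly.snd NPC.Poly.id)
  exact NPC.Poly.all (p := fun a l => (x a).getD l.1 false == l.2) ht (beq_poly h1 h2)

theorem par_poly {S : α → List ℕ} {x : α → List Bool} (hS : Poly S) (hx : Poly x) :
    Poly (fun a => par (S a) (x a)) :=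
  NPC.Poly.foldl (F := fun a c j => c == (x a).getD j false) hS (NPC.Poly.const true)
    (beq_poly (NPC.Poly.fst (NPC.Poly.snd NPC.Poly.id)) (NPC.Poly.getD (hx.comp (NPC.Poly.fst NPC.Poly.id))
      (NPC.Poly.snd (NPC.Poly.snd NPC.Poly.id)) (NPC.Poly.const false))) (Polynomial.C 3) (by
      intro a k _
      rw [Polynomial.eval_C]
      exact sz_bool_le _)

theorem cnt_poly {neg : α → List (List Bool)} {ρ : α → List (ℕ × Bool)} {S : α → List ℕ}
    {b : α → Bool} (hneg : Poly neg) (hρ : Poly ρ) (hS : Poly S) (hb : Poly b) :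
    Poly (fun a => cnt (neg a) (ρ a) (S a) (b a)) :=
  NPC.Poly.length (NPC.Poly.filter (p := fun a x => termVal (ρ a) x && (par (S a) x == b a)) hneg
    (NPC.Poly.and (termVal_poly (hρ.comp (NPC.Poly.fst NPC.Poly.id)) (NPC.Poly.snd NPC.Poly.id))
      (beq_poly (par_poly (hS.comp (NPC.Poly.fst NPC.Poly.id)) (NPC.Poly.snd NPC.Poly.id))
        (hb.comp (NPC.Poly.fst NPC.Poly.id)))))

theorem heavy_poly {m D : α → ℕ} {neg : α → List (List Bool)} {ρ : α → List (ℕ × Bool)}
    {S : α → List ℕ} (hm : Poly m) (hD : Poly D) (hneg : Poly neg) (hρ : Poly ρ) (hS : Poly S) :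
    Poly (fun a => heavy (m a) (D a) (neg a) (ρ a) (S a)) := by
  have h1 := cnt_poly hneg hρ hS (NPC.Poly.const true)
  have h2 := cnt_poly hneg hρ hS (NPC.Poly.const false)
  have h3 := NPC.Poly.mul (NPC.Poly.const 2) hD
  exact NPC.Poly.or (NPC.Poly.decide_le hm (NPC.Poly.mul h3 (NPC.Poly.sub h1 h2)))
    (NPC.Poly.decide_le hm (NPC.Poly.mul h3 (NPC.Poly.sub h2 h1)))

theorem pos_poly {neg : α → List (List Bool)} {ρ : α → List (ℕ × Bool)}
    {S : α → List ℕ} (hneg : Poly neg) (hρ : Poly ρ) (hS : Poly S) :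
    Poly (fun a => pos (neg a) (ρ a) (S a)) :=
  NPC.Poly.decide_lt (cnt_poly hneg hρ hS (NPC.Poly.const false)) (cnt_poly hneg hρ hS (NPC.Poly.const true))

theorem sgn_poly {neg : α → List (List Bool)} {ρ : α → List (ℕ × Bool)}
    {i j : α → ℕ} (hneg : Poly neg) (hρ : Poly ρ) (hi : Poly i) (hj : Poly j) :
    Poly (fun a => sgn (neg a) (ρ a) (i a) (j a)) := by
  have h1 := pos_poly hneg hρ (NPC.Poly.cons hi (NPC.Poly.const []))
  have h2 := pos_poly hneg hρ (NPC.Poly.cons hj (NPC.Poly.cons hi (NPC.Poly.const [])))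
  exact NPC.Poly.ite (NPC.Poly.decide_eq hj hi) (NPC.Poly.not h1) (beq_poly h2 h1)

theorem growStep_poly {m D : α → ℕ} {neg : α → List (List Bool)} {ρ : α → List (ℕ × Bool)}
    {i : α → ℕ} {cur : α → List (List ℕ)} {j : α → ℕ} (hm : Poly m) (hD : Poly D)
    (hneg : Poly neg) (hρ : Poly ρ) (hi : Poly i) (hcur : Poly cur) (hj : Poly j) :
    Poly (fun a => growStep (m a) (D a) (neg a) (ρ a) (i a) (cur a) (j a)) := by
  have h1 : Poly (fun a => (cur a).filter
      fun S => heavy (m a) (D a) (neg a) (ρ a) (j a :: S)) := by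
    refine NPC.Poly.filter (p := fun a S => heavy (m a) (D a) (neg a) (ρ a) (j a :: S)) hcur ?_
    exact heavy_poly (hm.comp (NPC.Poly.fst NPC.Poly.id)) (hD.comp (NPC.Poly.fst NPC.Poly.id))
      (hneg.comp (NPC.Poly.fst NPC.Poly.id)) (hρ.comp (NPC.Poly.fst NPC.Poly.id))
      (NPC.Poly.cons (hj.comp (NPC.Poly.fst NPC.Poly.id)) (NPC.Poly.snd NPC.Poly.id))
  have h2 : Poly (fun a => ((cur a).filter
      fun S => heavy (m a) (D a) (neg a) (ρ a) (j a :: S)).map (j a :: ·)) :=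
    NPC.Poly.map (F := fun a S => j a :: S) h1
      (NPC.Poly.cons (hj.comp (NPC.Poly.fst NPC.Poly.id)) (NPC.Poly.snd NPC.Poly.id))
  have h3 := NPC.Poly.append hcur h2
  exact NPC.Poly.ite (NPC.Poly.decide_eq hj hi) hcur
    (NPC.Poly.ite (NPC.Poly.decide_le (NPC.Poly.length h3) hm) h3 hcur)

end

/-- The sets in the lists during the growing. -/
theorem grow_inv (m D : ℕ) (neg : List (List Bool)) (ρ : List (ℕ × Bool)) (i B : ℕ) :
    ∀ (L : List ℕ), (∀ j ∈ L, sz j ≤ B) → ∀ (cur : List (List ℕ)) (c : ℕ),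
    cur.length ≤ max 1 m → (∀ S ∈ cur, S.length ≤ c ∧ ∀ j ∈ S, sz j ≤ B) →
    (L.foldl (growStep m D neg ρ i) cur).length ≤ max 1 m ∧
      ∀ S ∈ L.foldl (growStep m D neg ρ i) cur, S.length ≤ c + L.length ∧ ∀ j ∈ S, sz j ≤ B := by
  intro L
  induction L with
  | nil =>
    intro _ cur c h1 h2
    exact ⟨h1, fun S hS => ⟨by simpa using (h2 S hS).1, (h2 S hS).2⟩⟩
  | cons j L ih =>
    intro hL cur c h1 h2
    rw [List.foldl_cons]
    have hj : sz j ≤ B := hL j (by simp)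
    have key : (growStep m D neg ρ i cur j).length ≤ max 1 m ∧
        ∀ S ∈ growStep m D neg ρ i cur j, S.length ≤ c + 1 ∧ ∀ j ∈ S, sz j ≤ B := by
      have h3 : ∀ S ∈ cur, S.length ≤ c + 1 ∧ ∀ j ∈ S, sz j ≤ B :=
        fun S hS => ⟨(h2 S hS).1.trans (by omega), (h2 S hS).2⟩
      unfold growStep
      split_ifs with hij hm
      · exact ⟨h1, h3⟩
      · refine ⟨hm.trans (le_max_right _ _), fun S hS => ?_⟩
        rcases List.mem_append.1 hS with hS | hS
        · exact h3 S hS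
        · obtain ⟨S', hS', rfl⟩ := List.mem_map.1 hS
          have h4 := h2 S' (List.mem_of_mem_filter hS')
          refine ⟨by simpa using h4.1, fun j' hj' => ?_⟩
          rcases List.mem_cons.1 hj' with rfl | hj'
          · exact hj
          · exact h4.2 j' hj'
      · exact ⟨h1, h3⟩
    obtain ⟨h5, h6⟩ := ih (fun j' hj' => hL j' (List.mem_cons_of_mem _ hj')) _ (c + 1) key.1 key.2
    refine ⟨h5, fun S hS => ⟨(h6 S hS).1.trans ?_, (h6 S hS).2⟩⟩
    simp only [List.length_cons]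
    omega

section

variable {α : Type} [TEnc α]

theorem UPoly.sz_le {n : α → ℕ} (hn : UPoly n) : ∃ p : Polynomial ℕ, ∀ a, n a ≤ p.eval (sz a) := by
  obtain ⟨r, hr⟩ := NPC.Poly.sz_le hn
  refine ⟨r, fun a => ?_⟩
  have h1 := hr a
  have h2 := length_lt_sz (List.replicate (n a) ())
  rw [List.length_replicate] at h2
  omega

theorem grow_poly {n m D : α → ℕ} {neg : α → List (List Bool)} {ρ : α → List (ℕ × Bool)}
    {i : α → ℕ} (hn : UPoly n) (hm : UPoly m) (hD : Poly D) (hneg : Poly neg) (hρ : Poly ρ)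
    (hi : Poly i) : Poly (fun a => grow (n a) (m a) (D a) (neg a) (ρ a) (i a)) := by
  obtain ⟨r, hr⟩ := UPoly.sz_le hn
  obtain ⟨s, hs⟩ := UPoly.sz_le hm
  obtain ⟨t, ht⟩ := hi.sz_le
  refine NPC.Poly.foldl (F := fun a => growStep (m a) (D a) (neg a) (ρ a) (i a)) hn.range
    (NPC.Poly.cons (NPC.Poly.cons hi (NPC.Poly.const [])) (NPC.Poly.const []))
    (growStep_poly (hm.toPoly.comp (NPC.Poly.fst NPC.Poly.id)) (hD.comp (NPC.Poly.fst NPC.Poly.id))
      (hneg.comp (NPC.Poly.fst NPC.Poly.id)) (hρ.comp (NPC.Poly.fst NPC.Poly.id)) (hi.comp (NPC.Poly.fst NPC.Poly.id))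
      (NPC.Poly.fst (NPC.Poly.snd NPC.Poly.id)) (NPC.Poly.snd (NPC.Poly.snd NPC.Poly.id)))
    ((s + 1) * ((r + 1) * (Polynomial.C 4 * r + t + Polynomial.C 2) + Polynomial.C 2) +
      Polynomial.C 1) ?_
  intro a k hk
  have h0 : ∀ j ∈ (List.range (n a)).take k, sz j ≤ 4 * n a + 1 + sz (i a) := by
    intro j hj
    have h1 := List.mem_range.1 (List.mem_of_mem_take hj)
    have h2 := sz_nat_le j
    have h3 := NPC.Poly.size_le_self j
    omega
  obtain ⟨h1, h2⟩ := grow_inv (m a) (D a) (neg a) (ρ a) (i a) (4 * n a + 1 + sz (i a))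
    _ h0 [[i a]] 1 (by simp) (by simp)
  have h3 : ((List.range (n a)).take k).length ≤ n a := by simp
  have h4 := sz_le_length_mul (((List.range (n a)).take k).foldl
    (growStep (m a) (D a) (neg a) (ρ a) (i a)) [[i a]])
    ((n a + 1) * (4 * n a + 1 + sz (i a) + 1) + 1) (by
      intro S hS
      obtain ⟨h5, h6⟩ := h2 S hS
      refine (sz_le_length_mul S (4 * n a + 1 + sz (i a)) h6).trans ?_
      have h7 : S.length ≤ n a + 1 := by omega
      exact Nat.add_le_add_right (Nat.mul_le_mul_right _ h7) 1)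
  refine h4.trans ?_
  have e1 := hr a
  have e2 := hs a
  have e3 := ht a
  simp only [Polynomial.eval_add, Polynomial.eval_mul, Polynomial.eval_C, Polynomial.eval_one]
  refine Nat.add_le_add_right ?_ 1
  refine Nat.mul_le_mul ?_ ?_
  · refine h1.trans (max_le (by omega) (by omega))
  · have : (n a + 1) * (4 * n a + 1 + sz (i a) + 1) ≤
        (r.eval (sz a) + 1) * (4 * r.eval (sz a) + t.eval (sz a) + 2) :=
      Nat.mul_le_mul (by omega) (by omega)
    omega

theorem lits_poly {n : α → ℕ} (hn : UPoly n) : Poly (fun a => lits (n a)) :=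
  NPC.Poly.flatMap (F := fun _ j => [(j, true), (j, false)]) hn.range
    (NPC.Poly.cons (NPC.Poly.pair (NPC.Poly.snd NPC.Poly.id) (NPC.Poly.const true))
      (NPC.Poly.cons (NPC.Poly.pair (NPC.Poly.snd NPC.Poly.id) (NPC.Poly.const false)) (NPC.Poly.const [])))

theorem parts_poly {n : α → ℕ} (hn : UPoly n) (r : ℕ) : Poly (fun a => parts (n a) r) := by
  induction r with
  | zero => exact NPC.Poly.const [[]]
  | succ r ih =>
    refine NPC.Poly.append ih (NPC.Poly.flatMap (F := fun a ρ => (lits (n a)).map (· :: ρ)) ih ?_)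
    refine NPC.Poly.map (F := fun p l => l :: p.2) ((lits_poly hn).comp (NPC.Poly.fst NPC.Poly.id)) ?_
    exact NPC.Poly.cons (NPC.Poly.snd NPC.Poly.id) (NPC.Poly.snd (NPC.Poly.fst NPC.Poly.id))

theorem lvl0 {neg : α → List (List Bool)} {ρ ρ' : α → List (ℕ × Bool)} {i : α → ℕ}
    {S : α → List ℕ} (hneg : Poly neg) (hρ : Poly ρ) (hi : Poly i) (hS : Poly S)
    (hρ' : Poly ρ') :
    Poly (fun a => ρ' a ++ (S a).map fun j => (j, sgn (neg a) (ρ a) (i a) j)) := by
  have h1 : Poly (fun p : α × ℕ => p.1) := NPC.Poly.fst NPC.Poly.id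
  have h2 : Poly (fun p : α × ℕ => p.2) := NPC.Poly.snd NPC.Poly.id
  have h3 : Poly (fun p : α × ℕ => (p.2, sgn (neg p.1) (ρ p.1) (i p.1) p.2)) :=
    NPC.Poly.pair h2 (sgn_poly (hneg.comp h1) (hρ.comp h1) (hi.comp h1) h2)
  exact NPC.Poly.append hρ' (NPC.Poly.map (F := fun a j => (j, sgn (neg a) (ρ a) (i a) j)) hS h3)

theorem lvl1 (R : ℕ) {n : α → ℕ} {neg : α → List (List Bool)} {ρ : α → List (ℕ × Bool)}
    {i : α → ℕ} {S : α → List ℕ} (hn : UPoly n) (hneg : Poly neg) (hρ : Poly ρ) (hi : Poly i)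
    (hS : Poly S) :
    Poly (fun a => (parts (n a) R).map fun ρ' =>
      ρ' ++ (S a).map fun j => (j, sgn (neg a) (ρ a) (i a) j)) := by
  have h1 : Poly (fun p : α × List (ℕ × Bool) => p.1) := NPC.Poly.fst NPC.Poly.id
  have h2 : Poly (fun p : α × List (ℕ × Bool) => p.2) := NPC.Poly.snd NPC.Poly.id
  exact NPC.Poly.map (F := fun a ρ' => ρ' ++ (S a).map fun j => (j, sgn (neg a) (ρ a) (i a) j))
    (parts_poly hn R) (lvl0 (hneg.comp h1) (hρ.comp h1) (hi.comp h1) (hS.comp h1) h2)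

theorem lvl2 (R : ℕ) {n m D : α → ℕ} {neg : α → List (List Bool)} {ρ : α → List (ℕ × Bool)}
    {i : α → ℕ} (hn : UPoly n) (hm : UPoly m) (hD : Poly D) (hneg : Poly neg) (hρ : Poly ρ)
    (hi : Poly i) :
    Poly (fun a => (grow (n a) (m a) (D a) (neg a) (ρ a) (i a)).flatMap fun S =>
      (parts (n a) R).map fun ρ' => ρ' ++ S.map fun j => (j, sgn (neg a) (ρ a) (i a) j)) := by
  have h1 : Poly (fun p : α × List ℕ => p.1) := NPC.Poly.fst NPC.Poly.id
  have h2 : Poly (fun p : α × List ℕ => p.2) := NPC.Poly.snd NPC.Poly.id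
  exact NPC.Poly.flatMap (F := fun a S => (parts (n a) R).map fun ρ' =>
      ρ' ++ S.map fun j => (j, sgn (neg a) (ρ a) (i a) j))
    (grow_poly hn hm hD hneg hρ hi)
    (lvl1 R (UPoly.comp hn h1) (hneg.comp h1) (hρ.comp h1) (hi.comp h1) h2)

theorem lvl3 (R : ℕ) {n m D : α → ℕ} {neg : α → List (List Bool)} {ρ : α → List (ℕ × Bool)}
    (hn : UPoly n) (hm : UPoly m) (hD : Poly D) (hneg : Poly neg) (hρ : Poly ρ) :
    Poly (fun a => (List.range (n a)).flatMap fun i =>
      (grow (n a) (m a) (D a) (neg a) (ρ a) i).flatMap fun S =>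
      (parts (n a) R).map fun ρ' => ρ' ++ S.map fun j => (j, sgn (neg a) (ρ a) i j)) := by
  have h1 : Poly (fun p : α × ℕ => p.1) := NPC.Poly.fst NPC.Poly.id
  have h2 : Poly (fun p : α × ℕ => p.2) := NPC.Poly.snd NPC.Poly.id
  exact NPC.Poly.flatMap (F := fun a i => (grow (n a) (m a) (D a) (neg a) (ρ a) i).flatMap fun S =>
      (parts (n a) R).map fun ρ' => ρ' ++ S.map fun j => (j, sgn (neg a) (ρ a) i j))
    (UPoly.range hn)
    (lvl2 R (UPoly.comp hn h1) (UPoly.comp hm h1) (hD.comp h1) (hneg.comp h1) (hρ.comp h1) h2)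

theorem lvl4 (R : ℕ) {n m D : α → ℕ} {neg : α → List (List Bool)}
    (hn : UPoly n) (hm : UPoly m) (hD : Poly D) (hneg : Poly neg) :
    Poly (fun a => (parts (n a) R).flatMap fun ρ => (List.range (n a)).flatMap fun i =>
      (grow (n a) (m a) (D a) (neg a) ρ i).flatMap fun S =>
      (parts (n a) R).map fun ρ' => ρ' ++ S.map fun j => (j, sgn (neg a) ρ i j)) := by
  have h1 : Poly (fun p : α × List (ℕ × Bool) => p.1) := NPC.Poly.fst NPC.Poly.id
  have h2 : Poly (fun p : α × List (ℕ × Bool) => p.2) := NPC.Poly.snd NPC.Poly.id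
  have h3 := lvl3 (α := α × List (ℕ × Bool)) (n := fun p => n p.1) (m := fun p => m p.1)
    (D := fun p => D p.1) (neg := fun p => neg p.1) (ρ := fun p => p.2) R (UPoly.comp hn h1)
    (UPoly.comp hm h1) (hD.comp h1) (hneg.comp h1) h2
  have h4 := parts_poly hn R
  refine NPC.Poly.flatMap h4 ?_
  exact h3

theorem cands_poly (R : ℕ) {n m D : α → ℕ} {neg : α → List (List Bool)}
    (hn : UPoly n) (hm : UPoly m) (hD : Poly D) (hneg : Poly neg) :
    Poly (fun a => cands R (n a) (m a) (D a) (neg a)) := by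
  have h := NPC.Poly.append (parts_poly hn R) (lvl4 R hn hm hD hneg)
  refine h.congr fun a => ?_
  rw [cands]

theorem thr_poly (K : ℕ) {n a : α → ℕ} (hn : Poly n) (ha : Poly a) :
    Poly (fun x => thr K (n x) (a x)) := by
  unfold thr
  induction K with
  | zero => simpa using NPC.Poly.const 1
  | succ K ih =>
    simp only [pow_succ]
    exact NPC.Poly.mul ih (NPC.Poly.add (NPC.Poly.add hn ha) (NPC.Poly.const 2))

theorem nvars_upoly : UPoly nvars :=
  UPoly.length (NPC.Poly.fst (NPC.Poly.head?_getD NPC.Poly.id ([], false)))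

theorem negs_poly : Poly negs :=
  NPC.Poly.map (F := fun _ (e : List Bool × Bool) => e.1)
    (NPC.Poly.filter (p := fun _ (e : List Bool × Bool) => !e.2) NPC.Poly.id
      (NPC.Poly.not (NPC.Poly.snd (NPC.Poly.snd NPC.Poly.id)))) (NPC.Poly.fst (NPC.Poly.snd NPC.Poly.id))

end

theorem poly_learn : S_POLY := by
  intro R K
  have h1 : Poly (fun p : ℕ × List (List Bool × Bool) => p.2) := NPC.Poly.snd NPC.Poly.id
  have h2 : Poly (fun p : ℕ × List (List Bool × Bool) => negs p.2) := negs_poly.comp h1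
  have h3 : UPoly (fun p : ℕ × List (List Bool × Bool) => nvars p.2) := nvars_upoly.comp h1
  have h4 : UPoly (fun p : ℕ × List (List Bool × Bool) => p.2.length) := UPoly.length h1
  refine NPC.Poly.ite (NPC.Poly.decide_lt (NPC.Poly.mul (NPC.Poly.mul (NPC.Poly.const 4) (NPC.Poly.fst NPC.Poly.id))
    (NPC.Poly.length h2)) (NPC.Poly.mul (NPC.Poly.const 3) h4.toPoly)) (NPC.Poly.const [[]]) ?_
  refine NPC.Poly.filter (p := fun (p : ℕ × List (List Bool × Bool)) t =>
    (negs p.2).all fun x => !(termVal t x)) (cands_poly R h3 h4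
      (thr_poly K h3.toPoly (NPC.Poly.fst NPC.Poly.id)) h2) ?_
  exact NPC.Poly.all (p := fun (p : (ℕ × List (List Bool × Bool)) × List (ℕ × Bool)) x =>
    !(termVal p.2 x)) (h2.comp (NPC.Poly.fst NPC.Poly.id))
    (NPC.Poly.not (termVal_poly (NPC.Poly.snd (NPC.Poly.fst NPC.Poly.id)) (NPC.Poly.snd NPC.Poly.id)))

end Pool.Agent.Helper91K9.DL
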