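import Pool.Agent.Helper91K9.DL.Cube
import Pool.Agent.TH689.LXHoeff

/-!
# Almost all samples are good
-/

namespace Pool.Agent.Helper91K9.DL

open Finset

variable {n : ℕ}

theorem abs_chi_le (S : Finset (Fin n)) (x : Cube n) : |chi S x| ≤ 1 := by
  unfold chi
  rw [abs_prod]
  refine prod_le_one (fun _ _ => abs_nonneg _) fun v _ => ?_
  split_ifs <;> norm_num

theorem abs_wt_le (f : Cube n → Prop) (U : Finset (Fin n × Bool)) (S : Finset (Fin n))
    (x : Cube n) : |wt f U S x| ≤ 1 := by
  classical
  unfold wt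
  split_ifs with h
  · exact abs_chi_le S x
  · simp

theorem abs_coef_le (f : Cube n → Prop) (U : Finset (Fin n × Bool)) (S : Finset (Fin n)) :
    |coef f U S| ≤ 1 := by
  unfold coef
  rw [abs_div, abs_of_pos (by positivity : (0 : ℝ) < 2 ^ n), div_le_one (by positivity)]
  calc |∑ x, wt f U S x| ≤ ∑ x, |wt f U S x| := abs_sum_le_sum_abs _ _
    _ ≤ ∑ _x : Cube n, (1 : ℝ) := sum_le_sum fun x _ => abs_wt_le f U S x
    _ = 2 ^ n := by simp

theorem samp : S_SAMP := by
  classical
  intro n m b f τ hb hτ hm
  have hb0 : (1 : ℝ) ≤ b := by exact_mod_cast hb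
  have hm0 : (0 : ℝ) < m := by
    by_contra h
    have h1 : (m : ℝ) = 0 := le_antisymm (not_lt.1 h) (Nat.cast_nonneg m)
    rw [h1, zero_mul] at hm
    have : (0 : ℝ) ≤ n := Nat.cast_nonneg n
    nlinarith
  set T : ℝ := (Fintype.card (Fin m → Cube n) : ℝ) with hT
  have hT0 : 0 ≤ T := Nat.cast_nonneg _
  -- one pair
  have hone : ∀ q : Finset (Fin n × Bool) × Finset (Fin n),
      ((univ.filter fun X : Fin m → Cube n =>
        m * τ < |stat X f q.1 q.2 - m * coef f q.1 q.2|).card : ℝ) ≤
        2 * Real.exp (-(3 * n + 2 * b)) * T := by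
    rintro ⟨U, S⟩
    set φ : Fin m → Cube n → ℝ := fun _ x => wt f U S x - coef f U S with hφ
    set l : ℝ := Real.sqrt m * τ / 2 with hl
    have hl0 : 0 ≤ l := by positivity
    have h1 := Pool.Agent.TH689.LX.hoeff_tail φ (fun _ => 2) (2 * Real.sqrt m) l hl0
      (fun _ => by norm_num) (fun t x => by
        simp only [hφ]
        have h1 := abs_wt_le f U S x
        have h2 := abs_coef_le f U S
        calc |wt f U S x - coef f U S| ≤ |wt f U S x| + |coef f U S| := abs_sub _ _
          _ ≤ 2 := by linarith) (fun t => by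
        simp only [hφ]
        rw [sum_sub_distrib, sum_const, card_univ]
        unfold coef
        simp only [Fintype.card_fun, Fintype.card_bool, Fintype.card_fin, nsmul_eq_mul]
        push_cast
        field_simp
        simp) (by positivity) (by
        rw [sum_const, card_univ, Fintype.card_fin, nsmul_eq_mul, mul_pow,
          Real.sq_sqrt hm0.le]
        linarith)
    have h2 : l * (2 * Real.sqrt m) = m * τ := by
      rw [hl]
      have := Real.mul_self_sqrt hm0.le
      calc Real.sqrt m * τ / 2 * (2 * Real.sqrt m) = (Real.sqrt m * Real.sqrt m) * τ := by ring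
        _ = _ := by rw [this]
    have h3 : ∀ X : Fin m → Cube n, ∑ t, φ t (X t) = stat X f U S - m * coef f U S := by
      intro X
      simp only [hφ]
      rw [sum_sub_distrib, sum_const, card_univ, Fintype.card_fin, nsmul_eq_mul]
      rfl
    rw [h2] at h1
    simp only [h3] at h1
    refine h1.trans ?_
    refine mul_le_mul_of_nonneg_right ?_ hT0
    refine mul_le_mul_of_nonneg_left ?_ (by norm_num)
    refine Real.exp_le_exp.2 ?_
    have h4 : l ^ 2 = m * τ ^ 2 / 4 := by
      rw [hl, div_pow, mul_pow, Real.sq_sqrt hm0.le]; norm_num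
    rw [h4]
    linarith
  -- union bound
  have hbad : ((univ.filter fun X : Fin m → Cube n => ¬ Good X f τ).card : ℝ) ≤ 1 / b * T := by
    have h1 : (univ.filter fun X : Fin m → Cube n => ¬ Good X f τ) ⊆
        (univ : Finset (Finset (Fin n × Bool) × Finset (Fin n))).biUnion fun q =>
          univ.filter fun X : Fin m → Cube n =>
            m * τ < |stat X f q.1 q.2 - m * coef f q.1 q.2| := by
      intro X hX
      have h2 := (mem_filter.1 hX).2
      unfold Good at h2
      push Not at h2
      obtain ⟨U, S, h3⟩ := h2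
      exact mem_biUnion.2 ⟨(U, S), mem_univ _, mem_filter.2 ⟨mem_univ _, h3⟩⟩
    have h2 : ((univ.filter fun X : Fin m → Cube n => ¬ Good X f τ).card : ℝ) ≤
        ∑ q : Finset (Fin n × Bool) × Finset (Fin n), 2 * Real.exp (-(3 * n + 2 * b)) * T := by
      calc _ ≤ (((univ : Finset (Finset (Fin n × Bool) × Finset (Fin n))).biUnion fun q =>
          univ.filter fun X : Fin m → Cube n =>
            m * τ < |stat X f q.1 q.2 - m * coef f q.1 q.2|).card : ℝ) := by
              exact_mod_cast card_le_card h1
        _ ≤ ((∑ q : Finset (Fin n × Bool) × Finset (Fin n), (univ.filter fun X : Fin m → Cube n =>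
            m * τ < |stat X f q.1 q.2 - m * coef f q.1 q.2|).card : ℕ) : ℝ) := by
              exact_mod_cast card_biUnion_le
        _ ≤ _ := by
              push_cast
              exact sum_le_sum fun q _ => hone q
    have h3 : (Fintype.card (Finset (Fin n × Bool) × Finset (Fin n)) : ℝ) = 8 ^ n := by
      rw [Fintype.card_prod, Fintype.card_finset, Fintype.card_finset, Fintype.card_prod,
        Fintype.card_fin, Fintype.card_bool]
      push_cast
      rw [← pow_add, show (8 : ℝ) = 2 ^ 3 by norm_num, ← pow_mul]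
      congr 1
      ring
    rw [sum_const, card_univ, nsmul_eq_mul, h3] at h2
    refine h2.trans ?_
    rw [← mul_assoc]
    refine mul_le_mul_of_nonneg_right ?_ hT0
    have h4 : Real.exp (-(3 * (n : ℝ) + 2 * b)) = (Real.exp (-3)) ^ n * Real.exp (-(2 * (b : ℝ))) := by
      rw [← Real.exp_nat_mul, ← Real.exp_add]
      congr 1
      ring
    have h5 : (8 : ℝ) * Real.exp (-3) ≤ 1 := by
      have h6 : (8 : ℝ) ≤ Real.exp 3 := by
        have h7 := Real.exp_one_gt_d9
        have h8 : Real.exp 3 = Real.exp 1 ^ 3 := by rw [← Real.exp_nat_mul]; norm_num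
        rw [h8]
        calc (8 : ℝ) ≤ 2.7182818283 ^ 3 := by norm_num
          _ ≤ _ := pow_le_pow_left₀ (by norm_num) h7.le 3
      rw [Real.exp_neg, ← div_eq_mul_inv]
      exact (div_le_one (Real.exp_pos _)).2 h6
    have h6 : (8 : ℝ) ^ n * Real.exp (-3) ^ n ≤ 1 := by
      rw [← mul_pow]
      exact pow_le_one₀ (by positivity) h5
    have h7 : 2 * Real.exp (-(2 * (b : ℝ))) ≤ 1 / b := by
      rw [Real.exp_neg, ← div_eq_mul_inv, div_le_div_iff₀ (Real.exp_pos _) (by linarith)]
      have := Real.add_one_le_exp (2 * (b : ℝ))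
      linarith
    calc (8 : ℝ) ^ n * (2 * Real.exp (-(3 * (n : ℝ) + 2 * b))) =
          (8 ^ n * Real.exp (-3) ^ n) * (2 * Real.exp (-(2 * (b : ℝ)))) := by rw [h4]; ring
      _ ≤ 1 * (2 * Real.exp (-(2 * (b : ℝ)))) := mul_le_mul_of_nonneg_right h6 (by positivity)
      _ ≤ _ := by rw [one_mul]; exact h7
  have hsum : ((univ.filter fun X : Fin m → Cube n => Good X f τ).card : ℝ) +
      ((univ.filter fun X : Fin m → Cube n => ¬ Good X f τ).card : ℝ) = T := by
    have := card_filter_add_card_filter_not (s := (univ : Finset (Fin m → Cube n)))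
      (fun X => Good X f τ)
    rw [card_univ] at this
    rw [hT]
    exact_mod_cast this
  have : (1 - 1 / (b : ℝ)) * T = T - 1 / b * T := by ring
  rw [this]
  linarith

end Pool.Agent.Helper91K9.DL
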