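import Mathlib

import Pool.Agent.Helper91K9.DL.Defs

/-!
# Learning from uniform random examples: the success of a learner
-/

namespace Pool.Agent.Helper91K9.DL

open Finset

/-- The number of terms of `F` which contain the variable `v`, negated or not. -/
def occ (F : List (List (ℕ × Bool))) (v : ℕ) : ℕ :=
  (F.filter fun t => t.any fun l => l.1 == v).length

/-- `F` is a DNF formula in the variables `0, …, n - 1`, and every variable occurs (negated or not)
in at most `k` terms. -/
def ReadK (n k : ℕ) (F : List (List (ℕ × Bool))) : Prop :=
  (∀ t ∈ F, ∀ l ∈ t, l.1 < n) ∧ ∀ v, occ F v ≤ k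

/-- The number of terms of `F` with fewer than `W` variables. -/
def shortTerms (W : ℕ) (F : List (List (ℕ × Bool))) : ℕ :=
  (F.filter fun t => decide ((t.map Prod.fst).toFinset.card < W)).length

/-- The list of the examples `(x, F(x))`, for the points `x = X 0, …, X (m - 1)`. -/
def examples {n m : ℕ} (F : List (List (ℕ × Bool))) (X : Fin m → Fin n → Bool) :
    List (List Bool × Bool) :=
  List.ofFn fun j => (List.ofFn (X j), dnfVal F (List.ofFn (X j)))

/-- The probability that the formulas `H` and `F` differ at a uniform point of `{0,1}^n`. -/
noncomputable def err (n : ℕ) (H F : List (List (ℕ × Bool))) : ℝ :=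
  ((univ.filter fun x : Fin n → Bool =>
    dnfVal H (List.ofFn x) ≠ dnfVal F (List.ofFn x)).card : ℝ) / 2 ^ n

open Classical in
/-- With probability at least `1 - δ` over `m` independent uniform examples of `F`, the formula
computed by the learner `A` from these examples has error at most `ε`. -/
def Succeeds (A : List (List Bool × Bool) → List (List (ℕ × Bool))) (n m : ℕ)
    (F : List (List (ℕ × Bool))) (ε δ : ℝ) : Prop :=
  (1 - δ) * (Fintype.card (Fin m → Fin n → Bool) : ℝ) ≤
    ((univ.filter fun X : Fin m → Fin n → Bool => err n (A (examples F X)) F ≤ ε).card : ℝ)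

end Pool.Agent.Helper91K9.DL
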