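import Pool.Agent.Helper91K9.DL.Numb
import Pool.Agent.Helper91K9.DL.Fam
import Pool.Agent.Helper91K9.DL.Parts
import Pool.Agent.Helper91K9.DL.Poly
import Pool.Agent.Helper91K9.DL.Samp
import Pool.Agent.Helper91K9.DL.Pars
import Pool.Agent.Helper91K9.DL.Narrow
import Pool.Agent.Helper91K9.DL.Clo
import Pool.Agent.Helper91K9.DL.Cover
import Pool.Agent.Helper91K9.DL.Target

/-!
# Assembly
-/

namespace Pool.Agent.Helper91K9.DL

open Finset Pool.Agent.NPC Pool.Agent.H424R2.PPAD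

theorem s_parts : S_PARTS := fun n r =>
  ⟨fun _ h => parts_vars h, fun _ h1 h2 => mem_parts h1 h2, length_parts n r⟩

theorem err_eq {n : ℕ} (H F : List (List (ℕ × Bool))) :
    err n H F = PP (fun x : Cube n => dnfVal H (List.ofFn x) ≠ dnfVal F (List.ofFn x)) := by
  rw [PP_eq]
  rfl

/-- The core: a learner for formulas given by a family with few short terms. -/
theorem core (k h : ℕ) (hk : 1 ≤ k) : ∃ R K e : ℕ, ∀ (n a b : ℕ) (F : List (List (ℕ × Bool))),
    1 ≤ a → 1 ≤ b → ReadK n k F →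
    (∀ (ι : Type) (I : Finset ι) (T : ι → Finset (Fin n)) (β : ι → Cube n),
      (∀ v, (open Classical in (I.filter fun i => v ∈ T i)).card ≤ k) →
      (∀ W : ℕ, (open Classical in (I.filter fun i => (T i).card < W)).card ≤ shortTerms W F) →
      1 / (2 * (a : ℝ)) ≤ PP (fun x => ∀ i ∈ I, ¬ agr (T i) (β i) x) →
      (open Classical in (I.filter fun i =>
        (T i).card < 8 * k ^ 2 * (Nat.clog 2 k + 3))).card ≤ h) →
    ∀ m, (n + a + b) ^ e ≤ m → Succeeds (fun s => learn R K (a, s)) n m F (1 / a) (1 / b) := by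
  classical
  set c := 2 * (Nat.clog 2 k + 3) with hc
  have hc1 : 1 ≤ c := by omega
  have h8 : (8 * (k : ℝ)) ≤ (7 / 4) ^ c := num_c k
  set R₀ := 8 * h * k ^ 2 * c with hR₀
  obtain ⟨K, hK1, hKD⟩ := num_D k R₀
  set K' := 4 * (R₀ + k) + 2 * K + 8 with hK'
  refine ⟨R₀ + k, K, 4 * K' + 6, fun n a b F ha hb hF hfew m hm => ?_⟩
  obtain ⟨ι, I, T, β, hf, hrd, hsh⟩ := family n F hF.1
  have hread' : ∀ v, (I.filter fun i => v ∈ T i).card ≤ k := fun v => (hrd v).trans (hF.2 v)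
  have hshort : 1 / (2 * (a : ℝ)) ≤ PP (fun x => ∀ i ∈ I, ¬ agr (T i) (β i) x) →
      (I.filter fun i => (T i).card < 4 * k ^ 2 * c).card ≤ h := fun hp => by
    have h1 := hfew ι I T β hread' hsh hp
    have h2 : 4 * k ^ 2 * c = 8 * k ^ 2 * (Nat.clog 2 k + 3) := by rw [hc]; ring
    rw [h2]
    exact h1
  obtain ⟨L, hL1, hL2⟩ := num_L (k * n * a)
  set D := (n + a + 2) ^ K with hD
  have hq2 : 2 ≤ n + a + 2 := by omega
  have hD1 : 1 ≤ D := Nat.one_le_pow _ _ (by omega)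
  obtain ⟨hm1, hm2⟩ := num_m K K' n a b ha hb (by omega) m hm
  have hND := num_N (R₀ + k) K n a ha
  have hKDn := hKD n a L ha hL2
  set q := n + a + 2 with hq
  set τ : ℝ := 1 / (q : ℝ) ^ K' with hτ
  have hq0 : (0 : ℝ) < q := by exact_mod_cast (by omega : 0 < q)
  have ha0 : (0 : ℝ) < a := by exact_mod_cast ha
  have hD0 : (0 : ℝ) < D := by exact_mod_cast hD1
  have hτ0 : 0 < τ := by positivity
  have hτD : τ ≤ 1 / (4 * D) := by
    rw [hτ]
    refine one_div_le_one_div_of_le (by positivity) ?_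
    have : 4 * D ≤ q ^ K' := by
      calc 4 * D ≤ q ^ 2 * q ^ K := Nat.mul_le_mul_right _ (by nlinarith)
        _ = q ^ (2 + K) := by rw [← pow_add]
        _ ≤ q ^ K' := Nat.pow_le_pow_right (by omega) (by omega)
    exact_mod_cast this
  have hτa : τ ≤ 1 / (4 * a) := by
    rw [hτ]
    refine one_div_le_one_div_of_le (by positivity) ?_
    have : 4 * a ≤ q ^ K' := by
      calc 4 * a ≤ q ^ 2 * q ^ 1 := by
            rw [pow_one]; exact Nat.mul_le_mul (by nlinarith) (by omega)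
        _ = q ^ (2 + 1) := by rw [← pow_add]
        _ ≤ q ^ K' := Nat.pow_le_pow_right (by omega) (by omega)
    exact_mod_cast this
  have hτN : NC (R₀ + k) n D * τ ≤ 1 / (2 * a) := by
    rw [hτ, mul_one_div, div_le_div_iff₀ (by positivity) (by positivity), one_mul]
    have h3 : NC (R₀ + k) n D * (2 * a) ≤ q ^ K' := by
      rw [mul_comm]; exact hND
    exact_mod_cast h3
  have hDb : 0 < n → 1 / (D : ℝ) ≤ 1 / (2 * (a : ℝ)) / (4 ^ R₀ * 16 ^ L * (n : ℝ) ^ k) := by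
    intro hn
    have hn0 : (0 : ℝ) < n := by exact_mod_cast hn
    rw [div_div]
    refine one_div_le_one_div_of_le (by positivity) ?_
    exact_mod_cast hKDn
  have hτm : 8 * (3 * (n : ℝ) + 2 * b) ≤ m * τ ^ 2 := by
    rw [hτ, div_pow, one_pow, mul_one_div, le_div_iff₀ (by positivity), ← pow_mul]
    have : 8 * (3 * n + 2 * b) * q ^ (K' * 2) ≤ m := by rw [mul_comm K' 2]; exact hm2
    exact_mod_cast this
  have hs := samp n m b (ff n F) τ hb hτ0 hτm
  unfold Succeeds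
  refine hs.trans ?_
  exact_mod_cast card_le_card fun X hX => by
    rw [mem_filter] at hX ⊢
    refine ⟨mem_univ _, ?_⟩
    rw [err_eq]
    exact correct pars (cover lll clo) s_parts k c h a L D hk hc1 h8 ha hD1 F I T β hf hread'
      hshort hL1 hDb hm1 X τ hτD hτa hτ0.le hτN hX.2 K rfl

/-- Part 1: few short terms, polynomial in `n`, `1/ε`, `1/δ`. -/
theorem part_one (k h : ℕ) (hk : 1 ≤ k) :
    ∃ A : ℕ × List (List Bool × Bool) → List (List (ℕ × Bool)), PTime A ∧ ∃ e : ℕ,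
      ∀ (n a b : ℕ) (F : List (List (ℕ × Bool))), 1 ≤ a → 1 ≤ b → ReadK n k F →
        shortTerms (8 * k ^ 2 * (Nat.clog 2 k + 3)) F ≤ h →
        ∀ m, (n + a + b) ^ e ≤ m → Succeeds (fun s => A (a, s)) n m F (1 / a) (1 / b) := by
  obtain ⟨R, K, e, hcore⟩ := core k h hk
  refine ⟨learn R K, PTime.of_poly (poly_learn R K), e, fun n a b F ha hb hF hsh m hm => ?_⟩
  exact hcore n a b F ha hb hF (fun ι I T β _ hW _ => (hW _).trans hsh) m hm

/-- Part 2: all read-`k` formulas, constant accuracy. -/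
theorem part_two (k a : ℕ) (hk : 1 ≤ k) (ha : 1 ≤ a) :
    ∃ A : List (List Bool × Bool) → List (List (ℕ × Bool)), PTime A ∧ ∃ e : ℕ,
      ∀ (n b : ℕ) (F : List (List (ℕ × Bool))), 1 ≤ b → ReadK n k F →
        ∀ m, (n + b + 1) ^ e ≤ m → Succeeds A n m F (1 / a) (1 / b) := by
  have ha0 : (0 : ℝ) < a := by exact_mod_cast ha
  obtain ⟨h, hh⟩ := narrow k (8 * k ^ 2 * (Nat.clog 2 k + 3)) (1 / (2 * (a : ℝ))) (by positivity)
  obtain ⟨R, K, e, hcore⟩ := core k h hk
  refine ⟨fun s => learn R K (a, s), PTime.of_poly ((poly_learn R K).comp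
    (Pool.Agent.NPC.Poly.pair (Pool.Agent.NPC.Poly.const a) Pool.Agent.NPC.Poly.id)),
    (a + 1) * e, fun n b F hb hF m hm => ?_⟩
  refine hcore n a b F ha hb hF (fun ι I T β hr _ hp => hh n ι I T β hr hp) m (le_trans ?_ hm)
  rw [pow_mul]
  refine Nat.pow_le_pow_left ?_ e
  set Q := n + b + 1 with hQ
  have hQ2 : 2 ≤ Q := by omega
  have h1 : a + 1 ≤ Q ^ a := by
    calc a + 1 ≤ 2 ^ a := Nat.succ_le_of_lt Nat.lt_two_pow_self
      _ ≤ Q ^ a := Nat.pow_le_pow_left hQ2 _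
  calc n + a + b ≤ (a + 1) * Q := by nlinarith
    _ ≤ Q ^ a * Q := Nat.mul_le_mul_right _ h1
    _ = Q ^ (a + 1) := by rw [pow_succ]

end Pool.Agent.Helper91K9.DL
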