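import Pool.Agent.Helper91K9.DL.Numb
import Pool.Agent.Helper91K9.DL.Correct2

/-!
# Numerical estimates, second algorithm
-/

namespace Pool.Agent.Helper91K9.DL

open Finset

theorem num_pow (C n a : ℕ) (ha : 1 ≤ a) : (2 * a) ^ C ≤ (n + a + 2) ^ (2 * C) := by
  rw [pow_mul]
  refine Nat.pow_le_pow_left ?_ _
  calc 2 * a ≤ (n + a + 2) * (n + a + 2) := Nat.mul_le_mul (by omega) (by omega)
    _ = _ := by ring

/-- The choice of `D`. -/
theorem num_D2 (k C : ℕ) : ∃ K : ℕ, 1 ≤ K ∧ ∀ n a L : ℕ, 1 ≤ a → 2 ^ L ≤ 2 * (k * n * a) + 1 →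
    2 * a * (((2 * a) ^ C) ^ 2 * 16 ^ L * n ^ k) ≤ (n + a + 2) ^ K := by
  obtain ⟨K, hK1, hK⟩ := num_D k 0
  refine ⟨K + 4 * C, by omega, fun n a L ha hL => ?_⟩
  have h1 := hK n a L ha hL
  have h2 : ((2 * a) ^ C) ^ 2 ≤ (n + a + 2) ^ (4 * C) := by
    calc ((2 * a) ^ C) ^ 2 ≤ ((n + a + 2) ^ (2 * C)) ^ 2 :=
          Nat.pow_le_pow_left (num_pow C n a ha) 2
      _ = _ := by rw [← pow_mul]; congr 1; omega
  calc 2 * a * (((2 * a) ^ C) ^ 2 * 16 ^ L * n ^ k)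
      = (2 * a * (4 ^ 0 * 16 ^ L * n ^ k)) * ((2 * a) ^ C) ^ 2 := by ring
    _ ≤ (n + a + 2) ^ K * (n + a + 2) ^ (4 * C) := Nat.mul_le_mul h1 h2
    _ = _ := by rw [← pow_add]

/-- The choice of the tolerance. -/
theorem num_N2 (k C K n a : ℕ) (ha : 1 ≤ a) :
    2 * a * NC2 ((2 * a) ^ C) k n ((n + a + 2) ^ K) ≤ (n + a + 2) ^ (2 * C + 2 * k + 2 * K + 8) := by
  have hN := num_pow C n a ha
  set q := n + a + 2 with hq
  have hq2 : 2 ≤ q := by omega
  have hP : (2 * n + 1) ^ k ≤ q ^ (2 * k) := by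
    rw [pow_mul]
    refine Nat.pow_le_pow_left ?_ _
    nlinarith
  have h1 : 16 * (q ^ K) ^ 2 + 1 ≤ 17 * q ^ (2 * K) := by
    have : 1 ≤ q ^ (2 * K) := Nat.one_le_pow _ _ (by omega)
    have e : (q ^ K) ^ 2 = q ^ (2 * K) := by rw [← pow_mul, mul_comm]
    rw [e]; omega
  have h2 : NC2 ((2 * a) ^ C) k n (q ^ K) ≤ q ^ (2 * C) * (18 * q ^ (2 * k + 2 * K + 1)) := by
    unfold NC2
    refine Nat.mul_le_mul hN ?_
    calc 1 + (2 * n + 1) ^ k * (n * (16 * (q ^ K) ^ 2 + 1))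
        ≤ q ^ (2 * k + 2 * K + 1) + q ^ (2 * k) * (q * (17 * q ^ (2 * K))) := by
          refine Nat.add_le_add (Nat.one_le_pow _ _ (by omega)) (Nat.mul_le_mul hP
            (Nat.mul_le_mul (by omega) h1))
      _ = _ := by ring
  have h3 : 36 * q ≤ q ^ 7 := by
    have : 2 ^ 6 ≤ q ^ 6 := Nat.pow_le_pow_left hq2 6
    calc 36 * q ≤ q ^ 6 * q := Nat.mul_le_mul_right _ (by omega)
      _ = q ^ 7 := by ring
  calc 2 * a * NC2 ((2 * a) ^ C) k n (q ^ K)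
      ≤ 2 * q * (q ^ (2 * C) * (18 * q ^ (2 * k + 2 * K + 1))) := Nat.mul_le_mul (by omega) h2
    _ = (36 * q) * q ^ (2 * C + 2 * k + 2 * K + 1) := by ring
    _ ≤ q ^ 7 * q ^ (2 * C + 2 * k + 2 * K + 1) := Nat.mul_le_mul_right _ h3
    _ = _ := by rw [← pow_add]; congr 1; omega

/-- The tolerance is small compared with the probabilities of subcubes. -/
theorem num_tau (C r K' n a v : ℕ) (ha : 1 ≤ a) (hK : 4 * C + 2 * r + 5 ≤ K')
    (hv : 2 ^ v ≤ (2 * a) ^ C) : 2 * a * 4 ^ (v + r + 1) < (n + a + 2) ^ K' := by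
  have hN := num_pow C n a ha
  set q := n + a + 2 with hq
  have hq2 : 2 ≤ q := by omega
  have e2 : 4 ^ v ≤ q ^ (4 * C) := by
    calc 4 ^ v = (2 ^ v) ^ 2 := by rw [← pow_mul, mul_comm, pow_mul]; norm_num
      _ ≤ (q ^ (2 * C)) ^ 2 := Nat.pow_le_pow_left (hv.trans hN) 2
      _ = _ := by rw [← pow_mul]; congr 1; omega
  have e3 : 4 ^ (r + 1) ≤ q ^ (2 * (r + 1)) := by
    rw [pow_mul]
    exact Nat.pow_le_pow_left (by nlinarith) _
  have e4 : 2 * a < q ^ 2 := by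
    have : 2 * a < q * q := by nlinarith
    calc 2 * a < q * q := this
      _ = _ := by ring
  calc 2 * a * 4 ^ (v + r + 1) = 2 * a * (4 ^ v * 4 ^ (r + 1)) := by
        rw [add_assoc, pow_add 4 v]
    _ < q ^ 2 * (q ^ (4 * C) * q ^ (2 * (r + 1))) :=
        Nat.mul_lt_mul_of_lt_of_le e4 (Nat.mul_le_mul e2 e3) (by positivity)
    _ = q ^ (2 + (4 * C + 2 * (r + 1))) := by rw [← pow_add, ← pow_add]
    _ ≤ q ^ K' := Nat.pow_le_pow_right (by omega) (by omega)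

open Classical in
/-- The variables of the short terms, and more. -/
theorem short_vars (hCLO : S_CLO) (n k c a : ℕ) {ι : Type} (I : Finset ι)
    (T : ι → Finset (Fin n)) (hk : 1 ≤ k) (hc : 1 ≤ c)
    (hread : ∀ v, (I.filter fun i => v ∈ T i).card ≤ k)
    (hns : 2 ^ (I.filter fun i => (T i).card < 2 * k * (4 * k * c)).card ≤
      (2 * a) ^ (k * (2 * k * (4 * k * c)) * 2 ^ (2 * k * (4 * k * c)))) :
    ∃ Vs : Finset (Fin n), (∀ i ∈ I, T i ⊆ Vs ∨ c + 2 * k * c + 1 ≤ (T i \ Vs).card) ∧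
      2 ^ Vs.card ≤ (2 * a) ^ (k * (2 * k * (4 * k * c)) * 2 ^ (2 * k * (4 * k * c)) *
        (2 * (2 * k * (4 * k * c)))) := by
  set W := 2 * k * (4 * k * c) with hW
  set s := (I.filter fun i => (T i).card < W).card with hs'
  set V0 := (I.filter fun i => (T i).card < W).biUnion T with hV0
  have hkc : 1 ≤ k * c := Nat.mul_le_mul hk hc
  have hV0c : V0.card ≤ s * W := by
    refine card_biUnion_le.trans (le_trans (sum_le_card_nsmul _ _ W fun i hi => ?_) ?_)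
    · exact (mem_filter.1 hi).2.le
    · rw [smul_eq_mul]
  obtain ⟨Vs, hVV, hV1, -, hV3⟩ := hCLO n ι (I.filter fun i => W ≤ (T i).card) T k
    (4 * k * c) V0 hk (by nlinarith) (fun v => le_trans
      (card_le_card (fun i hi => by
        simp only [mem_filter] at hi ⊢; exact ⟨hi.1.1, hi.2⟩)) (hread v)) (fun i hi =>
      (mem_filter.1 hi).2)
  refine ⟨Vs, ?_, ?_⟩
  · intro i hi
    by_cases hs : (T i).card < W
    · left
      refine subset_trans ?_ hVV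
      exact subset_biUnion_of_mem T (mem_filter.2 ⟨hi, hs⟩)
    · refine (hV3 i (mem_filter.2 ⟨hi, not_lt.1 hs⟩)).imp id fun h => le_trans ?_ h
      have : c ≤ k * c := Nat.le_mul_of_pos_left c hk
      calc c + 2 * k * c + 1 ≤ k * c + 2 * k * c + k * c := by omega
        _ = 4 * k * c := by ring
  · calc 2 ^ Vs.card ≤ 2 ^ (s * (2 * W)) := by
          refine Nat.pow_le_pow_right (by norm_num) (hV1.trans ?_)
          calc 2 * V0.card ≤ 2 * (s * W) := Nat.mul_le_mul_left _ hV0c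
            _ = _ := by ring
      _ = (2 ^ s) ^ (2 * W) := by rw [pow_mul]
      _ ≤ ((2 * a) ^ (k * W * 2 ^ W)) ^ (2 * W) := Nat.pow_le_pow_left hns _
      _ = _ := by rw [← pow_mul]

end Pool.Agent.Helper91K9.DL
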