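import Pool.Agent.Helper91K9.DL.Main
import Pool.Agent.Helper91K9.DL.Numb2
import Pool.Agent.Helper91K9.DL.Cover2

/-!
# Assembly, second algorithm
-/

namespace Pool.Agent.Helper91K9.DL

open Finset Pool.Agent.NPC Pool.Agent.H424R2.PPAD

theorem core2 (hNAR : S_NARROW2) (hLOOP : S_LOOP) (hCRIT : S_CRIT) (hSTAB : S_STAB) (k : ℕ)
    (hk : 1 ≤ k) : ∃ r K e : ℕ, ∀ (n a b : ℕ) (F : List (List (ℕ × Bool))),
    1 ≤ a → 1 ≤ b → ReadK n k F →
    ∀ m, (n + a + b) ^ e ≤ m → Succeeds (fun s => learn2 k r K (a, s)) n m F (1 / a) (1 / b) := by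
  classical
  set c := 2 * (Nat.clog 2 k + 3) with hc
  have hc1 : 1 ≤ c := by omega
  have h8 : (8 * (k : ℝ)) ≤ (7 / 4) ^ c := num_c k
  set r := 2 * k * c with hr
  set W := 2 * k * (4 * k * c) with hW
  set C := k * W * 2 ^ W * (2 * W) with hC
  obtain ⟨K, hK1, hKD⟩ := num_D2 k C
  set K' := 6 * C + 2 * k + 2 * K + 2 * r + 16 with hK'
  refine ⟨r, K, 4 * K' + 6, fun n a b F ha hb hF m hm => ?_⟩
  obtain ⟨ι, I, T, β, hf, hrd, hsh⟩ := family n F hF.1
  have hread' : ∀ v, (I.filter fun i => v ∈ T i).card ≤ k := fun v => (hrd v).trans (hF.2 v)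
  obtain ⟨L, hL1, hL2⟩ := num_L (k * n * a)
  set D := (n + a + 2) ^ K with hD
  have hD1 : 1 ≤ D := Nat.one_le_pow _ _ (by omega)
  obtain ⟨hm1, hm2⟩ := num_m K K' n a b ha hb (by omega) m hm
  have hND := num_N2 k C K n a ha
  have hNq := num_pow C n a ha
  have hKDn := hKD n a L ha hL2
  set N := (2 * a) ^ C with hN
  set q := n + a + 2 with hq
  have hq2 : 2 ≤ q := by omega
  set τ : ℝ := 1 / (q : ℝ) ^ K' with hτ
  have hq0 : (0 : ℝ) < q := by exact_mod_cast (by omega : 0 < q)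
  have ha0 : (0 : ℝ) < a := by exact_mod_cast ha
  have hD0 : (0 : ℝ) < D := by exact_mod_cast hD1
  have hτ0 : 0 < τ := by positivity
  have hN1 : 1 ≤ N := Nat.one_le_pow _ _ (by omega)
  have hN0 : (0 : ℝ) < N := by exact_mod_cast hN1
  have hNm : N ≤ m := by
    refine le_trans ?_ hm2
    calc N ≤ q ^ (2 * C) := hNq
      _ ≤ q ^ (2 * K') := Nat.pow_le_pow_right (by omega) (by omega)
      _ = 1 * q ^ (2 * K') := (one_mul _).symm
      _ ≤ 8 * (3 * n + 2 * b) * q ^ (2 * K') := Nat.mul_le_mul_right _ (by omega)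
  have hτD : τ ≤ 1 / (4 * D) := by
    rw [hτ]
    refine one_div_le_one_div_of_le (by positivity) ?_
    have : 4 * D ≤ q ^ K' := by
      calc 4 * D ≤ q ^ 2 * q ^ K := Nat.mul_le_mul_right _ (by nlinarith)
        _ = q ^ (2 + K) := by rw [← pow_add]
        _ ≤ q ^ K' := Nat.pow_le_pow_right (by omega) (by omega)
    exact_mod_cast this
  have hτa : τ ≤ 1 / (4 * a) := by
    rw [hτ]
    refine one_div_le_one_div_of_le (by positivity) ?_
    have : 4 * a ≤ q ^ K' := by
      calc 4 * a ≤ q ^ 2 * q ^ 1 := by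
            rw [pow_one]; exact Nat.mul_le_mul (by nlinarith) (by omega)
        _ = q ^ (2 + 1) := by rw [← pow_add]
        _ ≤ q ^ K' := Nat.pow_le_pow_right (by omega) (by omega)
    exact_mod_cast this
  have hτN : NC2 N k n D * τ ≤ 1 / (2 * a) := by
    rw [hτ, mul_one_div, div_le_div_iff₀ (by positivity) (by positivity), one_mul]
    have h3 : NC2 N k n D * (2 * a) ≤ q ^ K' := by
      rw [mul_comm]
      exact hND.trans (Nat.pow_le_pow_right (by omega) (by omega))
    exact_mod_cast h3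
  have hDb : 0 < n → 1 / (D : ℝ) ≤ 1 / (2 * (a : ℝ)) / ((N : ℝ) ^ 2 * 16 ^ L * (n : ℝ) ^ k) := by
    intro hn
    have hn0 : (0 : ℝ) < n := by exact_mod_cast hn
    rw [div_div]
    refine one_div_le_one_div_of_le (by positivity) ?_
    exact_mod_cast hKDn
  have hτm : 8 * (3 * (n : ℝ) + 2 * b) ≤ m * τ ^ 2 := by
    rw [hτ, div_pow, one_pow, mul_one_div, le_div_iff₀ (by positivity), ← pow_mul]
    have : 8 * (3 * n + 2 * b) * q ^ (K' * 2) ≤ m := by rw [mul_comm K' 2]; exact hm2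
    exact_mod_cast this
  have hs := samp n m b (ff n F) τ hb hτ0 hτm
  unfold Succeeds
  refine hs.trans ?_
  exact_mod_cast card_le_card fun X hX => by
    rw [mem_filter] at hX ⊢
    refine ⟨mem_univ _, ?_⟩
    rw [err_eq]
    refine correct2 pars (cover2 lll clo) hSTAB s_parts k c r a L D N hk hc1 h8 (by omega) ha hD1 F
      I T β hf hread' hL1 hDb hm1 X τ hτD hτa hτ0.le hτN hX.2 K rfl fun hp => ?_
    -- the variables of the short terms
    have hns := hNAR k W a n ι I T β ha hread' hp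
    obtain ⟨Vs, hVs, hVsN⟩ := short_vars clo n k c a I T hk hc1 hread' (by convert hns)
    have hτs : τ < 1 / (2 * (a : ℝ)) / 4 ^ (Vs.card + r + 1) := by
      rw [hτ, div_div]
      refine one_div_lt_one_div_of_lt (by positivity) ?_
      exact_mod_cast num_tau C r K' n a Vs.card ha (by omega) hVsN
    obtain ⟨V, hV, hVsub, hVc⟩ := hLOOP n m r (negs (smp F X)) Vs (hVsN.trans hNm)
      (fun V As hRep hVs' v hcr => hCRIT n m k c r F ι I T β (1 / (2 * (a : ℝ))) τ Vs X V As v hk h8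
        hf hread' (by positivity) hp hVs (by omega) hτs hX.2 hRep hVs' hcr)
    refine ⟨V, hV, le_trans (Nat.pow_le_pow_right (by norm_num) ?_) hVsN, hVc⟩
    rw [← List.toFinset_card_of_nodup hV.1]
    exact card_le_card fun v hv => hVsub v (List.mem_toFinset.1 hv)

end Pool.Agent.Helper91K9.DL
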