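import Pool.Agent.Helper91K9.DL.Correct

/-!
# Numerical estimates
-/

namespace Pool.Agent.Helper91K9.DL

open Finset

theorem num_c (k : ℕ) : (8 * (k : ℝ)) ≤ (7 / 4) ^ (2 * (Nat.clog 2 k + 3)) := by
  have h1 : k ≤ 2 ^ Nat.clog 2 k := Nat.le_pow_clog (by norm_num) k
  have h2 : (k : ℝ) ≤ 2 ^ Nat.clog 2 k := by exact_mod_cast h1
  calc 8 * (k : ℝ) ≤ 8 * 2 ^ Nat.clog 2 k := by linarith
    _ = 2 ^ (Nat.clog 2 k + 3) := by rw [pow_add]; norm_num; ring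
    _ ≤ (49 / 16) ^ (Nat.clog 2 k + 3) := pow_le_pow_left₀ (by norm_num) (by norm_num) _
    _ = _ := by rw [pow_mul]; norm_num

theorem num_L (x : ℕ) : ∃ L, x ≤ 2 ^ L ∧ 2 ^ L ≤ 2 * x + 1 := by
  refine ⟨Nat.clog 2 x, Nat.le_pow_clog (by norm_num) x, ?_⟩
  rcases Nat.lt_or_ge x 2 with h | h
  · interval_cases x <;> simp
  · have h1 := Nat.pow_pred_clog_lt_self (b := 2) (by norm_num) h
    have h2 : 0 < Nat.clog 2 x := Nat.clog_pos (by norm_num) h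
    obtain ⟨j, hj⟩ : ∃ j, Nat.clog 2 x = j + 1 := ⟨Nat.clog 2 x - 1, by omega⟩
    rw [hj] at h1 ⊢
    simp only [Nat.pred_eq_sub_one, Nat.add_sub_cancel] at h1
    rw [pow_succ]
    omega

/-- The choice of `D`. -/
theorem num_D (k R₀ : ℕ) : ∃ K : ℕ, 1 ≤ K ∧ ∀ n a L : ℕ, 1 ≤ a → 2 ^ L ≤ 2 * (k * n * a) + 1 →
    2 * a * (4 ^ R₀ * 16 ^ L * n ^ k) ≤ (n + a + 2) ^ K := by
  set C₀ := 2 * 4 ^ R₀ * (2 * k + 1) ^ 4 with hC₀
  refine ⟨9 + k + C₀, by omega, fun n a L ha hL => ?_⟩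
  set q := n + a + 2 with hq
  have hq2 : 2 ≤ q := by omega
  have h1 : 2 * (k * n * a) + 1 ≤ (2 * k + 1) * q ^ 2 := by
    have h2 : n * a ≤ q ^ 2 := by
      rw [pow_two]; exact Nat.mul_le_mul (by omega) (by omega)
    have h3 : 1 ≤ q ^ 2 := Nat.one_le_pow _ _ (by omega)
    nlinarith
  have h4 : 16 ^ L ≤ ((2 * k + 1) * q ^ 2) ^ 4 := by
    calc 16 ^ L = (2 ^ L) ^ 4 := by rw [← pow_mul, mul_comm L 4, pow_mul]; norm_num
      _ ≤ _ := Nat.pow_le_pow_left (hL.trans h1) 4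
  have h5 : C₀ ≤ q ^ C₀ := by
    calc C₀ ≤ 2 ^ C₀ := Nat.lt_two_pow_self.le
      _ ≤ q ^ C₀ := Nat.pow_le_pow_left hq2 _
  calc 2 * a * (4 ^ R₀ * 16 ^ L * n ^ k)
      ≤ 2 * q * (4 ^ R₀ * ((2 * k + 1) * q ^ 2) ^ 4 * q ^ k) := by
        refine Nat.mul_le_mul (Nat.mul_le_mul_left _ (by omega)) (Nat.mul_le_mul
          (Nat.mul_le_mul_left _ h4) (Nat.pow_le_pow_left (by omega) _))
    _ = C₀ * q ^ (9 + k) := by rw [hC₀]; ring
    _ ≤ q ^ C₀ * q ^ (9 + k) := Nat.mul_le_mul_right _ h5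
    _ = q ^ (9 + k + C₀) := by rw [← pow_add]; congr 1; omega

/-- The choice of the tolerance. -/
theorem num_N (R K n a : ℕ) (ha : 1 ≤ a) :
    2 * a * NC R n ((n + a + 2) ^ K) ≤ (n + a + 2) ^ (4 * R + 2 * K + 8) := by
  set q := n + a + 2 with hq
  have hq2 : 2 ≤ q := by omega
  have hP : (2 * n + 1) ^ R ≤ q ^ (2 * R) := by
    rw [pow_mul]
    refine Nat.pow_le_pow_left ?_ _
    nlinarith
  have h1 : 16 * (q ^ K) ^ 2 + 1 ≤ 17 * q ^ (2 * K) := by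
    have : 1 ≤ q ^ (2 * K) := Nat.one_le_pow _ _ (by omega)
    have e : (q ^ K) ^ 2 = q ^ (2 * K) := by rw [← pow_mul, mul_comm]
    rw [e]; omega
  have h2 : NC R n (q ^ K) ≤ 18 * q ^ (4 * R + 2 * K + 1) := by
    unfold NC
    calc (2 * n + 1) ^ R + (2 * n + 1) ^ R * (n * ((16 * (q ^ K) ^ 2 + 1) * (2 * n + 1) ^ R))
        ≤ q ^ (2 * R) + q ^ (2 * R) * (q * ((17 * q ^ (2 * K)) * q ^ (2 * R))) := by
          refine Nat.add_le_add hP (Nat.mul_le_mul hP (Nat.mul_le_mul (by omega)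
            (Nat.mul_le_mul h1 hP)))
      _ = q ^ (2 * R) + 17 * q ^ (4 * R + 2 * K + 1) := by ring
      _ ≤ q ^ (4 * R + 2 * K + 1) + 17 * q ^ (4 * R + 2 * K + 1) :=
          Nat.add_le_add_right (Nat.pow_le_pow_right (by omega) (by omega)) _
      _ = _ := by ring
  have h3 : 36 * q ≤ q ^ 7 := by
    have : 2 ^ 6 ≤ q ^ 6 := Nat.pow_le_pow_left hq2 6
    calc 36 * q ≤ q ^ 6 * q := Nat.mul_le_mul_right _ (by omega)
      _ = q ^ 7 := by ring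
  calc 2 * a * NC R n (q ^ K) ≤ 2 * q * (18 * q ^ (4 * R + 2 * K + 1)) :=
        Nat.mul_le_mul (by omega) h2
    _ = (36 * q) * q ^ (4 * R + 2 * K + 1) := by ring
    _ ≤ q ^ 7 * q ^ (4 * R + 2 * K + 1) := Nat.mul_le_mul_right _ h3
    _ = _ := by rw [← pow_add]; congr 1; omega

/-- The choice of the number of examples. -/
theorem num_m (K K' n a b : ℕ) (ha : 1 ≤ a) (hb : 1 ≤ b) (hK : 2 * K + 8 ≤ K') (m : ℕ)
    (hm : (n + a + b) ^ (4 * K' + 6) ≤ m) :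
    16 * ((n + a + 2) ^ K) ^ 2 + 1 ≤ m ∧
      8 * (3 * n + 2 * b) * (n + a + 2) ^ (2 * K') ≤ m := by
  set Q := n + a + b with hQ
  set q := n + a + 2 with hq
  have hQ2 : 2 ≤ Q := by omega
  have hqQ : q ≤ Q ^ 2 := by nlinarith
  have h1 : ∀ e, q ^ e ≤ Q ^ (2 * e) := fun e => by
    rw [pow_mul]; exact Nat.pow_le_pow_left hqQ _
  have h5 : 24 ≤ Q ^ 5 := by
    calc 24 ≤ 2 ^ 5 := by norm_num
      _ ≤ Q ^ 5 := Nat.pow_le_pow_left hQ2 5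
  constructor
  · refine le_trans ?_ hm
    have e : (q ^ K) ^ 2 = q ^ (2 * K) := by rw [← pow_mul, mul_comm]
    have h2 : 1 ≤ q ^ (2 * K) := Nat.one_le_pow _ _ (by omega)
    calc 16 * (q ^ K) ^ 2 + 1 ≤ 24 * q ^ (2 * K) := by rw [e]; omega
      _ ≤ Q ^ 5 * Q ^ (2 * (2 * K)) := Nat.mul_le_mul h5 (h1 _)
      _ = Q ^ (5 + 2 * (2 * K)) := by rw [← pow_add]
      _ ≤ Q ^ (4 * K' + 6) := Nat.pow_le_pow_right (by omega) (by omega)
  · refine le_trans ?_ hm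
    calc 8 * (3 * n + 2 * b) * q ^ (2 * K') ≤ (24 * Q) * Q ^ (2 * (2 * K')) :=
          Nat.mul_le_mul (by omega) (h1 _)
      _ ≤ (Q ^ 5 * Q) * Q ^ (2 * (2 * K')) :=
          Nat.mul_le_mul_right _ (Nat.mul_le_mul_right _ h5)
      _ = Q ^ (4 * K' + 6) := by rw [← pow_succ, ← pow_add]; congr 1; omega

end Pool.Agent.Helper91K9.DL
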