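import Pool.Agent.Helper91K9.DL.Grow

/-!
# The signs of the variables
-/

namespace Pool.Agent.Helper91K9.DL

open Finset

variable {n m : ℕ}

theorem st_pos (hm : 1 ≤ m) (D : ℕ) (hD : 1 ≤ D) (F : List (List (ℕ × Bool)))
    (X : Fin m → Cube n) (τ : ℝ) (hτ : τ ≤ 1 / (4 * D)) (hG : Good X (ff n F) τ)
    (ρ : List (ℕ × Bool)) (S : List ℕ) (s μ : ℝ) (hs : s = 1 ∨ s = -1)
    (hμ : 1 / (D : ℝ) ≤ μ) (hc : coef (ff n F) (UU n ρ) (SS n S) = - s * μ) :
    0 < st F X ρ S ↔ s = -1 := by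
  have h1 := hG (UU n ρ) (SS n S)
  have h1' : |st F X ρ S - m * (- s * μ)| ≤ m * τ := by rw [← hc]; exact h1
  have hm' : (0 : ℝ) < m := by exact_mod_cast hm
  have hD' : (0 : ℝ) < D := by exact_mod_cast hD
  have h2 : (m : ℝ) * τ < m * μ := by
    refine mul_lt_mul_of_pos_left (lt_of_le_of_lt hτ (lt_of_lt_of_le ?_ hμ)) hm'
    rw [div_lt_div_iff₀ (by positivity) hD']
    linarith
  rw [abs_le] at h1'
  rcases hs with rfl | rfl
  · constructor
    · intro h3; nlinarith [h1'.1, h1'.2]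
    · intro h3; norm_num at h3
  · constructor
    · intro; rfl
    · intro; nlinarith [h1'.1, h1'.2]

theorem sg_cases (b : Bool) : sg b = 1 ∨ sg b = -1 := by cases b <;> simp [sg]

theorem chi_singleton (x : Cube n) (i : Fin n) : chi {i} x = sg (x i) := by
  simp [chi, sg]

theorem chi_pair (x : Cube n) (i j : Fin n) (h : j ≠ i) : chi {j, i} x = sg (x j) * sg (x i) := by
  unfold chi
  rw [prod_pair h]
  rfl

theorem sgn_eq (hm : 1 ≤ m) (D : ℕ) (hD : 1 ≤ D) (F : List (List (ℕ × Bool)))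
    (X : Fin m → Cube n) (τ : ℝ) (hτ : τ ≤ 1 / (4 * D)) (hG : Good X (ff n F) τ)
    (ρ : List (ℕ × Bool)) (hρ : ∀ l ∈ ρ, l.1 < n) (i : Fin n) (Ts : Finset (Fin n))
    (hi : i ∈ Ts) (x : Cube n) (μ : ℝ) (hμ : 1 / (D : ℝ) ≤ μ)
    (hc : ∀ S : Finset (Fin n), i ∈ S → S ⊆ Ts → coef (ff n F) (UU n ρ) S = - chi S x * μ)
    (j : Fin n) (hj : j ∈ Ts) : sgn (negs (smp F X)) ρ i j = x j := by
  have e1 : SS n [(i : ℕ)] = {i} := by
    ext v; simp [mem_SS, Fin.ext_iff]
  have h1 : pos (negs (smp F X)) ρ [(i : ℕ)] = ! x i := by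
    have h2 := pos_iff F X ρ hρ [(i : ℕ)] (by simp) (by simp)
    have h3 := st_pos hm D hD F X τ hτ hG ρ [(i : ℕ)] (sg (x i)) μ (sg_cases _) hμ (by
      rw [e1, hc {i} (mem_singleton_self i) (by simpa using hi), chi_singleton])
    rw [h3] at h2
    rw [Bool.eq_iff_iff, h2]
    cases x i <;> simp [sg]
    norm_num
  unfold sgn
  by_cases hji : (j : ℕ) = i
  · rw [if_pos hji, h1, Bool.not_not]
    congr 1
    exact (Fin.ext hji).symm
  · rw [if_neg hji, h1]
    have hji' : j ≠ i := fun h => hji (by rw [h])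
    have e2 : SS n [(j : ℕ), (i : ℕ)] = {j, i} := by
      ext v; simp [mem_SS, Fin.ext_iff]
    have h2 := pos_iff F X ρ hρ [(j : ℕ), (i : ℕ)] (by simp) (by simpa using hji)
    have h3 := st_pos hm D hD F X τ hτ hG ρ [(j : ℕ), (i : ℕ)] (sg (x j) * sg (x i)) μ (by
      rcases sg_cases (x j) with h | h <;> rcases sg_cases (x i) with h' | h' <;>
        rw [h, h'] <;> norm_num) hμ (by
      rw [e2, hc {j, i} (by simp) (by
        intro v hv; rw [mem_insert, mem_singleton] at hv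
        rcases hv with rfl | rfl
        · exact hj
        · exact hi), chi_pair x i j hji'])
    rw [h3] at h2
    have h4 : pos (negs (smp F X)) ρ [(j : ℕ), (i : ℕ)] = (x j ^^ x i) := by
      rw [Bool.eq_iff_iff, h2]
      cases x i <;> cases x j <;> simp [sg] <;> norm_num
    rw [h4]
    cases x i <;> cases x j <;> rfl

end Pool.Agent.Helper91K9.DL
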